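import Pool.Agent.Lib.MP_305fdd_al.Su.CH.Gen
import Pool.Agent.Lib.MP_305fdd_al.Su.E.Use
import Pool.Agent.Lib.MP_305fdd_al.Su.Asm.Stm

/-!
# MP_305fdd_al, surface groups, block CM-HNN: the component from the nondefect condition
-/

set_option autoImplicit false
set_option linter.unusedSectionVars false

namespace Pool.Agent.SuCH

open Matrix Pool.Agent.FrN Pool.Agent.SuUN

/-- HNN extensions for all groups -/
theorem HG.ofUP {Γ : Type} [Group Γ] (N : ℕ) {A : Subgroup Γ} {t z₀ z₁ : Γ}
    (h : SuE.HnUP Γ A t z₀ z₁) : HG N A z₀ z₁ t where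
  gen := h.gen
  mm := h.mem0
  mp := h.mem1
  rel := h.rel
  ext Q _ _ f τ hτ := h.ext Q f τ hτ

section

variable {A R : Type} [Group A] [CommRing R] [Algebra (ZMod 2) R]

/-- the ring of the entries of a representation over a ring -/
def OR (r : A →* SpecialLinearGroup (Fin 2) R) : Subalgebra (ZMod 2) R :=
  Algebra.adjoin (ZMod 2) {x | ∃ a i j, x = (r a).1 i j}

theorem mem_OR (r : A →* SpecialLinearGroup (Fin 2) R) (a : A) (i j : Fin 2) :
    (r a).1 i j ∈ OR r := Algebra.subset_adjoin ⟨a, i, j, rfl⟩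

/-- the ring of the entries is finitely generated -/
theorem OR_fg [hA : Group.FG A] (r : A →* SpecialLinearGroup (Fin 2) R) : (OR r).FG := by
  classical
  obtain ⟨S, hS⟩ := hA.out
  let T : Finset R := S.biUnion fun a => (Finset.univ : Finset (Fin 2 × Fin 2)).image
    fun p => (r a).1 p.1 p.2
  have hT : ∀ a ∈ S, ∀ i j, (r a).1 i j ∈ Algebra.adjoin (ZMod 2) (T : Set R) := by
    intro a ha i j
    refine Algebra.subset_adjoin ?_
    rw [Finset.mem_coe, Finset.mem_biUnion]
    exact ⟨a, ha, Finset.mem_image.2 ⟨(i, j), Finset.mem_univ _, rfl⟩⟩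
  have hall : ∀ a i j, (r a).1 i j ∈ Algebra.adjoin (ZMod 2) (T : Set R) := by
    intro a
    have ha : a ∈ Subgroup.closure (S : Set A) := by rw [hS]; trivial
    induction ha using Subgroup.closure_induction with
    | mem x hx => exact hT x hx
    | one =>
      intro i j
      rw [map_one]
      change (1 : Matrix (Fin 2) (Fin 2) R) i j ∈ _
      rw [Matrix.one_apply]
      split_ifs
      · exact one_mem _
      · exact zero_mem _
    | mul x y _ _ hx hy =>
      intro i j
      rw [map_mul]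
      change ((r x).1 * (r y).1) i j ∈ _
      rw [Matrix.mul_apply, Fin.sum_univ_two]
      exact add_mem (mul_mem (hx i 0) (hy 0 j)) (mul_mem (hx i 1) (hy 1 j))
    | inv x _ hx =>
      intro i j
      rw [map_inv]
      have h3 : ((r x)⁻¹).1 = (r x).1.adjugate := rfl
      rw [h3, Matrix.adjugate_fin_two]
      fin_cases i <;> fin_cases j
      · exact hx 1 1
      · exact neg_mem (hx 0 1)
      · exact neg_mem (hx 1 0)
      · exact hx 0 0
  refine ⟨T, le_antisymm ?_ ?_⟩
  · refine Algebra.adjoin_le ?_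
    intro x hx
    rw [Finset.mem_coe, Finset.mem_biUnion] at hx
    obtain ⟨a, _, hx⟩ := hx
    obtain ⟨p, _, rfl⟩ := Finset.mem_image.1 hx
    exact mem_OR r a p.1 p.2
  · refine Algebra.adjoin_le ?_
    rintro _ ⟨a, i, j, rfl⟩
    exact hall a i j

/-- the representation over the ring of its entries -/
def rR (r : A →* SpecialLinearGroup (Fin 2) R) : A →* SpecialLinearGroup (Fin 2) (OR r) where
  toFun h := ⟨Matrix.of fun i j => ⟨(r h).1 i j, mem_OR r h i j⟩, by
    apply Subtype.val_injective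
    rw [Matrix.det_fin_two]
    change (r h).1 0 0 * (r h).1 1 1 - (r h).1 0 1 * (r h).1 1 0 = 1
    rw [← Matrix.det_fin_two, (r h).2]⟩
  map_one' := by
    apply Subtype.ext
    ext i j
    change (r 1).1 i j = (((1 : Matrix (Fin 2) (Fin 2) (OR r)) i j : OR r) : R)
    rw [map_one]
    change (1 : Matrix (Fin 2) (Fin 2) R) i j = _
    by_cases hij : i = j
    · rw [hij, Matrix.one_apply_eq, Matrix.one_apply_eq]; rfl
    · rw [Matrix.one_apply_ne hij, Matrix.one_apply_ne hij]; rfl
  map_mul' h h' := by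
    apply Subtype.ext
    ext i j
    change (r (h * h')).1 i j = _
    rw [map_mul]
    change ((r h).1 * (r h').1) i j = ((((Matrix.of fun i j => ⟨(r h).1 i j, mem_OR r h i j⟩ :
      Matrix (Fin 2) (Fin 2) (OR r)) * (Matrix.of fun i j => ⟨(r h').1 i j,
        mem_OR r h' i j⟩ : Matrix (Fin 2) (Fin 2) (OR r))) i j : OR r) : R)
    rw [Matrix.mul_apply, Matrix.mul_apply, Fin.sum_univ_two, Fin.sum_univ_two]
    rfl

theorem rR_apply (r : A →* SpecialLinearGroup (Fin 2) R) (h : A) (i j : Fin 2) :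
    (rR r h).1 i j = ⟨(r h).1 i j, mem_OR r h i j⟩ := rfl

theorem adjoin_rR (r : A →* SpecialLinearGroup (Fin 2) R) :
    Algebra.adjoin (ZMod 2) {x : OR r | ∃ h i j, x = (rR r h).1 i j} = ⊤ := by
  rw [eq_top_iff]
  rintro ⟨x, hx⟩ _
  refine Algebra.adjoin_induction (p := fun x hx => (⟨x, hx⟩ : OR r) ∈
    Algebra.adjoin (ZMod 2) {x : OR r | ∃ h i j, x = (rR r h).1 i j}) ?_ ?_ ?_ ?_ hx
  · rintro _ ⟨h, i, j, rfl⟩
    exact Algebra.subset_adjoin ⟨h, i, j, rfl⟩
  · intro c
    exact Subalgebra.algebraMap_mem _ c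
  · intro x y _ _ h h'
    exact add_mem h h'
  · intro x y _ _ h h'
    exact mul_mem h h'

/-- THE COMPONENT -/
theorem exists_cpt [Group.FG A] [IsDomain R] {F F' : Type} [Field F] [Algebra (ZMod 2) F]
    [Field F'] (i : F →+* F') (s : R →+* F') (r : A →* SpecialLinearGroup (Fin 2) R)
    (ρ : A →* SpecialLinearGroup (Fin 2) F)
    (h : ∀ a : A, SpecialLinearGroup.map s (r a) = SpecialLinearGroup.map i (ρ a)) :
    ∃ φ : OR r →ₐ[ZMod 2] F, Cpt A (OR r) (rR r) φ ρ := by
  have hi : Function.Injective i := i.injective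
  have he : ∀ a p q, s ((r a).1 p q) = i ((ρ a).1 p q) := fun a p q =>
    congrArg (fun M : SpecialLinearGroup (Fin 2) F' => M.1 p q) (h a)
  have hx : ∀ x : OR r, ∃ w : F, i w = s x := by
    rintro ⟨x, hx⟩
    change ∃ w : F, i w = s x
    induction hx using Algebra.adjoin_induction with
    | mem x hx =>
      obtain ⟨a, p, q, rfl⟩ := hx
      exact ⟨_, (he a p q).symm⟩
    | algebraMap c =>
      obtain ⟨n, rfl⟩ := ZMod.natCast_zmod_surjective c
      exact ⟨n, by rw [map_natCast, map_natCast, map_natCast]⟩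
    | add x y _ _ h1 h2 =>
      obtain ⟨w, hw⟩ := h1
      obtain ⟨w', hw'⟩ := h2
      exact ⟨w + w', by rw [map_add, map_add, hw, hw']⟩
    | mul x y _ _ h1 h2 =>
      obtain ⟨w, hw⟩ := h1
      obtain ⟨w', hw'⟩ := h2
      exact ⟨w * w', by rw [map_mul, map_mul, hw, hw']⟩
  choose f hf using hx
  let φ : OR r →+* F :=
    { toFun := f
      map_one' := hi (by
        rw [hf, map_one]
        exact map_one s)
      map_mul' := fun x y => hi (by
        rw [hf, map_mul, hf, hf]
        exact map_mul s _ _)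
      map_zero' := hi (by
        rw [hf, map_zero]
        exact map_zero s)
      map_add' := fun x y => hi (by
        rw [hf, map_add, hf, hf]
        exact map_add s _ _) }
  refine ⟨{ φ with
    commutes' := fun c => ?_ }, ?_, ?_, adjoin_rR r, ?_⟩
  · change φ (algebraMap (ZMod 2) (OR r) c) = algebraMap (ZMod 2) F c
    obtain ⟨n, rfl⟩ := ZMod.natCast_zmod_surjective c
    rw [map_natCast, map_natCast, map_natCast]
  · exact inferInstanceAs (IsDomain (OR r).toSubring)
  · exact (Subalgebra.fg_iff_finiteType _).1 (OR_fg r)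
  · intro a p q
    apply hi
    change i (f ((rR r a).1 p q)) = _
    rw [hf, rR_apply]
    exact he a p q

end

end Pool.Agent.SuCH
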