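import Pool.Agent.Lib.MP_305fdd_al.Su.CH.Ub
import Pool.Agent.Lib.MP_305fdd_al.Su.CM.Univ

/-!
# MP_305fdd_al, closed surface groups, class membership, HNN extensions: the tangent spaces

`card_ext`: extension of the field.  `tng`: if every representation of `A` over a finite field lies,
after an extension of the field, on a circle whose other members have many crossed homomorphisms,
then `Tng A (6 g - 3)`.
-/

set_option autoImplicit false
set_option linter.unusedSectionVars false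

namespace Pool.Agent.SuCH

open Matrix (SpecialLinearGroup)
open Pool.Agent.SuUN Pool.Agent.SuD Pool.Agent.SuCM Pool.Agent.FrS
open Pool.Agent.Lib.MP_305fdd_al Pool.Agent.MP_305fdd_al Pool.Agent.SurfCnt

section ext

variable {L : Type} [Group L] {κ κ1 : Type} [Field κ] [Field κ1] (f : κ →+* κ1)

/-- the representation over the larger field -/
abbrev bc (y : L →* SpecialLinearGroup (Fin 2) κ) : L →* SpecialLinearGroup (Fin 2) κ1 :=
  (SpecialLinearGroup.map f).comp y

/-- matrices of trace zero over the larger field -/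
def tkMap (x : TK κ) : TK κ1 := TK.mk (x.m.map f) (by
  rw [Matrix.map_apply, Matrix.map_apply, ← map_add, x.tr, map_zero])

theorem tkMap_add (x y : TK κ) : tkMap f (x + y) = tkMap f x + tkMap f y := by
  apply TK.ext
  change (x.m + y.m).map f = x.m.map f + y.m.map f
  ext i j
  exact map_add f _ _

theorem tkMap_act (q : SpecialLinearGroup (Fin 2) κ) (x : TK κ) :
    tkMap f (q • x) = SpecialLinearGroup.map f q • tkMap f x := by
  apply TK.ext
  change (q.1 * x.m * (q⁻¹).1).map f = (q.1.map f) * (x.m.map f) * ((SpecialLinearGroup.map f q)⁻¹).1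
  rw [Matrix.map_mul, Matrix.map_mul, ← map_inv]
  rfl

theorem act_smul (q : SpecialLinearGroup (Fin 2) κ) (c : κ) (x : TK κ) :
    q • (c • x) = c • (q • x) := by
  apply TK.ext
  rw [TK.m_act, TK.m_smul, TK.m_smul, TK.m_act, Matrix.mul_smul, Matrix.smul_mul]

/-- combination of crossed homomorphisms with coefficients in the larger field -/
def crsComb {d : ℕ} (b : Fin d → κ1) (y : L →* SpecialLinearGroup (Fin 2) κ)
    (c : Fin d → Crs y (TK κ)) : Crs (bc f y) (TK κ1) :=
  ⟨fun x => ∑ j, b j • tkMap f ((c j).1 x), fun x x' => by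
    have h1 : ∀ j, b j • tkMap f ((c j).1 (x * x')) = b j • tkMap f ((c j).1 x) +
        bc f y x • (b j • tkMap f ((c j).1 x')) := by
      intro j
      rw [Crs.map_mul (c j).2, tkMap_add, smul_add, tkMap_act, act_smul]
      rfl
    change (∑ j, b j • tkMap f ((c j).1 (x * x'))) = (∑ j, b j • tkMap f ((c j).1 x)) +
      bc f y x • ∑ j, b j • tkMap f ((c j).1 x')
    rw [Finset.sum_congr rfl fun j _ => h1 j, Finset.sum_add_distrib, Finset.smul_sum]⟩

theorem crsComb_inj [Algebra κ κ1] (hf : f = algebraMap κ κ1) {d : ℕ} (b : Module.Basis (Fin d) κ κ1)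
    (y : L →* SpecialLinearGroup (Fin 2) κ) : Function.Injective (crsComb f b y) := by
  intro c c' h
  funext j
  apply Subtype.ext
  funext x
  apply TK.ext
  ext p q
  have h1 : (∑ j, b j • tkMap f ((c j).1 x)) = ∑ j, b j • tkMap f ((c' j).1 x) :=
    congrFun (congrArg Subtype.val h) x
  have h2 : ∀ c : Fin d → Crs y (TK κ), (∑ j, b j • tkMap f ((c j).1 x)).m p q =
      ∑ j, ((c j).1 x).m p q • b j := by
    intro c
    have h3 : ∀ (s : Finset (Fin d)) (F : Fin d → TK κ1), (∑ j ∈ s, F j).m p q =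
        ∑ j ∈ s, (F j).m p q := by
      classical
      intro s F
      induction s using Finset.induction_on with
      | empty => rfl
      | insert a s ha ih =>
        rw [Finset.sum_insert ha, Finset.sum_insert ha, TK.m_add, Matrix.add_apply, ih]
    rw [h3]
    refine Finset.sum_congr rfl fun j _ => ?_
    rw [Algebra.smul_def, ← hf, mul_comm]
    rfl
  have h4 := h2 c
  rw [h1, h2 c'] at h4
  have h5 := b.linearIndependent
  rw [Fintype.linearIndependent_iff] at h5
  have h6 := h5 (fun j => ((c j).1 x).m p q - ((c' j).1 x).m p q) (by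
    simp only [sub_smul]
    rw [Finset.sum_sub_distrib, ← h4, sub_self]) j
  exact sub_eq_zero.1 h6

/-- extension of the field -/
theorem card_ext [Group.FG L] [Finite κ] [Finite κ1] (y : L →* SpecialLinearGroup (Fin 2) κ) {D : ℕ}
    (h : Nat.card (Crs (bc f y) (TK κ1)) ≤ Nat.card κ1 ^ D) :
    Nat.card (Crs y (TK κ)) ≤ Nat.card κ ^ D := by
  let : Algebra κ κ1 := f.toAlgebra
  have hfin : Module.Finite κ κ1 := Module.Finite.of_finite
  obtain ⟨d, hd⟩ : ∃ d, Module.finrank κ κ1 = d := ⟨_, rfl⟩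
  let b : Module.Basis (Fin d) κ κ1 := Module.finBasisOfFinrankEq κ κ1 hd
  have : Finite (Crs y (TK κ)) := crs_finite _
  have : Finite (Crs (bc f y) (TK κ1)) := crs_finite _
  have h1 := Nat.card_le_card_of_injective _ (crsComb_inj f rfl b y)
  rw [Nat.card_fun, Nat.card_fin] at h1
  have h2 : Nat.card κ1 = Nat.card κ ^ d := by
    rw [Nat.card_congr b.equivFun.toEquiv, Nat.card_fun, Nat.card_fin]
  have h3 : Nat.card (Crs y (TK κ)) ^ d ≤ (Nat.card κ ^ D) ^ d := by
    refine (h1.trans h).trans (le_of_eq ?_)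
    rw [h2, ← pow_mul, ← pow_mul, mul_comm]
  have hd0 : d ≠ 0 := by
    rw [← hd]
    exact Module.finrank_pos.ne'
  exact le_of_pow_le_pow_left₀ hd0 (Nat.zero_le _) h3

end ext

/-- `y₀` lies on a circle over an extension whose other members have at least `|κ₁| ^ D` crossed
homomorphisms -/
def OnCircle {Γ : Type} [Group Γ] (A : Subgroup Γ) (z z' : A) (n D : ℕ) {κ : Type} [Field κ]
    (y₀ : A →* SpecialLinearGroup (Fin 2) κ) : Prop :=
  ∃ (κ1 : Type) (_ : Field κ1) (_ : Finite κ1) (_ : Algebra (ZMod 2) κ1) (f : κ →+* κ1)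
    (y : ZMod n → (A →* SpecialLinearGroup (Fin 2) κ1)) (T : ZMod n → SpecialLinearGroup (Fin 2) κ1),
    y 0 = bc f y₀ ∧ (∀ i, y i z = T i * y (i + 1) z' * (T i)⁻¹) ∧
    ∀ i, i ≠ 0 → Nat.card κ1 ^ D ≤ Nat.card (Crs (y i) (TK κ1))

/-- THE BOUND OF THE TANGENT SPACES -/
theorem tng {Γ : Type} [Group Γ] {N : ℕ} {A : Subgroup Γ} {z s : Γ} {n : ℕ} [NeZero n]
    (h : GluH N A z s) (hN : 2 * n ≤ N) [Group.FG A]
    {Λ : Type} [Group Λ] {j : Λ →* Γ} (hj : Function.Surjective j) {g : ℕ}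
    (hg : 1 ≤ g) (Φ : NatBij Λ (SurfG g))
    (hab : ∀ φ : A →* Multiplicative (ZMod 2), φ ⟨z, h.mem⟩ = φ ⟨s⁻¹ * z * s, h.mem'⟩)
    (hc : ∀ (κ : Type) [Field κ] [Finite κ] [Algebra (ZMod 2) κ]
      (y₀ : A →* SpecialLinearGroup (Fin 2) κ),
      OnCircle A ⟨z, h.mem⟩ ⟨s⁻¹ * z * s, h.mem'⟩ n (6 * g - 3) y₀) : Tng A (6 * g - 3) := by
  classical
  intro κ _ _ _ y₀
  have : Finite (Crs y₀ (TK κ)) := crs_finite _
  refine (Nat.card_le_card_of_injective _ (dlC_inj y₀)).trans ?_
  obtain ⟨κ1, _, _, _, f, y, T, hy, hT, hD⟩ := hc κ y₀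
  have h1 := ub h hN hj hg Φ hab κ1 y T hT
  refine card_ext f y₀ ?_
  rw [← hy]
  have h2 : Nat.card (Crs (y 0) (TK κ1)) * ∏ i ∈ Finset.univ.erase (0 : ZMod n),
      Nat.card (Crs (y i) (TK κ1)) = ∏ i, Nat.card (Crs (y i) (TK κ1)) :=
    Finset.mul_prod_erase _ (fun i => Nat.card (Crs (y i) (TK κ1))) (Finset.mem_univ 0)
  have h3 : (Nat.card κ1 ^ (6 * g - 3)) ^ (n - 1) ≤ ∏ i ∈ Finset.univ.erase (0 : ZMod n),
      Nat.card (Crs (y i) (TK κ1)) := by
    have h4 : (Finset.univ.erase (0 : ZMod n)).card = n - 1 := by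
      rw [Finset.card_erase_of_mem (Finset.mem_univ _), Finset.card_univ, ZMod.card]
    rw [← h4, ← Finset.prod_const]
    exact Finset.prod_le_prod' fun i hi => hD i (Finset.ne_of_mem_erase hi)
  rw [← h2] at h1
  have h5 : Nat.card κ1 ^ (n * (6 * g - 3)) =
      Nat.card κ1 ^ (6 * g - 3) * (Nat.card κ1 ^ (6 * g - 3)) ^ (n - 1) := by
    rw [← pow_succ', Nat.sub_add_cancel (NeZero.one_le), ← pow_mul, mul_comm]
  rw [h5] at h1
  have h6 : 0 < (Nat.card κ1 ^ (6 * g - 3)) ^ (n - 1) := by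
    have : 0 < Nat.card κ1 := Nat.card_pos
    positivity
  refine Nat.le_of_mul_le_mul_right ?_ h6
  exact (Nat.mul_le_mul_left _ h3).trans h1

end Pool.Agent.SuCH
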