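import Pool.Agent.Lib.MP_305fdd_al.Su.CH.Cg
import Pool.Agent.Lib.MP_305fdd_al.Su.CH.Tng
import Pool.Agent.Lib.MP_305fdd_al.Su.CM.Cls
import Pool.Agent.Lib.MP_305fdd_al.Su.CM.LB
import Pool.Agent.Lib.MP_305fdd_al.Su.AA.Pk

/-!
# MP_305fdd_al, closed surface groups, class membership, HNN extensions: from circles to the class

`inCls_of_circles`: if every representation of the vertex group over a finite field is a member of a
circle over a finite extension, then the vertex group is in the class `InCls (2 g - 1)`.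
-/

set_option autoImplicit false
set_option linter.unusedSectionVars false

namespace Pool.Agent.SuCH

open Matrix (SpecialLinearGroup)
open Pool.Agent.FrN Pool.Agent.FrS Pool.Agent.SuCM Pool.Agent.SuTk Pool.Agent.SuUN Pool.Agent.FrAsm
open Pool.Agent.Lib.MP_305fdd_al Pool.Agent.Su

theorem GluH.of_HG {Γ : Type} [Group Γ] {N : ℕ} {A : Subgroup Γ} {zm zp s : Γ}
    (h : HG N A zm zp s) : GluH N A zp s := by
  have h1 : s⁻¹ * zp * s = zm := by
    rw [← h.rel]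
    group
  subst h1
  exact ⟨h.gen, h.mp, h.mm, fun Q _ hQ f t hf => h.ext Q hQ f t hf.symm⟩

section frac

variable {A D E : Type} [Group A] [CommRing D] [Algebra (ZMod 2) D] [Field E] [Algebra (ZMod 2) E]

/-- the representation over a larger field -/
def yF (i : D →ₐ[ZMod 2] E) (y : A →* SpecialLinearGroup (Fin 2) D) :
    A →* SpecialLinearGroup (Fin 2) E :=
  (SpecialLinearGroup.map (i : D →+* E)).comp y

variable (i : D →ₐ[ZMod 2] E) {y : A →* SpecialLinearGroup (Fin 2) D}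

theorem range_yF (hgen : Algebra.adjoin (ZMod 2) {x | ∃ a i j, x = (y a).1 i j} = ⊤) :
    i.range = OO 2 (yF i y) := by
  rw [← Algebra.map_top, ← hgen, AlgHom.map_adjoin, OO]
  congr 1
  ext x
  constructor
  · rintro ⟨_, ⟨a, p, q, rfl⟩, rfl⟩
    exact ⟨a, p, q, rfl⟩
  · rintro ⟨a, p, q, rfl⟩
    exact ⟨_, ⟨a, p, q, rfl⟩, rfl⟩

/-- the ring `D` is the ring of the entries -/
theorem exists_eqv (hi : Function.Injective i)
    (hgen : Algebra.adjoin (ZMod 2) {x | ∃ a i j, x = (y a).1 i j} = ⊤) :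
    ∃ e : D ≃ₐ[ZMod 2] OO 2 (yF i y), ∀ a p q,
      e ((y a).1 p q) = ⟨(yF i y a).1 p q, mem_OO (yF i y) a p q⟩ :=
  ⟨(AlgEquiv.ofInjective i hi).trans (Subalgebra.equivOfEq _ _ (range_yF i hgen)),
    fun _ _ _ => Subtype.ext rfl⟩

theorem yF_inj (hi : Function.Injective i) (hinj : ∀ a, y a = 1 → a = 1) :
    Function.Injective (yF i y) := by
  rw [injective_iff_map_eq_one]
  intro a ha
  apply hinj
  apply Subtype.ext
  ext p q
  apply hi
  have h1 := congrArg (fun M : SpecialLinearGroup (Fin 2) E => M.1 p q) ha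
  change i ((y a).1 p q) = (1 : Matrix (Fin 2) (Fin 2) E) p q at h1
  rw [h1]
  change (1 : Matrix (Fin 2) (Fin 2) E) p q = i ((1 : Matrix (Fin 2) (Fin 2) D) p q)
  rw [Matrix.one_apply, Matrix.one_apply]
  split_ifs
  · rw [map_one]
  · rw [map_zero]

theorem exists_field (D : Type) [CommRing D] [IsDomain D] [Algebra (ZMod 2) D] :
    ∃ (E : Type) (_ : Field E) (_ : Algebra (ZMod 2) E) (i : D →ₐ[ZMod 2] E),
      Function.Injective i :=
  ⟨FractionRing D, inferInstance, inferInstance, IsScalarTower.toAlgHom _ _ _,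
    IsFractionRing.injective D (FractionRing D)⟩

end frac

/-- THE PIECES: the degree of transcendence, the points and the tangent vectors -/
theorem pieces_of_circles {g : ℕ} (hg : 2 ≤ g) {Λ Γ : Type} [Group Λ] [Group Γ]
    [Group.FG Λ] (Φ : Nonempty (NatBij Λ (SurfaceGroup g))) {π : Λ →* Γ}
    (hπ : Function.Surjective π) {A : Subgroup Γ} {zm zp s : Γ} {N : ℕ} (h : HG N A zm zp s)
    (hN : 10 ≤ N) (hA : Group.FG A) {D : Type} [CommRing D] [IsDomain D] [Algebra (ZMod 2) D]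
    [Algebra.FiniteType (ZMod 2) D] {y : A →* SpecialLinearGroup (Fin 2) D}
    (hgen : Algebra.adjoin (ZMod 2) {x | ∃ a i j, x = (y a).1 i j} = ⊤)
    (h1 : Transcendental (ZMod 2) (y ⟨zm, h.mm⟩).1.trace)
    (h2 : Transcendental (Algebra.adjoin (ZMod 2) {(y ⟨zm, h.mm⟩).1.trace})
      (y ⟨zp, h.mp⟩).1.trace)
    (hd : ((6 * g - 3 : ℕ) : Cardinal) ≤ Algebra.trdeg (ZMod 2) D)
    (hab : ∀ φ : A →* Multiplicative (ZMod 2), φ ⟨zm, h.mm⟩ = φ ⟨zp, h.mp⟩)
    (hc : ∀ (κ : Type) [Field κ] [Finite κ] [Algebra (ZMod 2) κ]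
      (y₀ : A →* SpecialLinearGroup (Fin 2) κ),
      ∃ (κ1 : Type) (_ : Field κ1) (_ : Finite κ1) (_ : Algebra (ZMod 2) κ1) (e : κ →+* κ1)
        (f : ZMod 5 → (A →* SpecialLinearGroup (Fin 2) κ1))
        (t : ZMod 5 → SpecialLinearGroup (Fin 2) κ1),
        f 0 = (SpecialLinearGroup.map e).comp y₀ ∧
        ∀ i, t i * f (i + 1) ⟨zm, h.mm⟩ * (t i)⁻¹ = f i ⟨zp, h.mp⟩)
    {E : Type} [Field E] [Algebra (ZMod 2) E] (iE : D →ₐ[ZMod 2] E)
    (hiE : Function.Injective iE) :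
    Algebra.trdeg (ZMod 2) (OO 2 (yF iE y)) = ((3 * (2 * g - 1) : ℕ) : Cardinal) ∧
      Pts (yF iE y) ∧ Tng A (3 * (2 * g - 1)) := by
  obtain ⟨hdeq, hsp⟩ := circle_gen hg Φ hπ h hN hgen h1 h2 hd
  obtain ⟨e₀, he₀⟩ := exists_eqv iE hiE hgen
  have h3 : 3 * (2 * g - 1) = 6 * g - 3 := by omega
  have htr : Algebra.trdeg (ZMod 2) (OO 2 (yF iE y)) = ((6 * g - 3 : ℕ) : Cardinal) := by
    rw [← hdeq]
    exact (AlgEquiv.trdeg_eq e₀).symm
  -- points of the component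
  have hpt : ∀ (κ : Type) [Field κ] [Finite κ] [Algebra (ZMod 2) κ]
      (f : ZMod 5 → (A →* SpecialLinearGroup (Fin 2) κ))
      (t : ZMod 5 → SpecialLinearGroup (Fin 2) κ),
      (∀ i, t i * f (i + 1) ⟨zm, h.mm⟩ * (t i)⁻¹ = f i ⟨zp, h.mp⟩) → ∀ k : ZMod 5,
      ∃ ψ : OO 2 (yF iE y) →ₐ[ZMod 2] κ, ∀ a i j,
        ψ ⟨(yF iE y a).1 i j, mem_OO (yF iE y) a i j⟩ = (f k a).1 i j := by
    intro κ _ _ _ f t ht k
    obtain ⟨ψ, hψ⟩ := hsp κ (fun i => f (i + k)) (fun i => t (i + k)) (fun i => by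
      have h4 : i + 1 + k = (i + k) + 1 := by ring
      change t (i + k) * f (i + 1 + k) ⟨zm, h.mm⟩ * (t (i + k))⁻¹ = f (i + k) ⟨zp, h.mp⟩
      rw [h4]
      exact ht (i + k))
    refine ⟨ψ.comp e₀.symm.toAlgHom, fun a i j => ?_⟩
    have h5 : e₀.symm ⟨(yF iE y a).1 i j, mem_OO (yF iE y) a i j⟩ = (y a).1 i j := by
      rw [← he₀, AlgEquiv.symm_apply_apply]
    change ψ (e₀.symm _) = _
    rw [h5, hψ]
    change (f (0 + k) a).1 i j = _
    rw [zero_add]
  -- all points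
  have hpts : Pts (yF iE y) := by
    intro κ _ _ _ y₀
    obtain ⟨κ1, _, _, _, e, f, t, hf, ht⟩ := hc κ y₀
    obtain ⟨ψ, hψ⟩ := hpt κ1 f t ht 0
    let i : κ →ₐ[ZMod 2] κ1 := { e with
      commutes' := fun c => DFunLike.congr_fun (Subsingleton.elim (e.comp (algebraMap (ZMod 2) κ))
        (algebraMap (ZMod 2) κ1)) c }
    have hi : Function.Injective i := e.injective
    have hval : ∀ a p q, ψ ⟨(yF iE y a).1 p q, mem_OO (yF iE y) a p q⟩ = i ((y₀ a).1 p q) := by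
      intro a p q
      rw [hψ, hf]
      rfl
    have hle : ∀ x, ψ x ∈ i.range := by
      intro x
      have hx : x ∈ Algebra.adjoin (ZMod 2) {x : OO 2 (yF iE y) |
          ∃ h i j, x = (rO (yF iE y) h).1 i j} := by
        rw [adjoin_rO]; trivial
      induction hx using Algebra.adjoin_induction with
      | mem x hx =>
        obtain ⟨a, p, q, rfl⟩ := hx
        exact ⟨(y₀ a).1 p q, (hval a p q).symm⟩
      | algebraMap c =>
        rw [AlgHom.commutes]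
        exact Subalgebra.algebraMap_mem _ c
      | add x x' _ _ h1 h2 => rw [map_add]; exact Subalgebra.add_mem _ h1 h2
      | mul x x' _ _ h1 h2 => rw [map_mul]; exact Subalgebra.mul_mem _ h1 h2
    refine ⟨(AlgEquiv.ofInjective i hi).symm.toAlgHom.comp (ψ.codRestrict i.range hle), ?_⟩
    intro a p q
    apply hi
    have h4 := congrArg Subtype.val ((AlgEquiv.ofInjective i hi).apply_symm_apply
      (ψ.codRestrict i.range hle ⟨(yF iE y a).1 p q, mem_OO (yF iE y) a p q⟩))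
    exact h4.trans (hval a p q)
  -- tangent vectors
  obtain ⟨Φ'⟩ := SuAA.nb_surfG Φ
  have hz : s⁻¹ * zp * s = zm := by
    rw [← h.rel]
    group
  subst hz
  have htng : Tng A (6 * g - 3) := by
    refine tng (n := 5) (GluH.of_HG h) (by omega) hπ (by omega) Φ' (fun φ => (hab φ).symm) ?_
    intro κ _ _ _ y₀
    obtain ⟨κ1, _, _, _, e, f, t, hf, ht⟩ := hc κ y₀
    refine ⟨κ1, inferInstance, inferInstance, inferInstance, e, f, t, hf, fun i => (ht i).symm,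
      fun i _ => ?_⟩
    obtain ⟨ψ, hψ⟩ := hpt κ1 f t ht i
    exact lbC htr ψ (f i) hψ
  rw [h3]
  exact ⟨htr, hpts, htng⟩

/-- FROM CIRCLES TO THE CLASS -/
theorem inCls_of_circles {g : ℕ} (hg : 2 ≤ g) {Λ Γ : Type} [Group Λ] [Group Γ]
    [Group.FG Λ] (Φ : Nonempty (NatBij Λ (SurfaceGroup g))) {π : Λ →* Γ}
    (hπ : Function.Surjective π) {A : Subgroup Γ} {zm zp s : Γ} {N : ℕ} (h : HG N A zm zp s)
    (hN : 10 ≤ N) (hA : Group.FG A) {D : Type} [CommRing D] [IsDomain D] [Algebra (ZMod 2) D]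
    [Algebra.FiniteType (ZMod 2) D] {y : A →* SpecialLinearGroup (Fin 2) D}
    (hgen : Algebra.adjoin (ZMod 2) {x | ∃ a i j, x = (y a).1 i j} = ⊤)
    (h1 : Transcendental (ZMod 2) (y ⟨zm, h.mm⟩).1.trace)
    (h2 : Transcendental (Algebra.adjoin (ZMod 2) {(y ⟨zm, h.mm⟩).1.trace})
      (y ⟨zp, h.mp⟩).1.trace)
    (hd : ((6 * g - 3 : ℕ) : Cardinal) ≤ Algebra.trdeg (ZMod 2) D)
    (hinj : ∀ a, y a = 1 → a = 1)
    (hab : ∀ φ : A →* Multiplicative (ZMod 2), φ ⟨zm, h.mm⟩ = φ ⟨zp, h.mp⟩)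
    (hb : Nat.card (A →* Multiplicative (ZMod 2)) = 2 ^ (2 * g - 1))
    (hc : ∀ (κ : Type) [Field κ] [Finite κ] [Algebra (ZMod 2) κ]
      (y₀ : A →* SpecialLinearGroup (Fin 2) κ),
      ∃ (κ1 : Type) (_ : Field κ1) (_ : Finite κ1) (_ : Algebra (ZMod 2) κ1) (e : κ →+* κ1)
        (f : ZMod 5 → (A →* SpecialLinearGroup (Fin 2) κ1))
        (t : ZMod 5 → SpecialLinearGroup (Fin 2) κ1),
        f 0 = (SpecialLinearGroup.map e).comp y₀ ∧
        ∀ i, t i * f (i + 1) ⟨zm, h.mm⟩ * (t i)⁻¹ = f i ⟨zp, h.mp⟩) : InCls (2 * g - 1) A := by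
  obtain ⟨E, _, _, iE, hiE⟩ := exists_field D
  obtain ⟨g1, g2, g3⟩ := pieces_of_circles hg Φ hπ h hN hA hgen h1 h2 hd hab hc iE hiE
  exact inCls_of_pts (yF_inj iE hiE hinj) g1 hb g2 g3

end Pool.Agent.SuCH
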