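import Pool.Agent.Lib.MP_305fdd_al.Su.CH.CircIn
import Pool.Agent.Lib.MP_305fdd_al.Su.CH.Fin
import Pool.Agent.Lib.MP_305fdd_al.Su.T4.Cir
import Pool.Agent.Lib.MP_305fdd_al.Su.M.Nil

/-!
# MP_305fdd_al, surface groups, block CM-HNN: the vertex group of a nondefect HNN extension is free
-/

set_option autoImplicit false
set_option linter.unusedSectionVars false

namespace Pool.Agent.SuCH

open Matrix Pool.Agent.FrN Pool.Agent.SuUN Pool.Agent.SurfCnt Pool.Agent.SuFI
open Pool.Agent.Lib.MP_305fdd_al Pool.Agent.Su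

variable {g : ℕ} {Λ Γ F : Type} [Group Λ] [Group Γ] [Field F] [Algebra (ZMod 2) F]
  {π : Λ →* Γ} {ρ : Γ →* SpecialLinearGroup (Fin 2) F}
  {A : Subgroup Γ} {zm zp s : Γ} {N : ℕ}

/-- CM-HNN AND FIN: the vertex group of a nondefect HNN extension is free of rank `2 g - 1`. -/
theorem hnn_free (P : SuAA.Pk g π ρ) (h : HG N A zm zp s) (hN : 10 ≤ N) (hA : Group.FG A)
    {R F' : Type} [CommRing R] [IsDomain R] [Algebra (ZMod 2) R] [Field F'] (i : F →+* F')
    (σ : R →+* F') (r : A →* SpecialLinearGroup (Fin 2) R)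
    (hr : ∀ a : A, SpecialLinearGroup.map σ (r a) = SpecialLinearGroup.map i (ρ a))
    (hne : (r ⟨zp, h.mp⟩).1.trace ≠ (r ⟨zm, h.mm⟩).1.trace) :
    Nonempty (A ≃* FreeGroup (Fin (2 * g - 1))) := by
  have hN2 : 2 ≤ N := le_trans (by norm_num) hN
  obtain ⟨Φ⟩ := P.nbG
  have hg := P.two
  have hg1 : 1 ≤ g := by omega
  have := P.fgL
  obtain ⟨φ, C⟩ := exists_cpt i σ r (ρ.comp A.subtype) hr
  have hdom := C.dom
  have hft := C.ft
  have htr : ∀ a, (((rR r a).1.trace : OR r) : R) = (r a).1.trace := by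
    intro a
    rw [Matrix.trace_fin_two, Matrix.trace_fin_two]
    rfl
  have hne' : (rR r ⟨zm, h.mm⟩).1.trace ≠ (rR r ⟨zp, h.mp⟩).1.trace := by
    intro h0
    apply hne
    rw [← htr, ← htr, h0]
  have hT := transc_pk P h hN2 hA
  have PG := pg_of_pk P
  have hρ : ρ zm ≠ 1 := by
    intro h1
    apply hT
    rw [h1, tr_one]
    exact isAlgebraic_zero
  obtain ⟨h1, h2⟩ := C.indep h hT hne'
  have hd := C.le_trdeg PG h hρ hne'
  obtain ⟨hab, -, hb⟩ := num_two h hN2 Φ hg1 P.fac hA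
  obtain ⟨E, _, _, τ, hτ, hnil⟩ := SuT4.nil_circle P h hN C.gen h1 h2 hd
    (SuM.model (by
      have h3 : 1 ≤ g - 1 := by omega
      omega))
  obtain ⟨g1, g2, g3⟩ := pieces_of_circles hg P.nb P.surj h hN hA C.gen h1 h2 hd hab
    (circ_in P h hN2 hA C hne') τ hτ
  refine SuFin.free_of_pts (yF_inj τ hτ ?_) g1 hb g2 g3 hnil
  intro a ha
  have h3 : ρ a = 1 := by
    apply Subtype.ext
    ext p q
    have h4 : φ ((rR r a).1 p q) = (ρ a).1 p q := C.map a p q
    rw [← h4, ha]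
    change φ ((1 : Matrix (Fin 2) (Fin 2) (OR r)) p q) = (1 : Matrix (Fin 2) (Fin 2) F) p q
    rw [Matrix.one_apply, Matrix.one_apply]
    split_ifs
    · exact map_one φ
    · exact map_zero φ
  apply Subtype.ext
  apply P.inj
  rw [h3]
  exact (map_one ρ).symm

end Pool.Agent.SuCH
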