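import Pool.Agent.Lib.MP_305fdd_al.Su.CH.Circ

/-!
# MP_305fdd_al, closed surface groups, class membership, HNN extensions: the generic circle is generic

`circle_gen`: the dimension of the component is `6 g - 3`, and every member of a circle over a reduced
ring is a point of the component.
-/

set_option autoImplicit false
set_option linter.unusedSectionVars false

namespace Pool.Agent.SuCH

open Matrix (SpecialLinearGroup)
open Pool.Agent.FrN Pool.Agent.FrS Pool.Agent.SuCM Pool.Agent.SuTk Pool.Agent.SuUN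
open Pool.Agent.Lib.MP_305fdd_al Pool.Agent.Su

/-- the map of the kernels -/
def kerMap {Λ Γ Q : Type} [Group Λ] [Group Γ] [Group Q] (π : Λ →* Γ) (φ : Γ →* Q) :
    (φ.comp π).ker →* φ.ker where
  toFun x := ⟨π x.1, x.2⟩
  map_one' := Subtype.ext (map_one π)
  map_mul' x y := Subtype.ext (map_mul π x.1 y.1)

theorem kerMap_surj {Λ Γ Q : Type} [Group Λ] [Group Γ] [Group Q] {π : Λ →* Γ}
    (hπ : Function.Surjective π) (φ : Γ →* Q) : Function.Surjective (kerMap π φ) := by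
  rintro ⟨x, hx⟩
  obtain ⟨y, rfl⟩ := hπ x
  exact ⟨⟨y, hx⟩, rfl⟩

theorem En_comp {L L' F : Type} [Group L] [Group L'] [Field F] [Algebra (ZMod 2) F] (ι : L →* L')
    (hι : Function.Surjective ι) (r : L' →* SpecialLinearGroup (Fin 2) F) :
    En (r.comp ι) Set.univ = En r Set.univ := by
  ext x
  constructor
  · rintro ⟨y, -, i, j, rfl⟩
    exact ⟨ι y, Set.mem_univ _, i, j, rfl⟩
  · rintro ⟨y, -, i, j, rfl⟩
    obtain ⟨y, rfl⟩ := hι y
    exact ⟨y, Set.mem_univ _, i, j, rfl⟩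

theorem circle_gen_n {n : ℕ} [Fact n.Prime] {g : ℕ} (hg : 2 ≤ g) {Λ Γ : Type} [Group Λ] [Group Γ]
    [Group.FG Λ] (Φ : Nonempty (NatBij Λ (SurfaceGroup g))) {π : Λ →* Γ}
    (hπ : Function.Surjective π) {A : Subgroup Γ} {zm zp s : Γ} {N : ℕ} (h : HG N A zm zp s)
    (hN : 2 * n ≤ N) {D : Type} [CommRing D] [IsDomain D] [Algebra (ZMod 2) D]
    [Algebra.FiniteType (ZMod 2) D] {y : A →* SpecialLinearGroup (Fin 2) D}
    (hgen : Algebra.adjoin (ZMod 2) {x | ∃ a i j, x = (y a).1 i j} = ⊤)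
    (h1 : Transcendental (ZMod 2) (y ⟨zm, h.mm⟩).1.trace)
    (h2 : Transcendental (Algebra.adjoin (ZMod 2) {(y ⟨zm, h.mm⟩).1.trace})
      (y ⟨zp, h.mp⟩).1.trace)
    (hd : ((6 * g - 3 : ℕ) : Cardinal) ≤ Algebra.trdeg (ZMod 2) D) :
    Algebra.trdeg (ZMod 2) D = ((6 * g - 3 : ℕ) : Cardinal) ∧
    ∀ (R : Type) [CommRing R] [IsReduced R] [Algebra (ZMod 2) R]
      (f : ZMod n → (A →* SpecialLinearGroup (Fin 2) R)) (t : ZMod n → SpecialLinearGroup (Fin 2) R),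
      (∀ i, t i * f (i + 1) ⟨zm, h.mm⟩ * (t i)⁻¹ = f i ⟨zp, h.mp⟩) →
      ∃ ψ : D →ₐ[ZMod 2] R, ∀ a i j, ψ ((y a).1 i j) = (f 0 a).1 i j := by
  obtain ⟨Φ⟩ := Φ
  have hprime : n.Prime := Fact.out
  have hn2 : 2 ≤ n := hprime.two_le
  have : NeZero n := ⟨hprime.ne_zero⟩
  have hlt : Algebra.trdeg (ZMod 2) D < Cardinal.aleph0 := trdeg_lt_aleph0_of_finiteType
  obtain ⟨d, hd'⟩ := Cardinal.lt_aleph0.1 hlt
  have hd1 : 6 * g - 3 ≤ d := by
    rw [hd'] at hd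
    exact_mod_cast hd
  obtain ⟨Ω, _, _, σ, T, hσ, hT, hr⟩ := gen_circle hn2 hgen h1 h2 hd'
  let Y : ZMod n → (A →* SpecialLinearGroup (Fin 2) Ω) := fun i =>
    (SpecialLinearGroup.map (σ i : D →+* Ω)).comp y
  obtain ⟨Θ, hΘA, hΘs⟩ := h.circ hN Y T hT
  let φ : Γ →* Multiplicative (ZMod n) := (Wr.pr n _).comp Θ
  have hφ : ∀ x, φ x = Multiplicative.ofAdd (Θ x).k := fun _ => rfl
  have hφA : ∀ a : A, φ a = 1 := by
    intro a
    rw [hφ, hΘA]
    rfl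
  have hφ1 : φ.comp π ≠ 1 := by
    intro h0
    obtain ⟨x, hx⟩ := hπ s
    have h3 := DFunLike.congr_fun h0 x
    rw [MonoidHom.comp_apply, hx, hφ, hΘs, MonoidHom.one_apply] at h3
    have h4 : (1 : ZMod n) = 0 := h3
    have h5 : ((1 : ℕ) : ZMod n) = 0 := by exact_mod_cast h4
    rw [ZMod.natCast_eq_zero_iff] at h5
    have := Nat.le_of_dvd one_pos h5
    omega
  obtain ⟨Ψ⟩ := SuCov.cov_natBij (p := n) (by omega : 1 ≤ g) Φ (φ.comp π) hφ1
  have hfin : Finite (Multiplicative (ZMod n)) := inferInstanceAs (Finite (ZMod n))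
  have hfi : (φ.comp π).ker.FiniteIndex := Subgroup.finiteIndex_ker _
  have hfg : Group.FG (φ.comp π).ker := inferInstance
  let R' : (φ.comp π).ker →* SpecialLinearGroup (Fin 2) Ω := (cir Θ φ hφ).comp (kerMap π φ)
  have hER : er (OO 2 R' : Set Ω) = er (En (cir Θ φ hφ) Set.univ) := by
    rw [er_OO, En_comp _ (kerMap_surj hπ φ)]
  have hg' : 2 ≤ n * (g - 1) + 1 := by
    have h3 : 1 ≤ g - 1 := by omega
    nlinarith
  have hle := er_le hg' Ψ R'
  have hge := er_cir Θ φ hφ Y T hΘA hΘs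
  rw [← hER] at hge
  have hge' : ((n * d : ℕ) : ℕ∞) ≤ er (OO 2 R' : Set Ω) + (3 * (n - 1) : ℕ) := hr.trans hge
  obtain ⟨e, he⟩ : ∃ e : ℕ, er (OO 2 R' : Set Ω) = e :=
    ENat.ne_top_iff_exists.1 (ne_top_of_le_ne_top (ENat.coe_ne_top _) hle) |>.imp fun _ h => h.symm
  rw [he] at hle hge'
  have hle' : e ≤ 6 * (n * (g - 1) + 1) - 3 := by exact_mod_cast hle
  have hge'' : n * d ≤ e + 3 * (n - 1) := by exact_mod_cast hge'
  obtain ⟨G, rfl⟩ : ∃ G, g = G + 1 := ⟨g - 1, by omega⟩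
  obtain ⟨m, rfl⟩ : ∃ m, n = m + 1 := ⟨n - 1, by omega⟩
  rw [Nat.add_sub_cancel] at hle' hge''
  have h6 : 6 * (G + 1) - 3 = 6 * G + 3 := by omega
  have h7 : 6 * ((m + 1) * G + 1) - 3 = 6 * ((m + 1) * G) + 3 := by omega
  rw [h6] at hd1
  rw [h7] at hle'
  have hdle : d ≤ 6 * G + 3 := by
    have h8 : (m + 1) * d ≤ (m + 1) * (6 * G + 3) := by
      calc (m + 1) * d ≤ e + 3 * m := hge''
        _ ≤ 6 * ((m + 1) * G) + 3 + 3 * m := by omega
        _ = (m + 1) * (6 * G + 3) := by ring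
    exact Nat.le_of_mul_le_mul_left h8 (Nat.succ_pos m)
  have hdeq : d = 6 * G + 3 := le_antisymm hdle hd1
  have hee : 6 * ((m + 1) * G) + 3 ≤ e := by
    have h8 : (m + 1) * d = 6 * ((m + 1) * G) + 3 + 3 * m := by
      rw [hdeq]
      ring
    omega
  refine ⟨by rw [hd', h6, hdeq], ?_⟩
  intro R _ _ _ f t ht
  rcases subsingleton_or_nontrivial R with hR | hR
  · exact ⟨{ toFun := fun _ => 0
             map_one' := Subsingleton.elim _ _
             map_mul' := fun _ _ => Subsingleton.elim _ _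
             map_zero' := rfl
             map_add' := fun _ _ => Subsingleton.elim _ _
             commutes' := fun _ => Subsingleton.elim _ _ }, fun _ _ _ => Subsingleton.elim _ _⟩
  obtain ⟨θ, hθA, hθs⟩ := h.circ hN f t ht
  have hφ' : ∀ x, φ x = Multiplicative.ofAdd (θ x).k := by
    intro x
    rw [hφ, h.shift Θ θ Y f T t hΘA hΘs hθA hθs x]
  let r' : (φ.comp π).ker →* SpecialLinearGroup (Fin 2) R := (cir θ φ hφ').comp (kerMap π φ)
  obtain ⟨ψ, hψ⟩ := sp_of_er hg' Ψ R' (by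
    rw [he]
    have h9 : 6 * ((m + 1) * (G + 1 - 1) + 1) - 3 ≤ e := by
      rw [Nat.add_sub_cancel, h7]
      exact hee
    exact_mod_cast h9) R r'
  have hval : ∀ a : A, ∃ x : (φ.comp π).ker, R' x = Y 0 a ∧ r' x = f 0 a := by
    intro a
    obtain ⟨x, hx⟩ := hπ a
    refine ⟨⟨x, ?_⟩, ?_, ?_⟩
    · rw [MonoidHom.mem_ker, MonoidHom.comp_apply, hx, hφA]
    · change (Θ (π x)).f 0 = _
      rw [hx, hΘA]
      rfl
    · change (θ (π x)).f 0 = _
      rw [hx, hθA]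
      rfl
  have hmem : ∀ x, σ 0 x ∈ OO 2 R' := by
    intro x
    have hx : x ∈ Algebra.adjoin (ZMod 2) {x | ∃ a i j, x = (y a).1 i j} := by
      rw [hgen]
      trivial
    induction hx using Algebra.adjoin_induction with
    | mem x hx =>
      obtain ⟨a, p, q, rfl⟩ := hx
      obtain ⟨x, hx, -⟩ := hval a
      have h3 : σ 0 ((y a).1 p q) = (R' x).1 p q := by
        rw [hx]
        rfl
      rw [h3]
      exact mem_OO R' x p q
    | algebraMap r =>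
      rw [AlgHom.commutes]
      exact Subalgebra.algebraMap_mem _ r
    | add x x' _ _ h1 h2 => rw [map_add]; exact add_mem h1 h2
    | mul x x' _ _ h1 h2 => rw [map_mul]; exact mul_mem h1 h2
  refine ⟨ψ.comp ((σ 0).codRestrict (OO 2 R') hmem), fun a p q => ?_⟩
  obtain ⟨x, hx, hx'⟩ := hval a
  rw [← hx', ← hψ x p q, AlgHom.comp_apply]
  congr 1
  apply Subtype.ext
  change σ 0 ((y a).1 p q) = (R' x).1 p q
  rw [hx]
  rfl

/-- THE GENERIC CIRCLE IS GENERIC -/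
theorem circle_gen {g : ℕ} (hg : 2 ≤ g) {Λ Γ : Type} [Group Λ] [Group Γ]
    [Group.FG Λ] (Φ : Nonempty (NatBij Λ (SurfaceGroup g))) {π : Λ →* Γ}
    (hπ : Function.Surjective π) {A : Subgroup Γ} {zm zp s : Γ} {N : ℕ} (h : HG N A zm zp s)
    (hN : 10 ≤ N) {D : Type} [CommRing D] [IsDomain D] [Algebra (ZMod 2) D]
    [Algebra.FiniteType (ZMod 2) D] {y : A →* SpecialLinearGroup (Fin 2) D}
    (hgen : Algebra.adjoin (ZMod 2) {x | ∃ a i j, x = (y a).1 i j} = ⊤)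
    (h1 : Transcendental (ZMod 2) (y ⟨zm, h.mm⟩).1.trace)
    (h2 : Transcendental (Algebra.adjoin (ZMod 2) {(y ⟨zm, h.mm⟩).1.trace})
      (y ⟨zp, h.mp⟩).1.trace)
    (hd : ((6 * g - 3 : ℕ) : Cardinal) ≤ Algebra.trdeg (ZMod 2) D) :
    Algebra.trdeg (ZMod 2) D = ((6 * g - 3 : ℕ) : Cardinal) ∧
    ∀ (R : Type) [CommRing R] [IsReduced R] [Algebra (ZMod 2) R]
      (f : ZMod 5 → (A →* SpecialLinearGroup (Fin 2) R)) (t : ZMod 5 → SpecialLinearGroup (Fin 2) R),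
      (∀ i, t i * f (i + 1) ⟨zm, h.mm⟩ * (t i)⁻¹ = f i ⟨zp, h.mp⟩) →
      ∃ ψ : D →ₐ[ZMod 2] R, ∀ a i j, ψ ((y a).1 i j) = (f 0 a).1 i j := by
  have : Fact (Nat.Prime 5) := ⟨by norm_num⟩
  exact circle_gen_n (n := 5) hg Φ hπ h hN hgen h1 h2 hd

end Pool.Agent.SuCH
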