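import Pool.Agent.Lib.MP_305fdd_al.Su.CH.Cut
import Pool.Agent.Lib.MP_305fdd_al.Fr.Top.Gr

/-!
# MP_305fdd_al, surface groups, block CM-HNN: points of the group with prescribed traces, and chains
-/

set_option autoImplicit false
set_option linter.unusedSectionVars false

namespace Pool.Agent.SuCH

open Matrix Pool.Agent.FrN Pool.Agent.SuUN Pool.Agent.SurfCnt Pool.Agent.SuFI
open Pool.Agent.Lib.MP_305fdd_al

/-- unipotent matrices -/
def uni2 (Ω : Type) [Field Ω] [Algebra (ZMod 2) Ω] :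
    Multiplicative (ZMod 2) →* SpecialLinearGroup (Fin 2) Ω where
  toFun x := ⟨!![1, algebraMap (ZMod 2) Ω (Multiplicative.toAdd x); 0, 1], by
    rw [Matrix.det_fin_two_of]
    ring⟩
  map_one' := by
    apply Subtype.ext
    change !![1, algebraMap (ZMod 2) Ω (Multiplicative.toAdd 1); 0, 1] = 1
    rw [toAdd_one, map_zero]
    ext i j
    fin_cases i <;> fin_cases j <;> simp
  map_mul' x y := by
    apply Subtype.ext
    change !![1, algebraMap (ZMod 2) Ω (Multiplicative.toAdd (x * y)); 0, 1] =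
      !![1, algebraMap (ZMod 2) Ω (Multiplicative.toAdd x); 0, 1] *
        !![1, algebraMap (ZMod 2) Ω (Multiplicative.toAdd y); 0, 1]
    rw [toAdd_mul, map_add, Matrix.mul_fin_two]
    simp [add_comm]

theorem uni2_inj (Ω : Type) [Field Ω] [Algebra (ZMod 2) Ω] : Function.Injective (uni2 Ω) := by
  intro x y h
  have h1 : algebraMap (ZMod 2) Ω (Multiplicative.toAdd x) =
      algebraMap (ZMod 2) Ω (Multiplicative.toAdd y) :=
    congrArg (fun M : SpecialLinearGroup (Fin 2) Ω => M.1 0 1) h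
  exact Multiplicative.toAdd.injective ((algebraMap (ZMod 2) Ω).injective h1)

theorem uni2_trace {Ω : Type} [Field Ω] [Algebra (ZMod 2) Ω] (x : Multiplicative (ZMod 2)) :
    (uni2 Ω x).1.trace = 0 := by
  rw [Matrix.trace_fin_two]
  change (1 : Ω) + 1 = 0
  linear_combination two_zero Ω

section points

variable {Λ Γ : Type} [Group Λ] [Group Γ] {π : Λ →* Γ} {A : Subgroup Γ} {zm zp s : Γ} {N g : ℕ}
  {Ω : Type} [Field Ω] [Algebra (ZMod 2) Ω] [IsAlgClosed Ω]

/-- POINTS of the group with a prescribed algebraic trace -/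
theorem exists_point (h : HG N A zm zp s) (hN : 2 ≤ N) (Φ : NatBij Λ (SurfG g)) (hg : 1 ≤ g)
    (hF : Fac π) (hA : Group.FG A) {τ : Ω} (hτ : IsAlgebraic (ZMod 2) τ) :
    ∃ r : Γ →* SpecialLinearGroup (Fin 2) Ω, r zm ≠ 1 ∧ (r zm).1.trace = τ := by
  classical
  by_cases h0 : τ = 0
  · subst h0
    obtain ⟨h1, ⟨f, hf⟩, -⟩ := num_two h hN Φ hg hF hA
    obtain ⟨q, hq, -⟩ := h.extQ hN (uni2 Ω) (uni2_inj Ω) f 1 (by
      rw [one_mul, inv_one, mul_one]
      exact h1 f)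
    refine ⟨(uni2 Ω).comp q, ?_, uni2_trace _⟩
    intro h2
    apply hf
    rw [← hq]
    apply uni2_inj Ω
    rw [map_one]
    exact h2
  · obtain ⟨ζ, hζ⟩ : ∃ ζ : Ω, ζ ^ 2 + τ * ζ + 1 = 0 := by
      let q : Polynomial Ω := Polynomial.X ^ 2 + Polynomial.C τ * Polynomial.X + Polynomial.C 1
      have hq : q.degree ≠ 0 := by
        have : q.degree = 2 := by
          simp only [q]
          compute_degree!
        rw [this]
        norm_num
      obtain ⟨ζ, hζ⟩ := IsAlgClosed.exists_root q hq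
      refine ⟨ζ, ?_⟩
      simp only [q, Polynomial.IsRoot.def, Polynomial.eval_add, Polynomial.eval_pow,
        Polynomial.eval_X, Polynomial.eval_mul, Polynomial.eval_C] at hζ
      exact hζ
    have hζ0 : ζ ≠ 0 := by
      rintro rfl
      simp at hζ
    have halg : IsAlgebraic (ZMod 2) ζ := Pool.Agent.FrX.alg_quad hτ isAlgebraic_one hζ
    let κ := IntermediateField.adjoin (ZMod 2) {ζ}
    have hfd : FiniteDimensional (ZMod 2) κ :=
      IntermediateField.adjoin.finiteDimensional halg.isIntegral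
    have hfin : Finite κ := Module.finite_of_finite (ZMod 2)
    let z : κ := ⟨ζ, IntermediateField.mem_adjoin_simple_self (ZMod 2) ζ⟩
    have hz0 : z ≠ 0 := fun h1 => hζ0 (congrArg Subtype.val h1)
    obtain ⟨χ, hχ⟩ := exists_char h hN Φ hF hA κ (Units.mk0 z hz0)
    let r : Γ →* SpecialLinearGroup (Fin 2) Ω :=
      (SpecialLinearGroup.map (algebraMap κ Ω)).comp (dgr χ)
    have hr : (r zm).1.trace = τ := by
      rw [Matrix.trace_fin_two]
      have h1 : (r zm).1 0 0 = ζ := by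
        change algebraMap κ Ω ((χ zm : κˣ) : κ) = ζ
        rw [hχ]
        rfl
      have h2 : (r zm).1 1 1 = ζ⁻¹ := by
        change algebraMap κ Ω (((χ zm)⁻¹ : κˣ) : κ) = ζ⁻¹
        rw [hχ]
        rw [Units.val_inv_eq_inv_val, map_inv₀]
        rfl
      rw [h1, h2]
      have h2 := two_zero Ω
      field_simp
      linear_combination hζ - τ * ζ * h2
    refine ⟨r, ?_, hr⟩
    intro h1
    rw [h1, tr_one] at hr
    exact h0 hr.symm

end points

section chain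

variable {Γ F D : Type} [Group Γ] [Field F] [Algebra (ZMod 2) F] [CommRing D] [Algebra (ZMod 2) D]
  {ρ : Γ →* SpecialLinearGroup (Fin 2) F} {A : Subgroup Γ} {zm zp s : Γ} {N d₀ : ℕ}
  {y : A →* SpecialLinearGroup (Fin 2) D} {φ : D →ₐ[ZMod 2] F}
  {Ω : Type} [Field Ω] [Algebra (ZMod 2) Ω] [IsAlgClosed Ω] {X : ℕ → Ω}

/-- specialisation of representations -/
theorem tr_map {G W E : Type} [Group G] [CommRing W] [CommRing E] (σ : W →+* E)
    (y : G →* SpecialLinearGroup (Fin 2) W) (a : G) :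
    (((SpecialLinearGroup.map σ).comp y) a).1.trace = σ ((y a).1.trace) := by
  rw [Matrix.trace_fin_two, Matrix.trace_fin_two, map_add]
  rfl

theorem map_eq_one {G W E : Type} [Group G] [CommRing W] [CommRing E] {σ : W →+* E}
    (hσ : Function.Injective σ) (y : G →* SpecialLinearGroup (Fin 2) W) {a : G}
    (h : ((SpecialLinearGroup.map σ).comp y) a = 1) : y a = 1 := by
  apply Subtype.ext
  ext i j
  apply hσ
  have h1 : (((SpecialLinearGroup.map σ).comp y) a).1 i j = σ ((y a).1 i j) := rfl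
  rw [← h1, h]
  change (1 : Matrix (Fin 2) (Fin 2) E) i j = σ ((1 : Matrix (Fin 2) (Fin 2) W) i j)
  rw [Matrix.one_apply, Matrix.one_apply]
  split_ifs
  · exact (map_one σ).symm
  · exact (map_zero σ).symm

/-- CHAINS from an algebraic class to the generic class -/
theorem chain_one (C : Cpt A D y φ (ρ.comp A.subtype)) (P : Pg d₀ ρ) (h : HG N A zm zp s)
    (hN : 2 ≤ N) (hT : Transcendental (ZMod 2) ((ρ zm).1.trace))
    (hne : (y ⟨zm, h.mm⟩).1.trace ≠ (y ⟨zp, h.mp⟩).1.trace)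
    (hX : AlgebraicIndependent (ZMod 2) X) {τ : Ω} (hτ : IsAlgebraic (ZMod 2) τ)
    (r : Γ →* SpecialLinearGroup (Fin 2) Ω) (h0 : r zm ≠ 1) (hr : (r zm).1.trace = τ) :
    ∃ Y : A →* SpecialLinearGroup (Fin 2) Ω, Y ⟨zm, h.mm⟩ ≠ 1 ∧ (Y ⟨zm, h.mm⟩).1.trace = τ ∧
      (Y ⟨zp, h.mp⟩).1.trace = X 0 := by
  have hdom := C.dom
  have hft := C.ft
  have hρ : ρ zm ≠ 1 := by
    intro h1
    apply hT
    rw [h1, tr_one]
    exact isAlgebraic_zero
  have hd := C.le_trdeg P h hρ hne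
  obtain ⟨ψ, hψ⟩ := C.sp P Ω r
  have hψt : ∀ a : A, ψ ((y a).1.trace) = (r a).1.trace := by
    intro a
    rw [Matrix.trace_fin_two, map_add, hψ, hψ, Matrix.trace_fin_two]
  obtain ⟨W, i1, i2, i3, i4, θ, ψ', hθ, h1, h2, h3⟩ := cut 1 D ψ
    (fun _ => Polynomial.aeval (y ⟨zm, h.mm⟩).1.trace (minpoly (ZMod 2) τ)) (fun _ => by
      rw [← Polynomial.aeval_algHom_apply, hψt]
      change Polynomial.aeval ((r zm).1.trace) _ = 0
      rw [hr, minpoly.aeval])
  set yW : A →* SpecialLinearGroup (Fin 2) W := (SpecialLinearGroup.map (θ : D →+* W)).comp y with hyW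
  have hEG : EG yW := EG.map C.gen θ hθ
  have hyt : ∀ a, (yW a).1.trace = θ ((y a).1.trace) := fun a => tr_map _ _ _
  have hψ' : ∀ a i j, ψ' ((yW a).1 i j) = (r a).1 i j := by
    intro a i j
    rw [← hψ]
    exact h1 _
  have hψ't : ∀ a : A, ψ' ((yW a).1.trace) = (r a).1.trace := by
    intro a
    rw [hyt, h1, hψt]
  have hne1 : ∀ a : A, yW a = 1 → r a = 1 := by
    intro a ha
    apply Subtype.ext
    ext i j
    rw [← hψ', ha]
    change ψ' ((1 : Matrix (Fin 2) (Fin 2) W) i j) = (1 : Matrix (Fin 2) (Fin 2) Ω) i j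
    rw [Matrix.one_apply, Matrix.one_apply]
    split_ifs
    · exact map_one ψ'
    · exact map_zero ψ'
  have hu : Polynomial.aeval (yW ⟨zm, h.mm⟩).1.trace (minpoly (ZMod 2) τ) = 0 := by
    rw [hyt, Polynomial.aeval_algHom_apply]
    exact h2 0
  have hmp := minpoly.ne_zero hτ.isIntegral
  have hualg : IsAlgebraic (ZMod 2) (yW ⟨zm, h.mm⟩).1.trace := ⟨_, hmp, hu⟩
  have htp : Transcendental (ZMod 2) (yW ⟨zp, h.mp⟩).1.trace := by
    intro halg
    have h4 : (yW ⟨zm, h.mm⟩).1.trace - (yW ⟨zp, h.mp⟩).1.trace = 0 := by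
      refine eq_zero_of_alg (k := ZMod 2) (ψ' : W →+* Ω) (fun c hc => ?_) (hualg.sub halg) ?_
      · have h5 : ψ' (algebraMap (ZMod 2) W c) = 0 := hc
        rw [AlgHom.commutes] at h5
        exact (map_eq_zero_iff _ (algebraMap (ZMod 2) Ω).injective).1 h5
      · change ψ' _ = 0
        rw [map_sub, hψ't, hψ't, sub_eq_zero]
        exact tr_rel h r
    have h5 := transc_of_eq P h hN hT hX W yW hEG (sub_eq_zero.1 h4) (fun h6 => h0 (hne1 _ h6))
      (fun h6 => h0 (one_rel h r (hne1 _ h6))) (by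
        refine hd.trans (h3.trans (le_of_eq ?_))
        push_cast
        rfl)
    exact h5 hualg
  obtain ⟨σ, hσ, h4, h5⟩ := emb_two hX htp hτ hu
  refine ⟨(SpecialLinearGroup.map (σ : W →+* Ω)).comp yW, ?_, ?_, ?_⟩
  · intro h6
    exact h0 (hne1 _ (map_eq_one hσ yW h6))
  · rw [tr_map]
    exact h5
  · rw [tr_map]
    exact h4

/-- CHAINS from the trivial class -/
theorem chain_triv (C : Cpt A D y φ (ρ.comp A.subtype)) (P : Pg d₀ ρ) (h : HG N A zm zp s)
    (hN : 2 ≤ N) (hT : Transcendental (ZMod 2) ((ρ zm).1.trace))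
    (hne : (y ⟨zm, h.mm⟩).1.trace ≠ (y ⟨zp, h.mp⟩).1.trace)
    (hX : AlgebraicIndependent (ZMod 2) X) :
    ∃ Y : A →* SpecialLinearGroup (Fin 2) Ω, Y ⟨zm, h.mm⟩ = 1 ∧ Y ⟨zp, h.mp⟩ ≠ 1 ∧
      ((Y ⟨zp, h.mp⟩).1.trace = X 0 ∨ (Y ⟨zp, h.mp⟩).1.trace = 0) := by
  have hdom := C.dom
  have hft := C.ft
  have hρ : ρ zm ≠ 1 := by
    intro h1
    apply hT
    rw [h1, tr_one]
    exact isAlgebraic_zero
  have hd := C.le_trdeg P h hρ hne
  obtain ⟨ψ, hψ⟩ := C.sp P Ω (1 : Γ →* SpecialLinearGroup (Fin 2) Ω)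
  have h00 : ∀ a : A, ψ ((y a).1 0 0) = 1 := fun a => by
    rw [hψ]
    exact Matrix.one_apply_eq 0
  have h11 : ∀ a : A, ψ ((y a).1 1 1) = 1 := fun a => by
    rw [hψ]
    exact Matrix.one_apply_eq 1
  have h01 : ∀ a : A, ψ ((y a).1 0 1) = 0 := fun a => by
    rw [hψ]
    exact Matrix.one_apply_ne (show (0 : Fin 2) ≠ 1 by decide)
  have h10 : ∀ a : A, ψ ((y a).1 1 0) = 0 := fun a => by
    rw [hψ]
    exact Matrix.one_apply_ne (show (1 : Fin 2) ≠ 0 by decide)
  obtain ⟨W, i1, i2, i3, i4, θ, ψ', hθ, h1, h2, h3⟩ := cut 3 D ψ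
    ![(y ⟨zm, h.mm⟩).1 0 0 - 1, (y ⟨zm, h.mm⟩).1 0 1, (y ⟨zm, h.mm⟩).1 1 0] (fun i => by
      fin_cases i
      · change ψ ((y ⟨zm, h.mm⟩).1 0 0 - 1) = 0
        rw [map_sub, h00, map_one, sub_self]
      · exact h01 _
      · exact h10 _)
  set yW : A →* SpecialLinearGroup (Fin 2) W := (SpecialLinearGroup.map (θ : D →+* W)).comp y with hyW
  have hEG : EG yW := EG.map C.gen θ hθ
  have hyt : ∀ a, (yW a).1.trace = θ ((y a).1.trace) := fun a => tr_map _ _ _
  have e00 : (yW ⟨zm, h.mm⟩).1 0 0 = 1 := by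
    have h4 : θ ((y ⟨zm, h.mm⟩).1 0 0 - 1) = 0 := h2 0
    rw [map_sub, map_one, sub_eq_zero] at h4
    exact h4
  have e01 : (yW ⟨zm, h.mm⟩).1 0 1 = 0 := h2 1
  have e10 : (yW ⟨zm, h.mm⟩).1 1 0 = 0 := h2 2
  have hm : yW ⟨zm, h.mm⟩ = 1 := by
    have hdet := (yW ⟨zm, h.mm⟩).2
    rw [Matrix.det_fin_two, e00, e01, one_mul, zero_mul, sub_zero] at hdet
    apply Subtype.ext
    ext i j
    fin_cases i <;> fin_cases j
    · exact e00
    · exact e01
    · exact e10
    · exact hdet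
  have hp : yW ⟨zp, h.mp⟩ ≠ 1 := by
    intro hp
    exact transc_of_one P h hN hT hX W yW hEG hm hp (hd.trans (h3.trans (le_of_eq (by norm_num))))
  have hm' : ∀ {E : Type} [Field E] (σ : W →+* E),
      ((SpecialLinearGroup.map σ).comp yW) ⟨zm, h.mm⟩ = 1 := by
    intro E _ σ
    rw [MonoidHom.comp_apply, hm, map_one]
  by_cases htp : Transcendental (ZMod 2) (yW ⟨zp, h.mp⟩).1.trace
  · obtain ⟨σ, hσ, h4⟩ := emb_at hX (W := W) trdeg_lt_aleph0_of_finiteType htp
    refine ⟨(SpecialLinearGroup.map (σ : W →+* Ω)).comp yW, hm' _, fun h5 => hp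
      (map_eq_one hσ yW h5), Or.inl ?_⟩
    rw [tr_map]
    exact h4
  · have halg : IsAlgebraic (ZMod 2) (yW ⟨zp, h.mp⟩).1.trace := by
      rwa [Transcendental, not_not] at htp
    have h4 : (yW ⟨zp, h.mp⟩).1.trace = 0 := by
      refine eq_zero_of_alg (k := ZMod 2) (ψ' : W →+* Ω) (fun c hc => ?_) halg ?_
      · have h5 : ψ' (algebraMap (ZMod 2) W c) = 0 := hc
        rw [AlgHom.commutes] at h5
        exact (map_eq_zero_iff _ (algebraMap (ZMod 2) Ω).injective).1 h5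
      · change ψ' _ = 0
        rw [hyt, h1, Matrix.trace_fin_two, map_add, h00, h11]
        linear_combination two_zero Ω
    obtain ⟨n, hn⟩ := Cardinal.lt_aleph0.1
      (trdeg_lt_aleph0_of_finiteType : Algebra.trdeg (ZMod 2) W < Cardinal.aleph0)
    obtain ⟨σ, hσ, -⟩ := emb_free hX W hn 0
    refine ⟨(SpecialLinearGroup.map (σ : W →+* Ω)).comp yW, hm' _, fun h5 => hp
      (map_eq_one hσ yW h5), Or.inr ?_⟩
    rw [tr_map, h4, map_zero]

/-- the generic loop -/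
theorem chain_loop (P : Pg d₀ ρ) (hT : Transcendental (ZMod 2) ((ρ zm).1.trace))
    (hX : AlgebraicIndependent (ZMod 2) X) :
    ∃ r : Γ →* SpecialLinearGroup (Fin 2) Ω, (r zm).1.trace = X 0 := by
  have hlt : Algebra.trdeg (ZMod 2) (OO 2 ρ) < Cardinal.aleph0 := by
    rw [P.tr]
    exact Cardinal.natCast_lt_aleph0
  have hT' : Transcendental (ZMod 2) (trO ρ zm) := by
    intro halg
    apply hT
    rw [← trO_coe]
    exact halg.algHom (OO 2 ρ).val
  obtain ⟨σ, -, h1⟩ := emb_at hX hlt hT'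
  refine ⟨(SpecialLinearGroup.map (σ : OO 2 ρ →+* Ω)).comp (Pool.Agent.FrTop.rO ρ), ?_⟩
  rw [tr_map, ← h1]
  change σ _ = σ _
  congr 1
  apply Subtype.ext
  rw [trO_coe, Matrix.trace_fin_two, Matrix.trace_fin_two]
  rfl

end chain

end Pool.Agent.SuCH
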