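import Pool.Agent.Lib.MP_305fdd_al.Su.CM.Er
import Pool.Agent.Lib.MP_305fdd_al.Su.CM.Univ
import Pool.Agent.Lib.MP_305fdd_al.Su.Pts.Pack
import Pool.Agent.Lib.MP_305fdd_al.Su.SM.Trd

/-!
# MP_305fdd_al, closed surface groups, class membership, HNN extensions: representations of maximal rank

`er_le`: the entries of a representation of `Λ` have rank at most `6 g - 3`;
`sp_of_er`: every representation over a reduced ring is a specialisation of a representation of rank
`6 g - 3`.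
-/

set_option autoImplicit false
set_option linter.unusedSectionVars false

namespace Pool.Agent.SuCH

open Matrix (SpecialLinearGroup)
open Pool.Agent.FrN Pool.Agent.FrS Pool.Agent.SuCM Pool.Agent.SuSM Pool.Agent.SuCO Pool.Agent.Su
open Pool.Agent.Lib.MP_305fdd_al

variable {F L : Type} [Field F] [Field L] [Algebra (ZMod 2) F] [Algebra (ZMod 2) L]

/-- a homomorphism which preserves the rank is injective -/
theorem inj_of_er {B : Subalgebra (ZMod 2) F} (φ : B →ₐ[ZMod 2] L) {D : ℕ}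
    (hB : er (B : Set F) ≤ D) (hφ : (D : ℕ∞) ≤ er (Set.range φ)) : Function.Injective φ := by
  obtain ⟨I, hI, hind, hc⟩ := le_er_iff.1 hφ
  have h1 : ∀ y : I, ∃ x : B, φ x = y := fun y => hI y.2
  choose x hx using h1
  have hφx : AlgebraicIndependent (ZMod 2) (φ ∘ x) := by
    have h3 : (φ ∘ x) = fun y : I => (y : L) := by
      funext y
      exact hx y
    rw [h3]
    exact hind
  have hxi : AlgebraicIndependent (ZMod 2) x := AlgebraicIndependent.of_comp φ hφx
  rw [injective_iff_map_eq_zero]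
  intro b hb
  by_contra hb0
  have halg : IsAlgebraic (Algebra.adjoin (ZMod 2) (Set.range x)) b := by
    by_contra htr
    have h2 := (hxi.option_iff_transcendental b).2 htr
    have h4 : AlgebraicIndependent (ZMod 2) (B.val ∘ fun o : Option I => o.elim b x) :=
      h2.map' (f := B.val) Subtype.val_injective
    have h5 : AlgebraicIndepOn (ZMod 2) id (Set.range (B.val ∘ fun o : Option I => o.elim b x)) :=
      h4.coe_range
    have h6 : (Set.range (B.val ∘ fun o : Option I => o.elim b x)).encard = D + 1 := by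
      rw [← Set.image_univ, h4.injective.encard_image, Set.encard_univ,
        ENat.card_congr (Equiv.optionEquivSumPUnit.{0} I), ENat.card_sum, ← hc]
      congr 1
      simp
    have h7 : ((D : ℕ∞) + 1) ≤ er (B : Set F) :=
      le_er_iff.2 ⟨_, by rintro _ ⟨o, rfl⟩; exact Subtype.prop _, h5, h6⟩
    have h8 : ((D + 1 : ℕ) : ℕ∞) ≤ (D : ℕ) := by
      push_cast
      exact h7.trans hB
    have h9 : D + 1 ≤ D := by exact_mod_cast h8
    omega
  have hdom : IsDomain B := inferInstanceAs (IsDomain B.toSubring)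
  obtain ⟨t, -, r, hr, e⟩ := halg.exists_nonzero_eq_adjoin_mul (mem_nonZeroDivisors_of_ne_zero hb0)
  have h2 : φ (r : B) = 0 := by
    have h3 : (r : B) = b * t := e.symm
    rw [h3, map_mul, hb, zero_mul]
  obtain ⟨r, hr'⟩ := r
  rw [Algebra.adjoin_range_eq_range_aeval] at hr'
  obtain ⟨P, rfl⟩ := hr'
  have h3 : MvPolynomial.aeval (φ ∘ x) P = 0 := by
    rw [← h2]
    exact (MvPolynomial.comp_aeval_apply x φ P).symm
  have h4 := (algebraicIndependent_iff.1 hφx) P h3
  apply hr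
  apply Subtype.ext
  change MvPolynomial.aeval x P = 0
  rw [h4, map_zero]

variable {Λ : Type} [Group Λ] [Group.FG Λ] {g : ℕ}

/-- the set of the entries -/
theorem OO_eq_adjoin (ρ : Λ →* SpecialLinearGroup (Fin 2) F) :
    OO 2 ρ = Algebra.adjoin (ZMod 2) (En ρ Set.univ) := by
  unfold OO
  congr 1
  ext x
  constructor
  · rintro ⟨y, i, j, rfl⟩
    exact ⟨y, Set.mem_univ y, i, j, rfl⟩
  · rintro ⟨y, -, i, j, rfl⟩
    exact ⟨y, i, j, rfl⟩

theorem er_OO (ρ : Λ →* SpecialLinearGroup (Fin 2) F) :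
    er (OO 2 ρ : Set F) = er (En ρ Set.univ) := by
  rw [OO_eq_adjoin, er_adjoin]

/-- the image of a specialisation -/
theorem range_spec (ρ : Λ →* SpecialLinearGroup (Fin 2) F) (R : Λ →* SpecialLinearGroup (Fin 2) L)
    (φ : OO 2 ρ →ₐ[ZMod 2] L)
    (hφ : ∀ x i j, φ ⟨(ρ x).1 i j, mem_OO ρ x i j⟩ = (R x).1 i j) : φ.range = OO 2 R := by
  apply le_antisymm
  · rintro _ ⟨y, rfl⟩
    have hy : y ∈ Algebra.adjoin (ZMod 2) {x : OO 2 ρ | ∃ h i j, x = (rO ρ h).1 i j} := by
      rw [adjoin_rO]; trivial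
    change φ y ∈ OO 2 R
    induction hy using Algebra.adjoin_induction with
    | mem x hx =>
      obtain ⟨h, a, b, rfl⟩ := hx
      have h1 : φ ((rO ρ h).1 a b) = (R h).1 a b := hφ h a b
      rw [h1]
      exact mem_OO R h a b
    | algebraMap c =>
      rw [AlgHom.commutes]
      exact Subalgebra.algebraMap_mem _ c
    | add x x' _ _ h1 h2 => rw [map_add]; exact Subalgebra.add_mem _ h1 h2
    | mul x x' _ _ h1 h2 => rw [map_mul]; exact Subalgebra.mul_mem _ h1 h2
  · refine Algebra.adjoin_le ?_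
    rintro _ ⟨h, i, j, rfl⟩
    exact ⟨_, hφ h i j⟩

/-- THE UPPER BOUND of the rank -/
theorem er_le (hg : 2 ≤ g) (Φ : NatBij Λ (SurfaceGroup g)) (R : Λ →* SpecialLinearGroup (Fin 2) L) :
    er (OO 2 R : Set L) ≤ (6 * g - 3 : ℕ) := by
  obtain ⟨F, _, _, ρ, hgn, hf⟩ := exists_gn (zz_prime Φ hg)
  obtain ⟨φ, hφ⟩ := SuPts.Gn_sp_red hg Φ hgn L R
  have h1 := range_spec ρ R φ hφ
  have h2 : (OO 2 R : Set L) = φ '' Set.univ := by
    rw [← h1, Set.image_univ]
    rfl
  rw [h2]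
  refine (er_spec φ Set.univ).trans ((er_mono (Set.subset_univ _)).trans ?_)
  exact le_of_eq (SuCM.er_univ (trdeg_eq Φ hg hgn hf))

/-- representations of maximal rank are generic -/
theorem sp_of_er (hg : 2 ≤ g) (Φ : NatBij Λ (SurfaceGroup g)) (R : Λ →* SpecialLinearGroup (Fin 2) L)
    (hR : ((6 * g - 3 : ℕ) : ℕ∞) ≤ er (OO 2 R : Set L)) (S : Type) [CommRing S] [IsReduced S]
    [Algebra (ZMod 2) S] (r : Λ →* SpecialLinearGroup (Fin 2) S) :
    ∃ φ : OO 2 R →ₐ[ZMod 2] S, ∀ x i j, φ ⟨(R x).1 i j, mem_OO R x i j⟩ = (r x).1 i j := by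
  obtain ⟨F, _, _, ρ, hgn, hf⟩ := exists_gn (zz_prime Φ hg)
  obtain ⟨φ, hφ⟩ := SuPts.Gn_sp_red hg Φ hgn L R
  have h1 := range_spec ρ R φ hφ
  have h2 : (OO 2 R : Set L) = Set.range φ := by
    rw [← h1]
    rfl
  have h3 : Function.Injective φ := inj_of_er φ ((er_mono (Set.subset_univ _)).trans
    (le_of_eq (SuCM.er_univ (trdeg_eq Φ hg hgn hf)))) (by rw [← h2]; exact hR)
  obtain ⟨ψ, hψ⟩ := SuPts.Gn_sp_red hg Φ hgn S r
  let e : OO 2 ρ ≃ₐ[ZMod 2] OO 2 R := (AlgEquiv.ofInjective φ h3).trans (Subalgebra.equivOfEq _ _ h1)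
  refine ⟨ψ.comp e.symm.toAlgHom, fun x i j => ?_⟩
  have h4 : e ⟨(ρ x).1 i j, mem_OO ρ x i j⟩ = ⟨(R x).1 i j, mem_OO R x i j⟩ :=
    Subtype.ext (hφ x i j)
  change ψ (e.symm _) = _
  rw [← h4, AlgEquiv.symm_apply_apply]
  exact hψ x i j

end Pool.Agent.SuCH
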