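import Pool.Agent.Lib.MP_305fdd_al.Su.CH.Ub
import Pool.Agent.Lib.MP_305fdd_al.Su.CH.Spz
import Pool.Agent.Lib.MP_305fdd_al.Su.SM.Rk

/-!
# MP_305fdd_al, closed surface groups, class membership, HNN extensions: the representation of a circle

`cir`: the restriction of a representation `Θ` with values in the wreath product to the kernel of the
shift, coordinate zero.  `er_cir`: the rank of its entries, for the representation of a circle.
-/

set_option autoImplicit false
set_option linter.unusedSectionVars false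

namespace Pool.Agent.SuCH

open Matrix (SpecialLinearGroup)
open Pool.Agent.FrN Pool.Agent.FrS Pool.Agent.SuCM Pool.Agent.SuTk

section ent

variable {F : Type} [Field F] [Algebra (ZMod 2) F]

/-- the rank of the entries of a matrix -/
theorem er_ent (M : SpecialLinearGroup (Fin 2) F) : er {x : F | ∃ p q, x = M.1 p q} ≤ 3 := by
  have key : ∀ a b c : F, er ({a, b, c} : Set F) ≤ 3 := by
    intro a b c
    refine (Matroid.eRk_le_encard _ _).trans ?_
    refine (Set.encard_insert_le _ _).trans ?_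
    have h3 : ({b, c} : Set F).encard ≤ 2 := by
      refine (Set.encard_insert_le _ _).trans ?_
      rw [Set.encard_singleton]
      norm_num
    calc ({b, c} : Set F).encard + 1 ≤ 2 + 1 := by gcongr
      _ = 3 := by norm_num
  have hdet : M.1 0 0 * M.1 1 1 - M.1 0 1 * M.1 1 0 = 1 := by
    have := M.2
    rwa [Matrix.det_fin_two] at this
  by_cases h : M.1 0 0 = 0
  · refine le_trans (er_le_of_alg ?_) (key (M.1 0 1) (M.1 1 0) (M.1 1 1))
    rintro _ ⟨p, q, rfl⟩
    fin_cases p <;> fin_cases q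
    · change IsAlgebraic _ (M.1 0 0)
      rw [h]
      exact isAlgebraic_zero
    · exact alg_mem (by simp)
    · exact alg_mem (by simp)
    · exact alg_mem (by simp)
  · refine le_trans (er_le_of_alg ?_) (key (M.1 0 0) (M.1 0 1) (M.1 1 0))
    have h0 : IsAlgebraic (Algebra.adjoin (ZMod 2) {M.1 0 0, M.1 0 1, M.1 1 0}) (M.1 0 0) :=
      alg_mem (by simp)
    have h1 : IsAlgebraic (Algebra.adjoin (ZMod 2) {M.1 0 0, M.1 0 1, M.1 1 0}) (M.1 0 1) :=
      alg_mem (by simp)
    have h2 : IsAlgebraic (Algebra.adjoin (ZMod 2) {M.1 0 0, M.1 0 1, M.1 1 0}) (M.1 1 0) :=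
      alg_mem (by simp)
    rintro _ ⟨p, q, rfl⟩
    fin_cases p <;> fin_cases q
    · exact h0
    · exact h1
    · exact h2
    · have h3 : M.1 1 1 = (1 + M.1 0 1 * M.1 1 0) * (M.1 0 0)⁻¹ := by
        rw [eq_mul_inv_iff_mul_eq₀ h]
        linear_combination hdet
      change IsAlgebraic _ (M.1 1 1)
      rw [h3]
      exact ((isAlgebraic_one).add (h1.mul h2)).mul h0.inv

/-- the rank of the entries of a finite sequence of matrices -/
theorem er_seq (u : ℕ → SpecialLinearGroup (Fin 2) F) (m : ℕ) :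
    er {x : F | ∃ i, i < m ∧ ∃ p q, x = (u i).1 p q} ≤ (3 * m : ℕ) := by
  induction m with
  | zero =>
    have h1 : {x : F | ∃ i, i < 0 ∧ ∃ p q, x = (u i).1 p q} = ∅ := by
      ext x
      simp
    rw [h1]
    simp [er]
  | succ m ih =>
    have h1 : {x : F | ∃ i, i < m + 1 ∧ ∃ p q, x = (u i).1 p q} ⊆
        {x : F | ∃ i, i < m ∧ ∃ p q, x = (u i).1 p q} ∪ {x : F | ∃ p q, x = (u m).1 p q} := by
      rintro x ⟨i, hi, h⟩
      rcases Nat.lt_succ_iff_lt_or_eq.1 hi with hi | rfl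
      · exact Or.inl ⟨i, hi, h⟩
      · exact Or.inr h
    refine (er_mono h1).trans ((er_union_le _ _).trans ?_)
    refine (add_le_add ih (er_ent _)).trans (le_of_eq ?_)
    push_cast
    ring

end ent

section cir

variable {Γ H : Type} [Group Γ] [Group H] {n : ℕ}

/-- the coordinate zero on the kernel of the shift -/
def cir (Θ : Γ →* Wr n H) (φ : Γ →* Multiplicative (ZMod n))
    (hφ : ∀ x, φ x = Multiplicative.ofAdd (Θ x).k) : φ.ker →* H where
  toFun x := (Θ x.1).f 0
  map_one' := by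
    rw [Subgroup.coe_one, map_one]
    rfl
  map_mul' x y := by
    have h1 : (Θ x.1).k = 0 := by
      have h2 := hφ x.1
      rw [MonoidHom.mem_ker.1 x.2] at h2
      exact (Multiplicative.ofAdd.injective h2).symm
    rw [Subgroup.coe_mul, map_mul, Wr.mul_f, h1, add_zero]

theorem cir_apply (Θ : Γ →* Wr n H) (φ : Γ →* Multiplicative (ZMod n))
    (hφ : ∀ x, φ x = Multiplicative.ofAdd (Θ x).k) (x : φ.ker) : cir Θ φ hφ x = (Θ x.1).f 0 := rfl

variable {F : Type} [Field F] [Algebra (ZMod 2) F]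

/-- THE RANK of the representation of a circle -/
theorem er_cir [NeZero n] {A : Subgroup Γ} {s : Γ} (Θ : Γ →* Wr n (SpecialLinearGroup (Fin 2) F))
    (φ : Γ →* Multiplicative (ZMod n)) (hφ : ∀ x, φ x = Multiplicative.ofAdd (Θ x).k)
    (y : ZMod n → (A →* SpecialLinearGroup (Fin 2) F)) (T : ZMod n → SpecialLinearGroup (Fin 2) F)
    (hA : ∀ x : A, Θ x = Wr.inB n _ fun i => y i x) (hs : Θ s = ⟨T, 1⟩) :
    er ({x : F | ∃ i, ∃ a : A, ∃ p q, x = (y i a).1 p q} ∪
      {x : F | ∃ i, ∃ p q, x = (T i).1 p q}) ≤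
      er (En (cir Θ φ hφ) Set.univ) + (3 * (n - 1) : ℕ) := by
  set u : ℕ → SpecialLinearGroup (Fin 2) F := fun i => (Θ (s ^ i)).f 0 with hu
  set B := Algebra.adjoin (ZMod 2) (En (cir Θ φ hφ) Set.univ ∪
    {x : F | ∃ i, i < n - 1 ∧ ∃ p q, x = (u (i + 1)).1 p q}) with hB
  have hk : ∀ i : ℕ, (Θ (s ^ i)).k = (i : ZMod n) := by
    intro i
    induction i with
    | zero => simp
    | succ i ih =>
      rw [pow_succ, map_mul, Wr.mul_k, ih, hs]
      push_cast
      rfl
  have hR : ∀ x : φ.ker, cir Θ φ hφ x ∈ entG (MonoidHom.id _) B := fun x i j =>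
    Algebra.subset_adjoin (Or.inl ⟨x, Set.mem_univ _, i, j, rfl⟩)
  have hun : ∀ i : ℕ, i ≤ n → u i ∈ entG (MonoidHom.id _) B := by
    intro i hi
    rcases Nat.eq_zero_or_pos i with rfl | hi0
    · have : u 0 = 1 := by
        simp [hu]
      rw [this]
      exact one_mem _
    · rcases Nat.lt_or_ge (i - 1) (n - 1) with h1 | h1
      · intro p q
        refine Algebra.subset_adjoin (Or.inr ⟨i - 1, h1, p, q, ?_⟩)
        rw [Nat.sub_add_cancel hi0]
        rfl
      · have h2 : i = n := by omega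
        have h3 : s ^ i ∈ φ.ker := by
          rw [MonoidHom.mem_ker, hφ, hk, h2, ZMod.natCast_self]
          rfl
        exact hR ⟨s ^ i, h3⟩
  have hT : ∀ i : ℕ, i < n → T (i : ZMod n) ∈ entG (MonoidHom.id _) B := by
    intro i hi
    have h1 : u (i + 1) = u i * T (i : ZMod n) := by
      change (Θ (s ^ (i + 1))).f 0 = (Θ (s ^ i)).f 0 * T (i : ZMod n)
      rw [pow_succ, map_mul, Wr.mul_f, hk, zero_add, hs]
    have h2 : T (i : ZMod n) = (u i)⁻¹ * u (i + 1) := by
      rw [h1, inv_mul_cancel_left]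
    rw [h2]
    exact mul_mem (inv_mem (hun i hi.le)) (hun (i + 1) hi)
  have hY : ∀ i : ℕ, i < n → ∀ a : A, y (i : ZMod n) a ∈ entG (MonoidHom.id _) B := by
    intro i hi a
    have h1 : s ^ i * a * (s ^ i)⁻¹ ∈ φ.ker := by
      have h2 : φ a = 1 := by
        rw [hφ, hA]
        rfl
      rw [MonoidHom.mem_ker, map_mul, map_mul, h2, map_inv, mul_one, mul_inv_cancel]
    have h2 : cir Θ φ hφ ⟨_, h1⟩ = u i * y (i : ZMod n) a * (u i)⁻¹ := by
      rw [cir_apply]
      change (Θ (s ^ i * a * (s ^ i)⁻¹)).f 0 = (Θ (s ^ i)).f 0 * y (i : ZMod n) a *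
        ((Θ (s ^ i)).f 0)⁻¹
      rw [map_mul, map_mul, map_inv, Wr.mul_f, Wr.mul_f, Wr.inv_f, Wr.mul_k, hk, hA, Wr.inB_k,
        add_zero, zero_add, sub_self, Wr.inB_f]
    have h3 : y (i : ZMod n) a = (u i)⁻¹ * cir Θ φ hφ ⟨_, h1⟩ * u i := by
      rw [h2]
      group
    rw [h3]
    exact mul_mem (mul_mem (inv_mem (hun i hi.le)) (hR _)) (hun i hi.le)
  have hc : ∀ i : ZMod n, ∃ m : ℕ, m < n ∧ (m : ZMod n) = i := fun i =>
    ⟨i.val, i.val_lt, ZMod.natCast_zmod_val i⟩
  have h1 : ({x : F | ∃ i, ∃ a : A, ∃ p q, x = (y i a).1 p q} ∪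
      {x : F | ∃ i, ∃ p q, x = (T i).1 p q}) ⊆ (B : Set F) := by
    rintro x (⟨i, a, p, q, rfl⟩ | ⟨i, p, q, rfl⟩)
    · obtain ⟨m, hm, rfl⟩ := hc i
      exact hY m hm a p q
    · obtain ⟨m, hm, rfl⟩ := hc i
      exact hT m hm p q
  refine (er_mono h1).trans ?_
  rw [hB, er_adjoin]
  refine (er_union_le _ _).trans (add_le_add le_rfl ?_)
  exact er_seq (fun i => u (i + 1)) (n - 1)

end cir

end Pool.Agent.SuCH
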