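import Pool.Agent.Lib.MP_305fdd_al.Su.CH.Emb
import Pool.Agent.Lib.MP_305fdd_al.Fr.X.Core

/-!
# MP_305fdd_al, surface groups, block CM-HNN: conjugacy and centralisers in `SL(2, Ω)`
-/

set_option autoImplicit false
set_option linter.unusedSectionVars false
set_option linter.unusedVariables false

namespace Pool.Agent.SuCH

open Matrix

section cl

variable {E : Type} [Field E] [Algebra (ZMod 2) E]

/-- the relative algebraic closure of a set -/
def cl (S : Set E) : Subfield E where
  carrier := {x | IsAlgebraic (Algebra.adjoin (ZMod 2) S) x}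
  mul_mem' {a b} ha hb := IsAlgebraic.mul ha hb
  one_mem' := isAlgebraic_one
  add_mem' {a b} ha hb := IsAlgebraic.add ha hb
  zero_mem' := isAlgebraic_zero
  neg_mem' {a} ha := IsAlgebraic.neg ha
  inv_mem' a ha := IsAlgebraic.inv ha

theorem mem_cl {S : Set E} {x : E} : x ∈ cl S ↔ IsAlgebraic (Algebra.adjoin (ZMod 2) S) x := Iff.rfl

theorem subset_cl (S : Set E) : S ⊆ cl S := fun _ hx => alg_of_mem (Algebra.subset_adjoin hx)

theorem rk_le_of_cl {S T : Set E} (h : T ⊆ cl S) : rk (ZMod 2) T ≤ rk (ZMod 2) S :=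
  rk_le_of_alg h

theorem sqrt_mem_cl {S : Set E} {x : E} (h : x ^ 2 ∈ cl S) : x ∈ cl S := by
  rw [mem_cl] at h ⊢
  refine Pool.Agent.FrX.alg_quad (b := 0) (c := -x ^ 2) isAlgebraic_zero ?_ (by ring)
  exact h.neg

theorem cl_le_of_subset {S T : Set E} (h : S ⊆ cl T) : (cl S : Set E) ⊆ cl T := by
  intro x hx
  change x ∈ cl S at hx
  rw [mem_cl] at hx
  have h1 : x ∈ (AlgebraicIndependent.matroid (ZMod 2) E).closure S := by
    rw [AlgebraicIndependent.matroid_closure_eq]
    exact hx
  have h2 : (AlgebraicIndependent.matroid (ZMod 2) E).closure S ⊆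
      (AlgebraicIndependent.matroid (ZMod 2) E).closure T := by
    have h3 : S ⊆ (AlgebraicIndependent.matroid (ZMod 2) E).closure T := by
      rw [AlgebraicIndependent.matroid_closure_eq]
      exact h
    have h4 := (AlgebraicIndependent.matroid (ZMod 2) E).closure_subset_closure h3
    rwa [Matroid.closure_closure] at h4
  have h3 := h2 h1
  rw [AlgebraicIndependent.matroid_closure_eq] at h3
  exact h3

theorem char_two (E : Type) [Field E] [Algebra (ZMod 2) E] : CharP E 2 :=
  charP_of_injective_algebraMap (algebraMap (ZMod 2) E).injective 2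

theorem two_zero (E : Type) [Field E] [Algebra (ZMod 2) E] : (2 : E) = 0 := by
  have := char_two E
  exact_mod_cast CharP.cast_eq_zero E 2

/-- the entries of a matrix -/
def ents (M : SpecialLinearGroup (Fin 2) E) : Set E := {x | ∃ i j, x = M.1 i j}

/-- the matrix has its entries in the field -/
def In (L : Subfield E) (M : SpecialLinearGroup (Fin 2) E) : Prop := ∀ i j, M.1 i j ∈ L

theorem In.mul {L : Subfield E} {M N : SpecialLinearGroup (Fin 2) E} (h : In L M) (h' : In L N) :
    In L (M * N) := by
  intro i j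
  change (M.1 * N.1) i j ∈ L
  rw [Matrix.mul_apply, Fin.sum_univ_two]
  exact add_mem (mul_mem (h i 0) (h' 0 j)) (mul_mem (h i 1) (h' 1 j))

theorem In.inv {L : Subfield E} {M : SpecialLinearGroup (Fin 2) E} (h : In L M) : In L M⁻¹ := by
  intro i j
  have h3 : (M⁻¹).1 = M.1.adjugate := rfl
  rw [h3, Matrix.adjugate_fin_two]
  fin_cases i <;> fin_cases j
  · exact h 1 1
  · exact neg_mem (h 0 1)
  · exact neg_mem (h 1 0)
  · exact h 0 0

theorem In.one {L : Subfield E} : In L (1 : SpecialLinearGroup (Fin 2) E) := by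
  intro i j
  change (1 : Matrix (Fin 2) (Fin 2) E) i j ∈ L
  rw [Matrix.one_apply]
  split_ifs
  · exact one_mem L
  · exact zero_mem L

theorem In.mono {L L' : Subfield E} (hL : (L : Set E) ⊆ L') {M : SpecialLinearGroup (Fin 2) E}
    (h : In L M) : In L' M := fun i j => hL (h i j)

theorem In.trace {L : Subfield E} {M : SpecialLinearGroup (Fin 2) E} (h : In L M) :
    M.1.trace ∈ L := by
  rw [Matrix.trace_fin_two]
  exact add_mem (h 0 0) (h 1 1)

/-- a cyclic vector -/
theorem exists_cyc {L : Subfield E} {M : SpecialLinearGroup (Fin 2) E} (hM : M ≠ 1)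
    (h : In L M) : ∃ P : Matrix (Fin 2) (Fin 2) E, P.det ≠ 0 ∧ (∀ i j, P i j ∈ L) ∧
      M.1 * P = P * !![0, 1; 1, M.1.trace] := by
  have hdet := M.2
  have h2 := two_zero E
  rw [Matrix.det_fin_two] at hdet
  by_cases h10 : M.1 1 0 = 0
  · by_cases h01 : M.1 0 1 = 0
    · refine ⟨!![1, M.1 0 0; 1, M.1 1 1], ?_, ?_, ?_⟩
      · rw [Matrix.det_fin_two_of]
        intro h0
        apply hM
        have h1 : M.1 1 1 = M.1 0 0 := by linear_combination h0
        rw [h10, mul_zero, sub_zero, h1] at hdet
        have h3 : M.1 0 0 = 1 := by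
          have h4 : (M.1 0 0 - 1) ^ 2 = 0 := by linear_combination hdet - (M.1 0 0 - 1) * h2
          exact sub_eq_zero.1 (pow_eq_zero_iff two_ne_zero |>.1 h4)
        apply Subtype.ext
        ext i j
        fin_cases i <;> fin_cases j
        · exact h3
        · exact h01
        · exact h10
        · exact h1.trans h3
      · intro i j
        fin_cases i <;> fin_cases j
        · exact one_mem L
        · exact h 0 0
        · exact one_mem L
        · exact h 1 1
      · rw [Matrix.trace_fin_two]
        ext i j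
        rw [Matrix.mul_apply, Matrix.mul_apply, Fin.sum_univ_two, Fin.sum_univ_two]
        fin_cases i <;> fin_cases j
        · simp [h01]
        · simp [h01]
          linear_combination -hdet - (M.1 0 1) * h10 - h2
        · simp [h10]
        · simp [h10]
          linear_combination -hdet - (M.1 0 1) * h10 - h2
    · refine ⟨!![0, M.1 0 1; 1, M.1 1 1], ?_, ?_, ?_⟩
      · rw [Matrix.det_fin_two_of]
        simpa using h01
      · intro i j
        fin_cases i <;> fin_cases j
        · exact zero_mem L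
        · exact h 0 1
        · exact one_mem L
        · exact h 1 1
      · rw [Matrix.trace_fin_two]
        ext i j
        rw [Matrix.mul_apply, Matrix.mul_apply, Fin.sum_univ_two, Fin.sum_univ_two]
        fin_cases i <;> fin_cases j
        · simp
        · simp
          ring
        · simp
        · simp
          linear_combination -hdet - h2
  · refine ⟨!![1, M.1 0 0; 0, M.1 1 0], ?_, ?_, ?_⟩
    · rw [Matrix.det_fin_two_of]
      simpa using h10
    · intro i j
      fin_cases i <;> fin_cases j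
      · exact one_mem L
      · exact h 0 0
      · exact zero_mem L
      · exact h 1 0
    · rw [Matrix.trace_fin_two]
      ext i j
      rw [Matrix.mul_apply, Matrix.mul_apply, Fin.sum_univ_two, Fin.sum_univ_two]
      fin_cases i <;> fin_cases j
      · simp
      · simp
        linear_combination -hdet - h2
      · simp
      · simp
        ring

/-- matrices with the same trace are conjugate -/
theorem exists_conj [IsAlgClosed E] (L : Subfield E) (hL : ∀ x, x ^ 2 ∈ L → x ∈ L)
    {M M' : SpecialLinearGroup (Fin 2) E} (hM : M ≠ 1) (hM' : M' ≠ 1)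
    (htr : M.1.trace = M'.1.trace) (h : In L M) (h' : In L M') :
    ∃ t, In L t ∧ t * M * t⁻¹ = M' := by
  obtain ⟨P, hP0, hPL, hP⟩ := exists_cyc hM h
  obtain ⟨P', hP0', hPL', hP'⟩ := exists_cyc hM' h'
  obtain ⟨l, hl⟩ := IsAlgClosed.exists_pow_nat_eq (P.det / P'.det) (n := 2) (by norm_num)
  have hdL : P.det ∈ L := by
    rw [Matrix.det_fin_two]
    exact sub_mem (mul_mem (hPL 0 0) (hPL 1 1)) (mul_mem (hPL 0 1) (hPL 1 0))
  have hdL' : P'.det ∈ L := by
    rw [Matrix.det_fin_two]
    exact sub_mem (mul_mem (hPL' 0 0) (hPL' 1 1)) (mul_mem (hPL' 0 1) (hPL' 1 0))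
  have hlL : l ∈ L := hL l (by rw [hl]; exact div_mem hdL hdL')
  have hl0 : l ≠ 0 := by
    rintro rfl
    rw [zero_pow two_ne_zero] at hl
    exact (div_ne_zero hP0 hP0') hl.symm
  let T : Matrix (Fin 2) (Fin 2) E := (l / P.det) • (P' * P.adjugate)
  have hTL : ∀ i j, T i j ∈ L := by
    intro i j
    change (l / P.det) * (P' * P.adjugate) i j ∈ L
    refine mul_mem (div_mem hlL hdL) ?_
    rw [Matrix.mul_apply, Fin.sum_univ_two, Matrix.adjugate_fin_two]
    refine add_mem (mul_mem (hPL' i 0) ?_) (mul_mem (hPL' i 1) ?_)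
    · fin_cases j
      · exact hPL 1 1
      · exact neg_mem (hPL 0 1)
    · fin_cases j
      · exact neg_mem (hPL 1 0)
      · exact hPL 0 0
  have hTd : T.det = 1 := by
    change ((l / P.det) • (P' * P.adjugate)).det = 1
    rw [Matrix.det_smul, Matrix.det_mul, Matrix.det_adjugate, Fintype.card_fin, div_pow, hl]
    field_simp
    rw [pow_one]
  have hTM : T * M.1 = M'.1 * T := by
    have h1 : P.adjugate * M.1 = !![0, 1; 1, M.1.trace] * P.adjugate := by
      have h2 : P.adjugate * (M.1 * P) * P.adjugate =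
          P.adjugate * (P * !![0, 1; 1, M.1.trace]) * P.adjugate := by rw [hP]
      have h3 : P * P.adjugate = P.det • (1 : Matrix (Fin 2) (Fin 2) E) := Matrix.mul_adjugate P
      have h4 : P.adjugate * P = P.det • (1 : Matrix (Fin 2) (Fin 2) E) := Matrix.adjugate_mul P
      rw [← mul_assoc, mul_assoc _ P P.adjugate, h3, ← mul_assoc P.adjugate P, h4] at h2
      simp only [Matrix.mul_smul, Matrix.smul_mul, mul_one, one_mul] at h2
      exact smul_right_injective _ hP0 h2
    change (l / P.det) • (P' * P.adjugate) * M.1 = M'.1 * ((l / P.det) • (P' * P.adjugate))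
    rw [Matrix.smul_mul, Matrix.mul_smul, mul_assoc, h1, htr, ← mul_assoc, ← hP', mul_assoc]
  let t : SpecialLinearGroup (Fin 2) E := ⟨T, hTd⟩
  have ht : t * M = M' * t := Subtype.ext hTM
  refine ⟨t, hTL, ?_⟩
  rw [ht, mul_inv_cancel_right]

/-- elements of the centraliser with a prescribed parameter -/
theorem exists_cent [IsAlgClosed E] {Y : SpecialLinearGroup (Fin 2) E} (hY : Y ≠ 1) (β : E) :
    ∃ c : SpecialLinearGroup (Fin 2) E, c * Y = Y * c ∧
      ∀ L : Subfield E, In L Y → In L c → β ∈ L := by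
  have h2 := two_zero E
  obtain ⟨α, hα⟩ : ∃ α : E, α ^ 2 + α * β * Y.1.trace + β ^ 2 = 1 := by
    let q : Polynomial E := Polynomial.X ^ 2 + Polynomial.C (β * Y.1.trace) * Polynomial.X +
      Polynomial.C (β ^ 2 - 1)
    have hq : q.degree ≠ 0 := by
      have : q.degree = 2 := by
        simp only [q]
        compute_degree!
      rw [this]
      norm_num
    obtain ⟨α, hα⟩ := IsAlgClosed.exists_root q hq
    refine ⟨α, ?_⟩
    simp only [q, Polynomial.IsRoot.def, Polynomial.eval_add, Polynomial.eval_pow,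
      Polynomial.eval_X, Polynomial.eval_mul, Polynomial.eval_C] at hα
    linear_combination hα
  have hdet : (α • (1 : Matrix (Fin 2) (Fin 2) E) + β • Y.1).det = 1 := by
    have hd := Y.2
    rw [Matrix.det_fin_two] at hd ⊢
    rw [Matrix.trace_fin_two] at hα
    simp only [Matrix.add_apply, Matrix.smul_apply, smul_eq_mul, Matrix.one_apply_eq, mul_one,
      Matrix.one_apply_ne (show (0 : Fin 2) ≠ 1 by decide),
      Matrix.one_apply_ne (show (1 : Fin 2) ≠ 0 by decide), mul_zero, zero_add]
    linear_combination hα + β ^ 2 * hd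
  refine ⟨⟨α • (1 : Matrix (Fin 2) (Fin 2) E) + β • Y.1, hdet⟩, ?_, ?_⟩
  · apply Subtype.ext
    change (α • (1 : Matrix (Fin 2) (Fin 2) E) + β • Y.1) * Y.1 =
      Y.1 * (α • (1 : Matrix (Fin 2) (Fin 2) E) + β • Y.1)
    rw [add_mul, mul_add]
    simp
  · intro L hL hc
    have hc' : ∀ i j, α * (1 : Matrix (Fin 2) (Fin 2) E) i j + β * Y.1 i j ∈ L := hc
    have h01 := hc' 0 1
    have h10 := hc' 1 0
    rw [Matrix.one_apply_ne (show (0 : Fin 2) ≠ 1 by decide), mul_zero, zero_add] at h01
    rw [Matrix.one_apply_ne (show (1 : Fin 2) ≠ 0 by decide), mul_zero, zero_add] at h10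
    have h00 := hc' 0 0
    have h11 := hc' 1 1
    rw [Matrix.one_apply_eq, mul_one] at h00 h11
    by_cases h1 : Y.1 0 1 = 0
    · by_cases h3 : Y.1 1 0 = 0
      · by_cases h4 : Y.1 0 0 = Y.1 1 1
        · exfalso
          apply hY
          have hd := Y.2
          rw [Matrix.det_fin_two, h1, zero_mul, sub_zero, ← h4] at hd
          have h5 : Y.1 0 0 = 1 := by
            have h6 : (Y.1 0 0 - 1) ^ 2 = 0 := by linear_combination hd - (Y.1 0 0 - 1) * h2
            exact sub_eq_zero.1 (pow_eq_zero_iff two_ne_zero |>.1 h6)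
          apply Subtype.ext
          ext i j
          fin_cases i <;> fin_cases j
          · exact h5
          · exact h1
          · exact h3
          · exact h4.symm.trans h5
        · have h5 := sub_mem h00 h11
          have h6 : Y.1 0 0 - Y.1 1 1 ≠ 0 := sub_ne_zero.2 h4
          have h7 : β = (α + β * Y.1 0 0 - (α + β * Y.1 1 1)) / (Y.1 0 0 - Y.1 1 1) := by
            field_simp
            ring
          rw [h7]
          exact div_mem h5 (sub_mem (hL 0 0) (hL 1 1))
      · have h7 : β = β * Y.1 1 0 / Y.1 1 0 := by field_simp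
        rw [h7]
        exact div_mem h10 (hL 1 0)
    · have h7 : β = β * Y.1 0 1 / Y.1 0 1 := by field_simp
      rw [h7]
      exact div_mem h01 (hL 0 1)

/-- adding a matrix raises the rank by at most three -/
theorem rk_ents_le (S : Set E) (M : SpecialLinearGroup (Fin 2) E) :
    rk (ZMod 2) (S ∪ ents M) ≤ rk (ZMod 2) S + 3 := by
  have hdet := M.2
  rw [Matrix.det_fin_two] at hdet
  obtain ⟨a, b, c, h⟩ : ∃ a b c : E, ∀ L : Subfield E, a ∈ L → b ∈ L → c ∈ L → In L M := by
    by_cases h00 : M.1 0 0 = 0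
    · refine ⟨M.1 0 0, M.1 0 1, M.1 1 1, fun L h1 h2 h3 => ?_⟩
      have h4 : M.1 0 1 ≠ 0 := by
        intro h
        rw [h00, h] at hdet
        simp at hdet
      have h5 : M.1 1 0 = -1 / M.1 0 1 := by
        rw [eq_div_iff h4]
        rw [h00] at hdet
        linear_combination -hdet
      intro i j
      fin_cases i <;> fin_cases j
      · exact h1
      · exact h2
      · change M.1 1 0 ∈ L
        rw [h5]
        exact div_mem (neg_mem (one_mem L)) h2
      · exact h3
    · refine ⟨M.1 0 0, M.1 0 1, M.1 1 0, fun L h1 h2 h3 => ?_⟩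
      have h5 : M.1 1 1 = (1 + M.1 0 1 * M.1 1 0) / M.1 0 0 := by
        rw [eq_div_iff h00]
        linear_combination hdet
      intro i j
      fin_cases i <;> fin_cases j
      · exact h1
      · exact h2
      · exact h3
      · change M.1 1 1 ∈ L
        rw [h5]
        exact div_mem (add_mem (one_mem L) (mul_mem h2 h3)) h1
  have h1 : S ∪ ents M ⊆ cl (insert a (insert b (insert c S))) := by
    rintro x (hx | ⟨i, j, rfl⟩)
    · exact subset_cl _ (Or.inr (Or.inr (Or.inr hx)))
    · exact h _ (subset_cl _ (Or.inl rfl)) (subset_cl _ (Or.inr (Or.inl rfl)))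
        (subset_cl _ (Or.inr (Or.inr (Or.inl rfl)))) i j
  calc rk (ZMod 2) (S ∪ ents M) ≤ rk (ZMod 2) (insert a (insert b (insert c S))) := rk_le_of_cl h1
    _ ≤ rk (ZMod 2) (insert b (insert c S)) + 1 := rk_insert_le _ _
    _ ≤ rk (ZMod 2) (insert c S) + 1 + 1 := by gcongr; exact rk_insert_le _ _
    _ ≤ rk (ZMod 2) S + 1 + 1 + 1 := by gcongr; exact rk_insert_le _ _
    _ = rk (ZMod 2) S + 3 := by rw [add_assoc, add_assoc]; norm_num

end cl

end Pool.Agent.SuCH
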