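import Pool.Agent.Lib.MP_305fdd_al.Su.CH.Hg
import Pool.Agent.Lib.MP_305fdd_al.Su.CH.Cir
import Pool.Agent.Lib.MP_305fdd_al.Su.CH.Mat
import Pool.Agent.Lib.MP_305fdd_al.Su.Cov.Main

/-!
# MP_305fdd_al, closed surface groups, class membership, HNN extensions: the generic circle

`gen_circle`: a circle of generic representations, with parameters.  `circle_gen`: the dimension of the
component is `6 g - 3`, and every member of a circle over a reduced ring is a point of the component.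
-/

set_option autoImplicit false
set_option linter.unusedSectionVars false

namespace Pool.Agent.SuCH

open Matrix (SpecialLinearGroup)
open Pool.Agent.FrN Pool.Agent.FrS Pool.Agent.SuCM Pool.Agent.SuTk Pool.Agent.SuUN
open Pool.Agent.Lib.MP_305fdd_al Pool.Agent.Su

theorem er_eq_rk {F : Type} [Field F] [Algebra (ZMod 2) F] (X : Set F) : er X = rk (ZMod 2) X := rfl

section circle

variable {Γ : Type} [Group Γ] {N : ℕ} {A : Subgroup Γ} {zm zp s : Γ} {n : ℕ}

/-- the representation of a circle -/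
theorem HG.circ [NeZero n] (h : HG N A zm zp s) (hN : 2 * n ≤ N) {R : Type} [CommRing R]
    [Nontrivial R] (y : ZMod n → (A →* SpecialLinearGroup (Fin 2) R))
    (T : ZMod n → SpecialLinearGroup (Fin 2) R)
    (hT : ∀ i, T i * y (i + 1) ⟨zm, h.mm⟩ * (T i)⁻¹ = y i ⟨zp, h.mp⟩) :
    ∃ θ : Γ →* Wr n (SpecialLinearGroup (Fin 2) R),
      (∀ x : A, θ x = Wr.inB n _ fun i => y i x) ∧ θ s = ⟨T, 1⟩ := by
  refine h.ext _ (lin_wr hN R) ((Wr.inB n _).comp (MonoidHom.pi y)) ⟨T, 1⟩ ?_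
  change (⟨T, 1⟩ : Wr n _) * Wr.inB n _ (fun i => y i ⟨zm, h.mm⟩) * (⟨T, 1⟩ : Wr n _)⁻¹ =
    Wr.inB n _ (fun i => y i ⟨zp, h.mp⟩)
  rw [Wr.conj]
  congr 1
  funext i
  exact hT i

/-- the shift is unique -/
theorem HG.shift (h : HG N A zm zp s) {H H' : Type} [Group H] [Group H'] (θ : Γ →* Wr n H)
    (θ' : Γ →* Wr n H') (y : ZMod n → (A →* H)) (y' : ZMod n → (A →* H')) (T : ZMod n → H)
    (T' : ZMod n → H') (h1 : ∀ x : A, θ x = Wr.inB n _ fun i => y i x) (h2 : θ s = ⟨T, 1⟩)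
    (h1' : ∀ x : A, θ' x = Wr.inB n _ fun i => y' i x) (h2' : θ' s = ⟨T', 1⟩) (x : Γ) :
    (θ x).k = (θ' x).k := by
  have h3 : (Wr.pr n H).comp θ = (Wr.pr n H').comp θ' := by
    refine h.hom_ext (fun x => ?_) ?_
    · rw [MonoidHom.comp_apply, MonoidHom.comp_apply, h1, h1']
      rfl
    · rw [MonoidHom.comp_apply, MonoidHom.comp_apply, h2, h2']
      rfl
  exact DFunLike.congr_fun h3 x

end circle

section fields

/-- THE GENERIC CIRCLE -/
theorem gen_circle {n : ℕ} [NeZero n] (hn : 2 ≤ n) {A : Type} [Group A] {zm zp : A}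
    {D : Type} [CommRing D] [IsDomain D] [Algebra (ZMod 2) D]
    {y : A →* SpecialLinearGroup (Fin 2) D}
    (hgen : Algebra.adjoin (ZMod 2) {x | ∃ a i j, x = (y a).1 i j} = ⊤)
    (h1 : Transcendental (ZMod 2) (y zm).1.trace)
    (h2 : Transcendental (Algebra.adjoin (ZMod 2) {(y zm).1.trace}) (y zp).1.trace)
    {d : ℕ} (hd : Algebra.trdeg (ZMod 2) D = (d : Cardinal)) :
    ∃ (Ω : Type) (_ : Field Ω) (_ : Algebra (ZMod 2) Ω) (σ : ZMod n → (D →ₐ[ZMod 2] Ω))
      (T : ZMod n → SpecialLinearGroup (Fin 2) Ω),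
      (∀ i, Function.Injective (σ i)) ∧
      (∀ i, T i * SpecialLinearGroup.map (σ (i + 1) : D →+* Ω) (y zm) * (T i)⁻¹ =
        SpecialLinearGroup.map (σ i : D →+* Ω) (y zp)) ∧
      ((n * d : ℕ) : ℕ∞) ≤ er ({x : Ω | ∃ i, ∃ a : A, ∃ p q, x = σ i ((y a).1 p q)} ∪
        {x : Ω | ∃ i, ∃ p q, x = (T i).1 p q}) := by
  classical
  have hne : (y zp).1.trace ≠ (y zm).1.trace := by
    intro h
    rw [h] at h2
    exact h2 (isAlgebraic_algebraMap (A := D) (⟨_, Algebra.subset_adjoin rfl⟩ :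
      Algebra.adjoin (ZMod 2) {(y zm).1.trace}))
  -- a basis of transcendence
  have hs : AlgebraicIndepOn (ZMod 2) id ({(y zp).1.trace, (y zm).1.trace} : Set D) := by
    refine AlgebraicIndepOn.insert ?_ ?_
    · have h3 : AlgebraicIndependent (ZMod 2) (fun i : ({(y zm).1.trace} : Set D) => (i : D)) := by
        refine (algebraicIndependent_singleton_iff (⟨_, rfl⟩ : ({(y zm).1.trace} : Set D))).2 h1
      exact h3
    · rw [Set.image_id]
      exact h2
  obtain ⟨t, hst, ht⟩ := exists_isTranscendenceBasis_superset hs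
  have hm : (y zm).1.trace ∈ t := hst (Or.inr rfl)
  have hp : (y zp).1.trace ∈ t := hst (Or.inl rfl)
  have hcard := ht.cardinalMk_eq_trdeg
  rw [hd] at hcard
  have hfin : Finite t := by
    rw [← Cardinal.lt_aleph0_iff_finite, hcard]
    exact Cardinal.natCast_lt_aleph0
  have : Fintype t := Fintype.ofFinite t
  have hct : Fintype.card t = d := by
    rw [Cardinal.mk_fintype] at hcard
    exact_mod_cast hcard
  -- the variables
  let t' : Type := {x : t // x ≠ ⟨_, hm⟩}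
  have hct' : Fintype.card t' = d - 1 := by
    rw [← hct]
    exact Set.card_ne_eq (⟨_, hm⟩ : t)
  have hd0 : 1 ≤ d := by
    rw [← hct]
    exact Fintype.card_pos_iff.2 ⟨⟨_, hm⟩⟩
  let J : Type := (ZMod n × t') ⊕ ZMod n
  let Ω : Type := AlgebraicClosure (FractionRing (MvPolynomial J (ZMod 2)))
  let X : J → Ω := fun j => algebraMap (MvPolynomial J (ZMod 2)) Ω (MvPolynomial.X j)
  have hX : AlgebraicIndependent (ZMod 2) X := by
    refine (MvPolynomial.algebraicIndependent_X J (ZMod 2)).map'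
      (f := IsScalarTower.toAlgHom (ZMod 2) (MvPolynomial J (ZMod 2)) Ω) ?_
    have h3 : Function.Injective (algebraMap (MvPolynomial J (ZMod 2)) Ω) := by
      rw [IsScalarTower.algebraMap_eq _ (FractionRing (MvPolynomial J (ZMod 2))) Ω]
      exact (algebraMap (FractionRing (MvPolynomial J (ZMod 2))) Ω).injective.comp
        (IsFractionRing.injective _ _)
    exact h3
  have hpn : (⟨_, hp⟩ : t) ≠ ⟨_, hm⟩ := fun h => hne (congrArg Subtype.val h)
  let f : ZMod n → t → J := fun i x => if h : x = ⟨_, hm⟩ then Sum.inl (i - 1, ⟨⟨_, hp⟩, hpn⟩)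
    else Sum.inl (i, ⟨x, h⟩)
  have hf1 : ∀ i, f i ⟨_, hm⟩ = Sum.inl (i - 1, ⟨⟨_, hp⟩, hpn⟩) := fun i => dif_pos rfl
  have hf2 : ∀ i (x : t) (h : x ≠ ⟨_, hm⟩), f i x = Sum.inl (i, ⟨x, h⟩) := fun i x h => dif_neg h
  have hi1 : ∀ i : ZMod n, i - 1 ≠ i := by
    intro i h
    have h3 : (1 : ZMod n) = 0 := by linear_combination -h
    have h4 : ((1 : ℕ) : ZMod n) = 0 := by exact_mod_cast h3
    rw [ZMod.natCast_eq_zero_iff] at h4
    have := Nat.le_of_dvd one_pos h4
    omega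
  have hfi : ∀ i, Function.Injective (f i) := by
    intro i x x' h
    by_cases hx : x = ⟨_, hm⟩
    · by_cases hx' : x' = ⟨_, hm⟩
      · rw [hx, hx']
      · rw [hx, hf1, hf2 i x' hx', Sum.inl.injEq, Prod.mk.injEq] at h
        exact absurd h.1 (hi1 i)
    · by_cases hx' : x' = ⟨_, hm⟩
      · rw [hx', hf1, hf2 i x hx, Sum.inl.injEq, Prod.mk.injEq] at h
        exact absurd h.1.symm (hi1 i)
      · rw [hf2 i x hx, hf2 i x' hx', Sum.inl.injEq, Prod.mk.injEq, Subtype.mk.injEq] at h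
        exact h.2
  have hv : ∀ i, AlgebraicIndependent (ZMod 2) (X ∘ f i) := fun i => hX.comp (f i) (hfi i)
  choose σ hσ1 hσ2 hσ3 using fun i => exists_emb ht (hv i)
  -- the matrices
  let L₀ : Subfield Ω := cl (Set.range fun v : ZMod n × t' => X (Sum.inl v))
  have hL₀ : ∀ i x, σ i x ∈ L₀ := by
    intro i x
    refine cl_le_of_subset ?_ (hσ3 i x)
    rintro _ ⟨v, rfl⟩
    refine subset_cl _ ?_
    by_cases hx : v = ⟨_, hm⟩
    · rw [hx]
      exact ⟨_, congrArg X (hf1 i).symm⟩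
    · exact ⟨_, congrArg X (hf2 i v hx).symm⟩
  have hIn : ∀ i a, In L₀ (SpecialLinearGroup.map (σ i : D →+* Ω) (y a)) :=
    fun i a p q => hL₀ i _
  have htr : ∀ i a, (SpecialLinearGroup.map (σ i : D →+* Ω) (y a)).1.trace =
      σ i ((y a).1.trace) := by
    intro i a
    rw [Matrix.trace_fin_two, Matrix.trace_fin_two, map_add]
    rfl
  have hX0 : ∀ j, X j ≠ 0 := fun j => hX.ne_zero j
  have hc2 := two_zero Ω
  have hne1 : ∀ i a, σ i ((y a).1.trace) ≠ 0 →
      SpecialLinearGroup.map (σ i : D →+* Ω) (y a) ≠ 1 := by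
    intro i a h0 h
    apply h0
    rw [← htr, h, Matrix.trace_fin_two]
    change (1 : Matrix (Fin 2) (Fin 2) Ω) 0 0 + (1 : Matrix (Fin 2) (Fin 2) Ω) 1 1 = 0
    rw [Matrix.one_apply_eq, Matrix.one_apply_eq, ← hc2]
    norm_num
  have hσm : ∀ i, σ i ((y zm).1.trace) = X (Sum.inl (i - 1, ⟨⟨_, hp⟩, hpn⟩)) := by
    intro i
    rw [← hf1 i]
    exact hσ2 i ⟨_, hm⟩
  have hσp : ∀ i, σ i ((y zp).1.trace) = X (Sum.inl (i, ⟨⟨_, hp⟩, hpn⟩)) := by
    intro i
    rw [← hf2 i _ hpn]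
    exact hσ2 i ⟨_, hp⟩
  have hconj : ∀ i, ∃ T₀ : SpecialLinearGroup (Fin 2) Ω, In L₀ T₀ ∧
      T₀ * SpecialLinearGroup.map (σ (i + 1) : D →+* Ω) (y zm) * T₀⁻¹ =
      SpecialLinearGroup.map (σ i : D →+* Ω) (y zp) := by
    intro i
    refine exists_conj L₀ (fun x hx => sqrt_mem_cl hx) (hne1 _ _ ?_) (hne1 _ _ ?_) ?_
      (hIn _ _) (hIn _ _)
    · rw [hσm]
      exact hX0 _
    · rw [hσp]
      exact hX0 _
    · rw [htr, htr, hσm, hσp, add_sub_cancel_right]
  choose T₀ hT₀ hT₀' using hconj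
  have hcent : ∀ i, ∃ c : SpecialLinearGroup (Fin 2) Ω,
      c * SpecialLinearGroup.map (σ (i + 1) : D →+* Ω) (y zm) =
        SpecialLinearGroup.map (σ (i + 1) : D →+* Ω) (y zm) * c ∧
      ∀ L : Subfield Ω, In L (SpecialLinearGroup.map (σ (i + 1) : D →+* Ω) (y zm)) → In L c →
        X (Sum.inr i) ∈ L := by
    intro i
    refine exists_cent (hne1 _ _ ?_) _
    rw [hσm]
    exact hX0 _
  choose c hc hc' using hcent
  refine ⟨Ω, inferInstance, inferInstance, σ, fun i => T₀ i * c i, hσ1, fun i => ?_, ?_⟩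
  · rw [← hT₀' i]
    have h3 : T₀ i * c i * SpecialLinearGroup.map (σ (i + 1) : D →+* Ω) (y zm) *
        (T₀ i * c i)⁻¹ = T₀ i * (c i * SpecialLinearGroup.map (σ (i + 1) : D →+* Ω) (y zm)) *
        (c i)⁻¹ * (T₀ i)⁻¹ := by
      rw [mul_inv_rev]
      group
    rw [h3, hc]
    group
  · set S : Set Ω := {x : Ω | ∃ i, ∃ a : A, ∃ p q, x = σ i ((y a).1 p q)} ∪
        {x : Ω | ∃ i, ∃ p q, x = (T₀ i * c i).1 p q} with hS
    have hS1 : ∀ i x, σ i x ∈ cl S := by
      intro i x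
      have hx : x ∈ Algebra.adjoin (ZMod 2) {x | ∃ a i j, x = (y a).1 i j} := by
        rw [hgen]
        trivial
      induction hx using Algebra.adjoin_induction with
      | mem x hx =>
        obtain ⟨a, p, q, rfl⟩ := hx
        exact subset_cl _ (Or.inl ⟨i, a, p, q, rfl⟩)
      | algebraMap r =>
        rw [AlgHom.commutes]
        exact isAlgebraic_algebraMap (A := Ω) (algebraMap (ZMod 2) (Algebra.adjoin (ZMod 2) S) r)
      | add x x' _ _ h1 h2 => rw [map_add]; exact add_mem h1 h2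
      | mul x x' _ _ h1 h2 => rw [map_mul]; exact mul_mem h1 h2
    have hS2 : ∀ v : ZMod n × t', X (Sum.inl v) ∈ cl S := by
      rintro ⟨i, x, hx⟩
      rw [← hf2 i x hx]
      change (X ∘ f i) x ∈ cl S
      rw [← hσ2 i x]
      exact hS1 i _
    have hL₀S : (L₀ : Set Ω) ⊆ cl S := by
      refine cl_le_of_subset ?_
      rintro _ ⟨v, rfl⟩
      exact hS2 v
    have hS3 : ∀ i, X (Sum.inr i) ∈ cl S := by
      intro i
      refine hc' i (cl S) ((hIn _ _).mono hL₀S) ?_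
      have h3 : c i = (T₀ i)⁻¹ * (T₀ i * c i) := by group
      rw [h3]
      exact ((hT₀ i).mono hL₀S).inv.mul (fun p q => subset_cl _ (Or.inr ⟨i, p, q, rfl⟩))
    have h3 := card_le_rk (S := S) hX (fun j => by
      rcases j with v | i
      · exact hS2 v
      · exact hS3 i)
    rw [Fintype.card_sum, Fintype.card_prod, ZMod.card, hct'] at h3
    have h4 : n * (d - 1) + n = n * d := by
      obtain ⟨e, rfl⟩ : ∃ e, d = e + 1 := ⟨d - 1, by omega⟩
      rw [Nat.add_sub_cancel]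
      ring
    rw [h4] at h3
    exact h3

end fields

end Pool.Agent.SuCH
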