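import Mathlib

/-!
# Specialisation of a cycle of representations to a finite field (helper20)
-/

set_option autoImplicit false

namespace Pool.Agent.SuCH

open Matrix

namespace Spec

theorem map_inj {R S : Type*} [CommRing R] [CommRing S] {h : R →+* S}
    (hh : Function.Injective h) :
    Function.Injective (SpecialLinearGroup.map (n := Fin 2) h) := by
  intro x y hxy
  ext i j
  have h1 := congrArg (fun z : SpecialLinearGroup (Fin 2) S => z.1 i j) hxy
  exact hh (by simpa [SpecialLinearGroup.map_apply_coe, RingHom.mapMatrix_apply] using h1)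

/-- an element of `SL_2(S)` with entries in the image of `R` -/
theorem lift_el {R S : Type*} [CommRing R] [CommRing S] {h : R →+* S}
    (hh : Function.Injective h) (x : SpecialLinearGroup (Fin 2) S)
    (hx : ∀ i j, ∃ r, h r = x.1 i j) :
    ∃ y : SpecialLinearGroup (Fin 2) R, SpecialLinearGroup.map h y = x := by
  choose m hm using hx
  have hdet : (Matrix.of m).det = 1 := by
    apply hh
    rw [RingHom.map_det, map_one, ← x.2]
    congr 1
    ext i j
    simp [RingHom.mapMatrix_apply, hm]
  refine ⟨⟨Matrix.of m, hdet⟩, ?_⟩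
  ext i j
  simp [SpecialLinearGroup.map_apply_coe, RingHom.mapMatrix_apply, hm]

/-- lift of a homomorphism -/
theorem lift_hom {A : Type*} [Group A] {R S : Type*} [CommRing R] [CommRing S] {h : R →+* S}
    (hh : Function.Injective h) (f : A →* SpecialLinearGroup (Fin 2) S)
    (hf : ∀ a, ∃ y : SpecialLinearGroup (Fin 2) R, SpecialLinearGroup.map h y = f a) :
    ∃ g : A →* SpecialLinearGroup (Fin 2) R, (SpecialLinearGroup.map h).comp g = f := by
  choose m hm using hf
  refine ⟨⟨⟨m, ?_⟩, ?_⟩, ?_⟩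
  · apply map_inj hh; rw [hm, map_one, map_one]
  · intro a b; apply map_inj hh; rw [hm, map_mul, map_mul, hm, hm]
  · ext1 a; exact hm a

end Spec

open Spec

theorem fin_circle {A : Type} [Group A] [Group.FG A] {zm zp : A} {n : ℕ} [NeZero n]
    {κ Om : Type} [Field κ] [Finite κ] [Algebra (ZMod 2) κ] [Field Om] [Algebra (ZMod 2) Om]
    (ι : κ →+* Om) (y0 : A →* SpecialLinearGroup (Fin 2) κ)
    (f : ZMod n → (A →* SpecialLinearGroup (Fin 2) Om))
    (t : ZMod n → SpecialLinearGroup (Fin 2) Om)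
    (h0 : f 0 = (SpecialLinearGroup.map ι).comp y0)
    (ht : ∀ i, t i * f (i + 1) zm * (t i)⁻¹ = f i zp) :
    ∃ (k1 : Type) (_ : Field k1) (_ : Finite k1) (_ : Algebra (ZMod 2) k1) (e : κ →+* k1)
      (f1 : ZMod n → (A →* SpecialLinearGroup (Fin 2) k1))
      (t1 : ZMod n → SpecialLinearGroup (Fin 2) k1),
      f1 0 = (SpecialLinearGroup.map e).comp y0 ∧
        ∀ i, t1 i * f1 (i + 1) zm * (t1 i)⁻¹ = f1 i zp := by
  classical
  letI : Algebra κ Om := ι.toAlgebra
  obtain ⟨S, hS⟩ := (Group.FG.out : (⊤ : Subgroup A).FG)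
  haveI : Finite (ZMod n) := inferInstance
  let E : Set Om :=
    (Set.range fun p : ZMod n × S × Fin 2 × Fin 2 => (f p.1 p.2.1).1 p.2.2.1 p.2.2.2) ∪
      (Set.range fun p : ZMod n × Fin 2 × Fin 2 => (t p.1).1 p.2.1 p.2.2)
  have hE : E.Finite := (Set.finite_range _).union (Set.finite_range _)
  let B : Subalgebra κ Om := Algebra.adjoin κ E
  have hB : Algebra.FiniteType κ B := by
    rw [← Subalgebra.fg_iff_finiteType]
    exact ⟨hE.toFinset, by simp [B]⟩
  let j : B →+* Om := B.val.toRingHom
  have hj : Function.Injective j := Subtype.val_injective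
  have hEB : ∀ x ∈ E, ∃ b, j b = x := fun x hx => ⟨⟨x, Algebra.subset_adjoin hx⟩, rfl⟩
  have hf : ∀ i a, ∃ y : SpecialLinearGroup (Fin 2) B, SpecialLinearGroup.map j y = f i a := by
    intro i a
    have hle : (⊤ : Subgroup A) ≤ (SpecialLinearGroup.map (n := Fin 2) j).range.comap (f i) := by
      rw [← hS, Subgroup.closure_le]
      intro s hs
      exact lift_el hj _ fun k l => hEB _ (Or.inl ⟨(i, ⟨s, hs⟩, k, l), rfl⟩)
    exact hle (Subgroup.mem_top a)
  have htB : ∀ i, ∃ y : SpecialLinearGroup (Fin 2) B, SpecialLinearGroup.map j y = t i :=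
    fun i => lift_el hj _ fun k l => hEB _ (Or.inr ⟨(i, k, l), rfl⟩)
  choose g hg using fun i => lift_hom hj (f i) (hf i)
  choose u hu using htB
  obtain ⟨m, hm⟩ := Ideal.exists_maximal B
  letI : Field (B ⧸ m) := Ideal.Quotient.field m
  haveI : Algebra.FiniteType κ (B ⧸ m) :=
    Algebra.FiniteType.of_surjective (Ideal.Quotient.mkₐ κ m) (Ideal.Quotient.mkₐ_surjective κ m)
  haveI : Module.Finite κ (B ⧸ m) := finite_of_finite_type_of_isJacobsonRing κ (B ⧸ m)
  haveI : Finite (B ⧸ m) := Module.finite_of_finite κ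
  refine ⟨B ⧸ m, inferInstance, inferInstance,
    ((algebraMap κ (B ⧸ m)).comp (algebraMap (ZMod 2) κ)).toAlgebra, algebraMap κ (B ⧸ m),
    fun i => (SpecialLinearGroup.map (Ideal.Quotient.mk m)).comp (g i),
    fun i => SpecialLinearGroup.map (Ideal.Quotient.mk m) (u i), ?_, ?_⟩
  · have h1 : g 0 = (SpecialLinearGroup.map (algebraMap κ B)).comp y0 := by
      ext1 a
      apply map_inj hj
      have h2 := DFunLike.congr_fun (hg 0) a
      rw [MonoidHom.comp_apply] at h2
      rw [h2, h0]
      ext k l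
      rfl
    show (SpecialLinearGroup.map (Ideal.Quotient.mk m)).comp (g 0) = _
    rw [h1]
    ext a k l
    rfl
  · intro i
    show SpecialLinearGroup.map (Ideal.Quotient.mk m) (u i) *
      SpecialLinearGroup.map (Ideal.Quotient.mk m) (g (i + 1) zm) *
        (SpecialLinearGroup.map (Ideal.Quotient.mk m) (u i))⁻¹ =
          SpecialLinearGroup.map (Ideal.Quotient.mk m) (g i zp)
    rw [← map_inv, ← map_mul, ← map_mul]
    congr 1
    apply map_inj hj
    rw [map_mul, map_mul, map_inv, hu]
    have h2 := DFunLike.congr_fun (hg (i + 1)) zm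
    have h3 := DFunLike.congr_fun (hg i) zp
    rw [MonoidHom.comp_apply] at h2 h3
    rw [h2, h3, ht]

end Pool.Agent.SuCH
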