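import Pool.Agent.Lib.MP_305fdd_al.Su.CH.Cyc
import Pool.Agent.Lib.MP_305fdd_al.Su.CH.Nd
import Pool.Agent.Lib.MP_305fdd_al.Su.CH.Spec
import Pool.Agent.Lib.MP_305fdd_al.Su.AA.Pk

/-!
# MP_305fdd_al, surface groups, block CM-HNN: every representation lies on a circle
-/

set_option autoImplicit false
set_option linter.unusedSectionVars false

namespace Pool.Agent.SuCH

open Matrix Pool.Agent.FrN Pool.Agent.SuUN Pool.Agent.SurfCnt Pool.Agent.SuFI
open Pool.Agent.Lib.MP_305fdd_al Pool.Agent.Su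

/-- the ring of fractions has the same degree of transcendence -/
theorem trdeg_frc {F : Type} [Field F] [Algebra (ZMod 2) F] (B : Subalgebra (ZMod 2) F)
    (hB : Frc B) : Algebra.trdeg (ZMod 2) B = Algebra.trdeg (ZMod 2) F := by
  have h1 : Algebra.IsAlgebraic B F := by
    constructor
    intro x
    obtain ⟨a, ha, b, hb, hb0, he⟩ := hB x
    refine ⟨Polynomial.C (⟨b, hb⟩ : B) * Polynomial.X - Polynomial.C (⟨a, ha⟩ : B), ?_, ?_⟩
    · intro h0
      have h2 := congrArg (fun q => Polynomial.coeff q 1) h0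
      simp only [Polynomial.coeff_sub, Polynomial.coeff_C_mul, Polynomial.coeff_X_one, mul_one,
        Polynomial.coeff_C_succ, sub_zero, Polynomial.coeff_zero] at h2
      exact hb0 (congrArg Subtype.val h2)
    · rw [map_sub, map_mul, Polynomial.aeval_C, Polynomial.aeval_X, Polynomial.aeval_C]
      change b * x - a = 0
      rw [mul_comm, he, sub_self]
  obtain ⟨s, hs⟩ := exists_isTranscendenceBasis (ZMod 2) B
  have h2 : IsTranscendenceBasis (ZMod 2) (algebraMap B F ∘ (Subtype.val : s → B)) :=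
    hs.algebraMap_comp
  rw [← hs.cardinalMk_eq_trdeg, ← h2.cardinalMk_eq_trdeg]

section pk

variable {g : ℕ} {Λ Γ F : Type} [Group Λ] [Group Γ] [Field F] [Algebra (ZMod 2) F]
  {π : Λ →* Γ} {ρ : Γ →* SpecialLinearGroup (Fin 2) F}

/-- the generic representation of the package -/
theorem pg_of_pk (P : SuAA.Pk g π ρ) : Pg (6 * g - 3) ρ where
  tr := by
    rw [trdeg_frc _ P.frac]
    have h1 := P.trF
    have h2 := P.two
    have h3 : ((6 * g : ℕ) : Cardinal) = ((6 * g - 3 : ℕ) : Cardinal) + 3 := by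
      have h4 : 6 * g = (6 * g - 3) + 3 := by omega
      conv_lhs => rw [h4]
      push_cast
      rfl
    rw [h3] at h1
    exact Cardinal.eq_of_add_eq_add_right h1 (by exact_mod_cast Cardinal.natCast_lt_aleph0 (n := 3))
  sp := fun R _ _ _ r => P.pts R r

variable {A : Subgroup Γ} {zm zp s : Γ} {N : ℕ}

/-- the trace at the edge is transcendental -/
theorem transc_pk (P : SuAA.Pk g π ρ) (h : HG N A zm zp s) (hN : 2 ≤ N) (hA : Group.FG A) :
    Transcendental (ZMod 2) ((ρ zm).1.trace) := by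
  obtain ⟨Φ⟩ := P.nbG
  obtain ⟨c, hc⟩ := nontriv_char
  have hf : Finite (GaloisField 2 2) := by
    apply Nat.finite_of_card_ne_zero
    rw [GaloisField.card 2 2 (by norm_num)]
    norm_num
  obtain ⟨χ, hχ⟩ := exists_char h hN Φ P.fac hA (GaloisField 2 2) c
  exact transc (pg_of_pk P) zm (GaloisField 2 2) χ (by rw [hχ]; exact hc)

variable {D : Type} [CommRing D] [Algebra (ZMod 2) D] {y : A →* SpecialLinearGroup (Fin 2) D}
  {φ : D →ₐ[ZMod 2] F}

/-- EVERY REPRESENTATION over a finite field lies on a circle -/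
theorem circ_in (P : SuAA.Pk g π ρ) (h : HG N A zm zp s) (hN : 2 ≤ N) (hA : Group.FG A)
    (C : Cpt A D y φ (ρ.comp A.subtype))
    (hne : (y ⟨zm, h.mm⟩).1.trace ≠ (y ⟨zp, h.mp⟩).1.trace)
    (κ : Type) [Field κ] [Finite κ] [Algebra (ZMod 2) κ]
    (y₀ : A →* SpecialLinearGroup (Fin 2) κ) :
    ∃ (κ1 : Type) (_ : Field κ1) (_ : Finite κ1) (_ : Algebra (ZMod 2) κ1) (e : κ →+* κ1)
      (f : ZMod 5 → (A →* SpecialLinearGroup (Fin 2) κ1))
      (t : ZMod 5 → SpecialLinearGroup (Fin 2) κ1),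
      f 0 = (SpecialLinearGroup.map e).comp y₀ ∧
      ∀ i, t i * f (i + 1) ⟨zm, h.mm⟩ * (t i)⁻¹ = f i ⟨zp, h.mp⟩ := by
  obtain ⟨Φ⟩ := P.nbG
  have hg : 1 ≤ g := by have := P.two; omega
  obtain ⟨Ω, _, _, _, X, hX⟩ := exists_big
  have hfd : Module.Finite (ZMod 2) κ := Module.Finite.of_finite
  have halg : Algebra.IsAlgebraic (ZMod 2) κ := Algebra.IsAlgebraic.of_finite _ _
  let ι : κ →ₐ[ZMod 2] Ω := IsAlgClosed.lift
  obtain ⟨f, t, hf, ht⟩ := exists_cycle C (pg_of_pk P) h hN (transc_pk P h hN hA) hne hX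
    (fun τ hτ => exists_point h hN Φ hg P.fac hA hτ)
    (fun τ hτ => exists_point h.symm hN Φ hg P.fac hA hτ)
    ((SpecialLinearGroup.map (ι : κ →+* Ω)).comp y₀) (fun a => by
      rw [tr_map]
      exact (halg.isAlgebraic _).algHom ι)
  exact fin_circle (ι : κ →+* Ω) y₀ f t hf ht

end pk

end Pool.Agent.SuCH
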