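import Pool.Agent.Lib.MP_305fdd_al.Su.CH.Om

/-!
# MP_305fdd_al, surface groups, block CM-HNN: cutting the component; representations with many parameters
-/

set_option autoImplicit false
set_option linter.unusedSectionVars false

namespace Pool.Agent.SuCH

open Matrix Pool.Agent.FrN Pool.Agent.SuUN

/-- the entries generate the ring -/
def EG {A W : Type} [Group A] [CommRing W] [Algebra (ZMod 2) W]
    (y : A →* SpecialLinearGroup (Fin 2) W) : Prop :=
  Algebra.adjoin (ZMod 2) {x | ∃ a i j, x = (y a).1 i j} = ⊤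

theorem EG.map {A W W' : Type} [Group A] [CommRing W] [Algebra (ZMod 2) W] [CommRing W']
    [Algebra (ZMod 2) W'] {y : A →* SpecialLinearGroup (Fin 2) W} (h : EG y) (θ : W →ₐ[ZMod 2] W')
    (hθ : Function.Surjective θ) : EG ((SpecialLinearGroup.map (θ : W →+* W')).comp y) := by
  have h1 := congrArg (Subalgebra.map θ) h
  rw [AlgHom.map_adjoin, Algebra.map_top, (AlgHom.range_eq_top θ).2 hθ] at h1
  rw [EG, ← h1]
  congr 1
  ext x
  constructor
  · rintro ⟨a, i, j, rfl⟩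
    exact ⟨_, ⟨a, i, j, rfl⟩, rfl⟩
  · rintro ⟨_, ⟨a, i, j, rfl⟩, rfl⟩
    exact ⟨a, i, j, rfl⟩

/-- values of the ring of the entries -/
theorem EG.val_mem {A W E : Type} [Group A] [CommRing W] [Algebra (ZMod 2) W] [Field E]
    [Algebra (ZMod 2) E] {y : A →* SpecialLinearGroup (Fin 2) W} (h : EG y) (σ : W →ₐ[ZMod 2] E)
    {L : Subfield E} (hL : ∀ a i j, σ ((y a).1 i j) ∈ L) (x : W) : σ x ∈ L := by
  have hx : x ∈ Algebra.adjoin (ZMod 2) {x | ∃ a i j, x = (y a).1 i j} := by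
    rw [h]
    trivial
  induction hx using Algebra.adjoin_induction with
  | mem x hx =>
    obtain ⟨a, i, j, rfl⟩ := hx
    exact hL a i j
  | algebraMap c =>
    rw [AlgHom.commutes]
    obtain ⟨n, rfl⟩ := ZMod.natCast_zmod_surjective c
    rw [map_natCast]
    exact natCast_mem L n
  | add x y _ _ h1 h2 =>
    rw [map_add]
    exact add_mem h1 h2
  | mul x y _ _ h1 h2 =>
    rw [map_mul]
    exact mul_mem h1 h2

/-- CUTTING a domain by elements which vanish at a point -/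
theorem cut {E : Type} [Field E] [Algebra (ZMod 2) E] (n : ℕ) : ∀ (D : Type) [CommRing D]
    [IsDomain D] [Algebra (ZMod 2) D] [Algebra.FiniteType (ZMod 2) D] (ψ : D →ₐ[ZMod 2] E)
    (f : Fin n → D), (∀ i, ψ (f i) = 0) →
    ∃ (W : Type) (_ : CommRing W) (_ : IsDomain W) (_ : Algebra (ZMod 2) W)
      (_ : Algebra.FiniteType (ZMod 2) W) (θ : D →ₐ[ZMod 2] W) (ψ' : W →ₐ[ZMod 2] E),
      Function.Surjective θ ∧ (∀ x, ψ' (θ x) = ψ x) ∧ (∀ i, θ (f i) = 0) ∧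
      Algebra.trdeg (ZMod 2) D ≤ Algebra.trdeg (ZMod 2) W + n := by
  induction n with
  | zero =>
    intro D _ _ _ _ ψ f _
    refine ⟨D, inferInstance, inferInstance, inferInstance, inferInstance, AlgHom.id _ _, ψ,
      Function.surjective_id, fun _ => rfl, fun i => i.elim0, ?_⟩
    simp
  | succ n ih =>
    intro D _ _ _ _ ψ f hf
    have hm : (RingHom.ker (ψ : D →+* E)).IsPrime := RingHom.ker_isPrime _
    obtain ⟨P, hP, hPm, hfP, htr⟩ := kl (k := ZMod 2) (RingHom.ker (ψ : D →+* E)) (f := f 0) (hf 0)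
    have hdom : IsDomain (D ⧸ P) := Ideal.Quotient.isDomain P
    let ψ1 : (D ⧸ P) →ₐ[ZMod 2] E := Ideal.Quotient.liftₐ P ψ (fun a ha => hPm ha)
    have hψ1 : ∀ x, ψ1 (Ideal.Quotient.mkₐ (ZMod 2) P x) = ψ x := fun x => rfl
    obtain ⟨W, i1, i2, i3, i4, θ, ψ', h1, h2, h3, h4⟩ := ih (D ⧸ P) ψ1
      (fun i => Ideal.Quotient.mkₐ (ZMod 2) P (f i.succ)) (fun i => by rw [hψ1]; exact hf _)
    refine ⟨W, i1, i2, i3, i4, θ.comp (Ideal.Quotient.mkₐ (ZMod 2) P), ψ',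
      h1.comp (Ideal.Quotient.mkₐ_surjective (ZMod 2) P), fun x => ?_, fun i => ?_, ?_⟩
    · rw [AlgHom.comp_apply, h2, hψ1]
    · refine Fin.cases ?_ (fun j => h3 j) i
      rw [AlgHom.comp_apply]
      have h5 : Ideal.Quotient.mkₐ (ZMod 2) P (f 0) = 0 := by
        rw [Ideal.Quotient.mkₐ_eq_mk, Ideal.Quotient.eq_zero_iff_mem]
        exact hfP
      rw [h5, map_zero]
    · refine htr.trans ((add_le_add_left h4 1).trans (le_of_eq ?_))
      push_cast
      rw [add_assoc]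

section many

variable {Ω : Type} [Field Ω] [Algebra (ZMod 2) Ω] {X : ℕ → Ω}

/-- many independent elements in a closed field -/
theorem le_rk_of_X (hX : AlgebraicIndependent (ZMod 2) X) {S : Set Ω} {n : ℕ}
    (h : ∀ j < n, X j ∈ cl S) : (n : ℕ∞) ≤ rk (ZMod 2) S := by
  have h1 := card_le_rk (hX.comp (fun j : Fin n => (j : ℕ)) Fin.val_injective) (S := S)
    (fun i => h i i.2)
  rwa [Fintype.card_fin] at h1

end many

section chain

variable {Γ F D : Type} [Group Γ] [Field F] [Algebra (ZMod 2) F] [CommRing D] [Algebra (ZMod 2) D]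
  {ρ : Γ →* SpecialLinearGroup (Fin 2) F} {A : Subgroup Γ} {zm zp s : Γ} {N d₀ : ℕ}
  {Ω : Type} [Field Ω] [Algebra (ZMod 2) Ω] [IsAlgClosed Ω] {X : ℕ → Ω}

/-- conjugate elements have the same trace -/
theorem tr_rel (h : HG N A zm zp s) {R : Type} [CommRing R]
    (r : Γ →* SpecialLinearGroup (Fin 2) R) : (r zm).1.trace = (r zp).1.trace := by
  have h3 : (r zp).1 = (r s).1 * (r zm).1 * ((r s)⁻¹).1 := by
    have h4 : r zp = r s * r zm * (r s)⁻¹ := (h.rel' r).symm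
    exact congrArg Subtype.val h4
  rw [h3, Matrix.trace_mul_comm, ← mul_assoc]
  have h5 : ((r s)⁻¹).1 * (r s).1 = 1 := congrArg Subtype.val (inv_mul_cancel (r s))
  rw [h5, one_mul]

theorem one_rel (h : HG N A zm zp s) {Q : Type} [Group Q] (r : Γ →* Q) (h1 : r zp = 1) :
    r zm = 1 := by
  have h2 := h.rel' r
  rw [h1] at h2
  have h3 : r zm = (r s)⁻¹ * 1 * r s := by rw [← h2]; group
  rw [h3]
  group

/-- a large family of representations of `A` with equal traces extends to a generic representation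
of `Γ` -/
theorem transc_of_eq (P : Pg d₀ ρ) (h : HG N A zm zp s) (hN : 2 ≤ N)
    (hT : Transcendental (ZMod 2) ((ρ zm).1.trace)) (hX : AlgebraicIndependent (ZMod 2) X)
    (W : Type) [CommRing W] [IsDomain W] [Algebra (ZMod 2) W] [Algebra.FiniteType (ZMod 2) W]
    (y : A →* SpecialLinearGroup (Fin 2) W) (hy : EG y)
    (htr : (y ⟨zm, h.mm⟩).1.trace = (y ⟨zp, h.mp⟩).1.trace)
    (hm : y ⟨zm, h.mm⟩ ≠ 1) (hp : y ⟨zp, h.mp⟩ ≠ 1)
    (hd : (d₀ : Cardinal) ≤ Algebra.trdeg (ZMod 2) W + 1) :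
    Transcendental (ZMod 2) ((y ⟨zm, h.mm⟩).1.trace) := by
  obtain ⟨n, hn⟩ := Cardinal.lt_aleph0.1
    (trdeg_lt_aleph0_of_finiteType : Algebra.trdeg (ZMod 2) W < Cardinal.aleph0)
  rw [hn] at hd
  have hd' : d₀ ≤ n + 1 := by exact_mod_cast hd
  obtain ⟨σ, hσ, hσX⟩ := emb_free hX W hn 1
  set Y : A →* SpecialLinearGroup (Fin 2) Ω := (SpecialLinearGroup.map (σ : W →+* Ω)).comp y with hY
  have hYe : ∀ a i j, (Y a).1 i j = σ ((y a).1 i j) := fun a i j => rfl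
  have hY1 : ∀ a, Y a = 1 → y a = 1 := by
    intro a ha
    apply Subtype.ext
    ext i j
    apply hσ
    rw [← hYe, ha]
    change (1 : Matrix (Fin 2) (Fin 2) Ω) i j = σ ((1 : Matrix (Fin 2) (Fin 2) W) i j)
    rw [Matrix.one_apply, Matrix.one_apply]
    split_ifs
    · exact (map_one σ).symm
    · exact (map_zero σ).symm
  have hYt : ∀ a, (Y a).1.trace = σ ((y a).1.trace) := by
    intro a
    rw [Matrix.trace_fin_two, Matrix.trace_fin_two, map_add, hYe, hYe]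
  have hYm : Y ⟨zm, h.mm⟩ ≠ 1 := fun h0 => hm (hY1 _ h0)
  have hYp : Y ⟨zp, h.mp⟩ ≠ 1 := fun h0 => hp (hY1 _ h0)
  have hIn : ∀ a, In (cl (entsR Y)) (Y a) := fun a i j => subset_cl _ ⟨a, i, j, rfl⟩
  obtain ⟨t, htL, ht⟩ := exists_conj (cl (entsR Y)) (fun x hx => sqrt_mem_cl hx) hYm hYp
    (by rw [hYt, hYt, htr]) (hIn _) (hIn _)
  obtain ⟨c, hc, hcβ⟩ := exists_cent hYm (X 0)
  obtain ⟨q, hqA, hqs⟩ := h.extSL hN Y (t * c) (by
    have h1 : (t * c) * Y ⟨zm, h.mm⟩ * (t * c)⁻¹ = t * (c * Y ⟨zm, h.mm⟩ * c⁻¹) * t⁻¹ := by group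
    rw [h1, hc, mul_inv_cancel_right, ht])
  have hsub : entsR Y ⊆ cl (entsR q) := by
    rintro _ ⟨a, i, j, rfl⟩
    rw [← hqA]
    exact subset_cl _ ⟨(a : Γ), i, j, rfl⟩
  have hcl : (cl (entsR Y) : Set Ω) ⊆ cl (entsR q) := cl_le_of_subset hsub
  have hrk : ((n + 1 : ℕ) : ℕ∞) ≤ rk (ZMod 2) (entsR q) := by
    refine le_rk_of_X hX fun j hj => ?_
    rcases Nat.eq_zero_or_pos j with rfl | hj0
    · apply hcβ _ ((hIn _).mono hcl)
      have h1 : c = t⁻¹ * q s := by rw [hqs, inv_mul_cancel_left]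
      have h2 : In (cl (entsR q)) (q s) := fun i j => subset_cl (entsR q) ⟨s, i, j, rfl⟩
      rw [h1]
      exact (htL.mono hcl).inv.mul h2
    · obtain ⟨x, hx⟩ := hσX (j - 1) (by omega)
      rw [show 1 + (j - 1) = j by omega] at hx
      rw [← hx]
      exact hcl (hy.val_mem σ (fun a i j => subset_cl (entsR Y) ⟨a, i, j, rfl⟩) x)
  have h1 := transc_of_rk P hT q (le_trans (by exact_mod_cast hd') hrk)
  intro halg
  apply h1
  have h2 : q zm = Y ⟨zm, h.mm⟩ := hqA ⟨zm, h.mm⟩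
  rw [h2, hYt]
  exact halg.algHom σ

/-- a matrix with three free entries -/
theorem exists_free3 (a b c : Ω) (ha : a ≠ 0) : ∃ t : SpecialLinearGroup (Fin 2) Ω,
    t.1 0 0 = a ∧ t.1 0 1 = b ∧ t.1 1 0 = c := by
  refine ⟨⟨!![a, b; c, (1 + b * c) / a], ?_⟩, rfl, rfl, rfl⟩
  rw [Matrix.det_fin_two_of]
  field_simp
  ring

/-- the same when `zm` and `zp` are trivial -/
theorem transc_of_one (P : Pg d₀ ρ) (h : HG N A zm zp s) (hN : 2 ≤ N)
    (hT : Transcendental (ZMod 2) ((ρ zm).1.trace)) (hX : AlgebraicIndependent (ZMod 2) X)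
    (W : Type) [CommRing W] [IsDomain W] [Algebra (ZMod 2) W] [Algebra.FiniteType (ZMod 2) W]
    (y : A →* SpecialLinearGroup (Fin 2) W) (hy : EG y)
    (hm : y ⟨zm, h.mm⟩ = 1) (hp : y ⟨zp, h.mp⟩ = 1)
    (hd : (d₀ : Cardinal) ≤ Algebra.trdeg (ZMod 2) W + 3) : False := by
  obtain ⟨n, hn⟩ := Cardinal.lt_aleph0.1
    (trdeg_lt_aleph0_of_finiteType : Algebra.trdeg (ZMod 2) W < Cardinal.aleph0)
  rw [hn] at hd
  have hd' : d₀ ≤ n + 3 := by exact_mod_cast hd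
  obtain ⟨σ, hσ, hσX⟩ := emb_free hX W hn 3
  set Y : A →* SpecialLinearGroup (Fin 2) Ω := (SpecialLinearGroup.map (σ : W →+* Ω)).comp y with hY
  have hY1 : ∀ a, y a = 1 → Y a = 1 := by
    intro a ha
    rw [hY, MonoidHom.comp_apply, ha, map_one]
  have hX0 : X 0 ≠ 0 := hX.ne_zero 0
  obtain ⟨t, ht0, ht1, ht2⟩ := exists_free3 (X 0) (X 1) (X 2) hX0
  obtain ⟨q, hqA, hqs⟩ := h.extSL hN Y t (by rw [hY1 _ hm, hY1 _ hp]; group)
  have hsub : entsR Y ⊆ cl (entsR q) := by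
    rintro _ ⟨a, i, j, rfl⟩
    rw [← hqA]
    exact subset_cl _ ⟨(a : Γ), i, j, rfl⟩
  have hqe : ∀ i j, t.1 i j ∈ cl (entsR q) := by
    intro i j
    rw [← hqs]
    exact subset_cl _ ⟨s, i, j, rfl⟩
  have hrk : ((n + 3 : ℕ) : ℕ∞) ≤ rk (ZMod 2) (entsR q) := by
    refine le_rk_of_X hX fun j hj => ?_
    rcases Nat.lt_or_ge j 3 with h3 | h3
    · interval_cases j
      · rw [← ht0]; exact hqe _ _
      · rw [← ht1]; exact hqe _ _
      · rw [← ht2]; exact hqe _ _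
    · obtain ⟨x, hx⟩ := hσX (j - 3) (by omega)
      rw [show 3 + (j - 3) = j by omega] at hx
      rw [← hx]
      exact hy.val_mem σ (fun a i j => hsub ⟨a, i, j, rfl⟩) x
  have h1 := transc_of_rk P hT q (le_trans (by exact_mod_cast hd') hrk)
  apply h1
  have h2 : q zm = Y ⟨zm, h.mm⟩ := hqA ⟨zm, h.mm⟩
  rw [h2, hY1 _ hm, tr_one]
  exact isAlgebraic_zero

end chain

end Pool.Agent.SuCH
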