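import Pool.Agent.Lib.MP_305fdd_al.Su.CH.Chain

/-!
# MP_305fdd_al, surface groups, block CM-HNN: cycles of length five
-/

set_option autoImplicit false
set_option linter.unusedSectionVars false

namespace Pool.Agent.SuCH

open Matrix Pool.Agent.FrN Pool.Agent.SuUN Pool.Agent.SurfCnt Pool.Agent.SuFI
open Pool.Agent.Lib.MP_305fdd_al

section cyc

variable {Γ F D : Type} [Group Γ] [Field F] [Algebra (ZMod 2) F] [CommRing D] [Algebra (ZMod 2) D]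
  {ρ : Γ →* SpecialLinearGroup (Fin 2) F} {A : Subgroup Γ} {zm zp s : Γ} {N d₀ : ℕ}
  {y : A →* SpecialLinearGroup (Fin 2) D} {φ : D →ₐ[ZMod 2] F}
  {Ω : Type} [Field Ω] [Algebra (ZMod 2) Ω] [IsAlgClosed Ω] {X : ℕ → Ω}

theorem isConj_of_tr {M M' : SpecialLinearGroup (Fin 2) Ω} (hM : M ≠ 1) (hM' : M' ≠ 1)
    (htr : M.1.trace = M'.1.trace) : IsConj M M' := by
  obtain ⟨t, -, ht⟩ := exists_conj (⊤ : Subfield Ω) (fun _ _ => trivial) hM hM' htr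
    (fun _ _ => trivial) (fun _ _ => trivial)
  exact isConj_iff.2 ⟨t, ht⟩

theorem ne_one_of_tr {M : SpecialLinearGroup (Fin 2) Ω} {x : Ω} (hx : x ≠ 0)
    (h : M.1.trace = x) : M ≠ 1 := by
  rintro rfl
  rw [tr_one] at h
  exact hx h.symm

/-- paths of length two to the generic class -/
theorem out (C : Cpt A D y φ (ρ.comp A.subtype)) (P : Pg d₀ ρ) (h : HG N A zm zp s)
    (hN : 2 ≤ N) (hT : Transcendental (ZMod 2) ((ρ zm).1.trace))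
    (hne : (y ⟨zm, h.mm⟩).1.trace ≠ (y ⟨zp, h.mp⟩).1.trace)
    (hX : AlgebraicIndependent (ZMod 2) X)
    (hpt : ∀ τ : Ω, IsAlgebraic (ZMod 2) τ →
      ∃ r : Γ →* SpecialLinearGroup (Fin 2) Ω, r zm ≠ 1 ∧ (r zm).1.trace = τ)
    {M : SpecialLinearGroup (Fin 2) Ω} (hM : IsAlgebraic (ZMod 2) M.1.trace) :
    ∃ Y1 Y2 : A →* SpecialLinearGroup (Fin 2) Ω, IsConj M (Y1 ⟨zm, h.mm⟩) ∧
      IsConj (Y1 ⟨zp, h.mp⟩) (Y2 ⟨zm, h.mm⟩) ∧ (Y2 ⟨zp, h.mp⟩).1.trace = X 0 := by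
  have hX0 : X 0 ≠ 0 := hX.ne_zero 0
  obtain ⟨l, hl⟩ := chain_loop P hT hX
  have hl' : (l zp).1.trace = X 0 := by rw [← tr_rel h l, hl]
  by_cases h1 : M = 1
  · obtain ⟨Y, h2, h3, h4⟩ := chain_triv C P h hN hT hne hX
    rcases h4 with h4 | h4
    · refine ⟨Y, l.comp A.subtype, ?_, ?_, hl'⟩
      · rw [h1, h2]
      · exact isConj_of_tr h3 (ne_one_of_tr hX0 hl) (h4.trans hl.symm)
    · obtain ⟨r, hr1, hr2⟩ := hpt 0 isAlgebraic_zero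
      obtain ⟨Y', h5, h6, h7⟩ := chain_one C P h hN hT hne hX isAlgebraic_zero r hr1 hr2
      refine ⟨Y, Y', ?_, ?_, h7⟩
      · rw [h1, h2]
      · exact isConj_of_tr h3 h5 (h4.trans h6.symm)
  · obtain ⟨r, hr1, hr2⟩ := hpt _ hM
    obtain ⟨Y, h5, h6, h7⟩ := chain_one C P h hN hT hne hX hM r hr1 hr2
    refine ⟨Y, l.comp A.subtype, ?_, ?_, hl'⟩
    · exact isConj_of_tr h1 h5 h6.symm
    · exact isConj_of_tr (ne_one_of_tr hX0 h7) (ne_one_of_tr hX0 hl) (h7.trans hl.symm)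

/-- CYCLES of length five through a given representation -/
theorem exists_cycle (C : Cpt A D y φ (ρ.comp A.subtype)) (P : Pg d₀ ρ) (h : HG N A zm zp s)
    (hN : 2 ≤ N) (hT : Transcendental (ZMod 2) ((ρ zm).1.trace))
    (hne : (y ⟨zm, h.mm⟩).1.trace ≠ (y ⟨zp, h.mp⟩).1.trace)
    (hX : AlgebraicIndependent (ZMod 2) X)
    (hpt : ∀ τ : Ω, IsAlgebraic (ZMod 2) τ →
      ∃ r : Γ →* SpecialLinearGroup (Fin 2) Ω, r zm ≠ 1 ∧ (r zm).1.trace = τ)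
    (hpt' : ∀ τ : Ω, IsAlgebraic (ZMod 2) τ →
      ∃ r : Γ →* SpecialLinearGroup (Fin 2) Ω, r zp ≠ 1 ∧ (r zp).1.trace = τ)
    (y₀ : A →* SpecialLinearGroup (Fin 2) Ω)
    (h₀ : ∀ a, IsAlgebraic (ZMod 2) (y₀ a).1.trace) :
    ∃ (f : ZMod 5 → (A →* SpecialLinearGroup (Fin 2) Ω)) (t : ZMod 5 → SpecialLinearGroup (Fin 2) Ω),
      f 0 = y₀ ∧ ∀ i, t i * f (i + 1) ⟨zm, h.mm⟩ * (t i)⁻¹ = f i ⟨zp, h.mp⟩ := by
  have hX0 : X 0 ≠ 0 := hX.ne_zero 0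
  obtain ⟨Y1, Y2, a1, a2, a3⟩ := out C P h hN hT hne hX hpt (h₀ ⟨zp, h.mp⟩)
  obtain ⟨Z1, Z2, b1, b2, b3⟩ := out C P h.symm hN (by rw [← tr_rel h ρ]; exact hT) hne.symm hX
    hpt' (h₀ ⟨zm, h.mm⟩)
  let f : ZMod 5 → (A →* SpecialLinearGroup (Fin 2) Ω) :=
    (![y₀, Y1, Y2, Z2, Z1] : Fin 5 → (A →* SpecialLinearGroup (Fin 2) Ω))
  have hc : ∀ i : ZMod 5, IsConj (f (i + 1) ⟨zm, h.mm⟩) (f i ⟨zp, h.mp⟩) := by
    intro i
    fin_cases i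
    · exact a1.symm
    · exact a2.symm
    · exact isConj_of_tr (ne_one_of_tr hX0 b3) (ne_one_of_tr hX0 a3) (b3.trans a3.symm)
    · exact b2
    · exact b1
  choose t ht using fun i => isConj_iff.1 (hc i)
  exact ⟨f, t, rfl, ht⟩

end cyc

end Pool.Agent.SuCH
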