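import Pool.Agent.Lib.MP_305fdd_al.Su.CH.Rk

/-!
# MP_305fdd_al, surface groups, block CM-HNN: embeddings with prescribed values, injectivity
-/

set_option autoImplicit false

namespace Pool.Agent.SuCH

open MvPolynomial

/-- polynomials in an independent family as coefficients -/
theorem alg_aeval {κ E : Type} [Field κ] [CommRing E] [Algebra κ E] {J : Type} {v : J → E}
    (hv : AlgebraicIndependent κ v) (z : E) :
    (∃ q : Polynomial (MvPolynomial J κ), q ≠ 0 ∧
      q.eval₂ ((aeval v : MvPolynomial J κ →ₐ[κ] E) : MvPolynomial J κ →+* E) z = 0) ↔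
    IsAlgebraic (Algebra.adjoin κ (Set.range v)) z := by
  constructor
  · rintro ⟨q, hq, hq0⟩
    refine ⟨q.map (hv.aevalEquiv : MvPolynomial J κ →+* Algebra.adjoin κ (Set.range v)), ?_, ?_⟩
    · rwa [Ne, Polynomial.map_eq_zero_iff hv.aevalEquiv.injective]
    · rw [Polynomial.aeval_def, Polynomial.eval₂_map, ← hq0]
      congr 1
  · rintro ⟨q, hq, hq0⟩
    refine ⟨q.map (hv.aevalEquiv.symm : Algebra.adjoin κ (Set.range v) →+* MvPolynomial J κ), ?_, ?_⟩
    · rwa [Ne, Polynomial.map_eq_zero_iff hv.aevalEquiv.symm.injective]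
    · rw [Polynomial.eval₂_map, ← hq0, Polynomial.aeval_def]
      congr 1
      refine RingHom.ext fun p => ?_
      obtain ⟨p, rfl⟩ := hv.aevalEquiv.surjective p
      change aeval v (hv.aevalEquiv.symm (hv.aevalEquiv p)) = _
      rw [AlgEquiv.symm_apply_apply]
      simp

/-- EMBEDDINGS with prescribed values on a basis of transcendence -/
theorem exists_emb {κ W E : Type} [Field κ] [CommRing W] [IsDomain W] [Algebra κ W] [Field E]
    [Algebra κ E] [IsAlgClosed E] {J : Type} {w : J → W} (hw : IsTranscendenceBasis κ w)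
    {v : J → E} (hv : AlgebraicIndependent κ v) :
    ∃ σ : W →ₐ[κ] E, Function.Injective σ ∧ (∀ j, σ (w j) = v j) ∧
      ∀ x, IsAlgebraic (Algebra.adjoin κ (Set.range v)) (σ x) := by
  let K := FractionRing W
  have hWK : Algebra.IsAlgebraic W K := IsLocalization.isAlgebraic K (nonZeroDivisors W)
  have hw' : IsTranscendenceBasis κ (algebraMap W K ∘ w) := hw.algebraMap_comp
  let f : MvPolynomial J κ →ₐ[κ] K := aeval (algebraMap W K ∘ w)
  let h : MvPolynomial J κ →ₐ[κ] E := aeval v
  let _ : Algebra (MvPolynomial J κ) K := (f : MvPolynomial J κ →+* K).toAlgebra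
  let _ : Algebra (MvPolynomial J κ) E := (h : MvPolynomial J κ →+* E).toAlgebra
  have hf : Function.Injective (algebraMap (MvPolynomial J κ) K) := hw'.1
  have hh : Function.Injective (algebraMap (MvPolynomial J κ) E) := hv
  have : FaithfulSMul (MvPolynomial J κ) K := (faithfulSMul_iff_algebraMap_injective _ _).2 hf
  have : FaithfulSMul (MvPolynomial J κ) E := (faithfulSMul_iff_algebraMap_injective _ _).2 hh
  have halg : Algebra.IsAlgebraic (MvPolynomial J κ) K := by
    constructor
    intro z
    obtain ⟨q, hq, hq0⟩ := (alg_aeval hw'.1 z).2 (hw'.isAlgebraic.isAlgebraic z)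
    exact ⟨q, hq, hq0⟩
  let σ : K →ₐ[MvPolynomial J κ] E := IsAlgClosed.lift
  have hσ : ∀ p, σ (f p) = h p := fun p => σ.commutes p
  refine ⟨{ (σ : K →+* E).comp (algebraMap W K) with
    commutes' := fun c => ?_ }, ?_, ?_, ?_⟩
  · change σ (algebraMap W K (algebraMap κ W c)) = algebraMap κ E c
    rw [← IsScalarTower.algebraMap_apply κ W K, ← AlgHom.commutes f c, hσ, AlgHom.commutes]
  · exact (RingHom.injective (σ : K →+* E)).comp (IsFractionRing.injective W K)
  · intro j
    change σ (algebraMap W K (w j)) = v j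
    have h1 := hσ (X j)
    simp only [f, h, aeval_X, Function.comp_apply] at h1
    exact h1
  · intro x
    rw [← alg_aeval hv]
    obtain ⟨q, hq, hq0⟩ := halg.isAlgebraic (algebraMap W K x)
    refine ⟨q, hq, ?_⟩
    change Polynomial.eval₂ (algebraMap (MvPolynomial J κ) E) (σ (algebraMap W K x)) q = 0
    rw [← Polynomial.aeval_def, Polynomial.aeval_algHom_apply, hq0, map_zero]

/-- a homomorphism which does not lower the degree of transcendence is injective -/
theorem inj_of_trdeg {κ O B : Type} [Field κ] [CommRing O] [IsDomain O] [Algebra κ O] [CommRing B]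
    [IsDomain B] [Algebra κ B] (φ : O →ₐ[κ] B) {n : ℕ} (h1 : Algebra.trdeg κ O ≤ n)
    (h2 : (n : Cardinal) ≤ Algebra.trdeg κ φ.range) : Function.Injective φ := by
  classical
  -- independent elements of the image
  obtain ⟨s, hs⟩ := exists_isTranscendenceBasis κ φ.range
  have h3 : (n : Cardinal) ≤ Cardinal.mk s := by rwa [hs.cardinalMk_eq_trdeg]
  obtain ⟨t, ht⟩ := Cardinal.le_mk_iff_exists_set.1 h3
  obtain ⟨e⟩ : Nonempty (Fin n ≃ t) := by
    rw [← Cardinal.eq]
    simp [ht]
  let y : Fin n → φ.range := fun i => (e i).1.1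
  have hy : AlgebraicIndependent κ y :=
    hs.1.comp (fun i => (e i).1) (Subtype.val_injective.comp e.injective)
  choose x hx using fun i => (y i).2
  have hy' : AlgebraicIndependent κ (fun i => φ (x i)) := by
    have h4 := hy.map' (f := φ.range.val) Subtype.val_injective
    have h5 : (fun i => φ (x i)) = φ.range.val ∘ y := funext fun i => hx i
    rw [h5]
    exact h4
  have hxi : AlgebraicIndependent κ x := AlgebraicIndependent.of_comp φ hy'
  have hbase : IsTranscendenceBasis κ x := by
    refine hxi.isTranscendenceBasis_of_trdeg_le_of_finite ?_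
    simpa using h1
  rw [injective_iff_map_eq_zero]
  intro a ha
  by_contra ha0
  have halg := hbase.isAlgebraic.isAlgebraic a
  obtain ⟨r, hr, hd⟩ := halg.exists_nonzero_dvd (mem_nonZeroDivisors_of_ne_zero ha0)
  obtain ⟨c, hc⟩ := hd
  obtain ⟨p, hp⟩ := hxi.aevalEquiv.surjective r
  have hp0 : p ≠ 0 := by
    rintro rfl
    rw [map_zero] at hp
    exact hr hp.symm
  apply hp0
  apply hy'
  have h5 : aeval (fun i => φ (x i)) p = φ (aeval x p) := by
    rw [← AlgHom.comp_apply]
    congr 1
    ext i
    simp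
  have h6 : aeval x p = algebraMap _ O r := by
    rw [← hp]
    exact (hxi.algebraMap_aevalEquiv p).symm
  rw [h5, h6, hc, map_mul, ha, zero_mul, map_zero]

end Pool.Agent.SuCH
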