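import Mathlib

/-!
# MP_305fdd_al, surface groups, block CM-HNN: the principal ideal theorem for affine domains

`kl`: let `D` be a finitely generated domain over a field, `m` a prime, `f ∈ m`. Then there is a prime
`P ≤ m` which contains `f` and `trdeg D ≤ trdeg (D / P) + 1`.
-/

set_option autoImplicit false

namespace Pool.Agent.SuCH

open MvPolynomial

/-- modulo an irreducible polynomial all variables but one are algebraically independent -/
theorem indep_mod {k : Type} [Field k] {d : ℕ} {π : MvPolynomial (Fin d) k} (h0 : π ≠ 0)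
    (hu : ¬ IsUnit π) : ∃ j : Fin d, ∀ g : MvPolynomial {i : Fin d // i ≠ j} k,
      π ∣ rename Subtype.val g → g = 0 := by
  have h1 : ∃ j, j ∈ π.vars := by
    by_contra h
    push Not at h
    have h2 : π.vars = ∅ := Finset.eq_empty_of_forall_notMem h
    rw [vars_eq_empty_iff_eq_C] at h2
    apply hu
    rw [h2]
    refine IsUnit.map _ (isUnit_iff_ne_zero.2 ?_)
    intro h3
    rw [h3, C_0] at h2
    exact h0 h2
  obtain ⟨j, hj⟩ := h1
  refine ⟨j, ?_⟩
  rintro g ⟨h, hh⟩
  by_contra hg
  have hG : rename (Subtype.val : {i : Fin d // i ≠ j} → Fin d) g ≠ 0 := by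
    intro h2
    exact hg ((rename_injective _ Subtype.val_injective) (h2.trans (map_zero _).symm))
  have hh0 : h ≠ 0 := by
    rintro rfl
    rw [mul_zero] at hh
    exact hG hh
  have h2 : degreeOf j (rename (Subtype.val : {i : Fin d // i ≠ j} → Fin d) g) = 0 := by
    by_contra h3
    have h4 := mem_vars_iff_degreeOf_ne_zero.2 h3
    have h5 := vars_rename (Subtype.val : {i : Fin d // i ≠ j} → Fin d) g h4
    obtain ⟨i, _, hi⟩ := Finset.mem_image.1 h5
    exact i.2 hi
  rw [hh, degreeOf_mul_eq h0 hh0] at h2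
  exact (mem_vars_iff_degreeOf_ne_zero.1 hj) (by omega)

/-- the principal ideal theorem for affine domains -/
theorem kl {k D : Type} [Field k] [CommRing D] [IsDomain D] [Algebra k D] [Algebra.FiniteType k D]
    (m : Ideal D) [hm : m.IsPrime] {f : D} (hf : f ∈ m) :
    ∃ P : Ideal D, P.IsPrime ∧ P ≤ m ∧ f ∈ P ∧
      Algebra.trdeg k D ≤ Algebra.trdeg k (D ⧸ P) + 1 := by
  classical
  have hN : IsNoetherianRing D := Algebra.FiniteType.isNoetherianRing k D
  by_cases hf0 : f = 0
  · subst hf0
    refine ⟨⊥, Ideal.isPrime_bot, bot_le, rfl, ?_⟩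
    have e : (D ⧸ (⊥ : Ideal D)) ≃ₐ[k] D := AlgEquiv.quotientBot k D
    rw [e.trdeg_eq]
    exact self_le_add_right _ _
  obtain ⟨s, g, hgi, hgf⟩ := exists_finite_inj_algHom_of_fg k D
  obtain ⟨P, hP, hPm⟩ := Ideal.exists_minimalPrimes_le
    (show Ideal.span {f} ≤ m from (Ideal.span_singleton_le_iff_mem m).2 hf)
  have hPp : P.IsPrime := hP.1.1
  have hfP : f ∈ P := hP.1.2 (Ideal.mem_span_singleton_self f)
  refine ⟨P, hPp, hPm, hfP, ?_⟩
  let := g.toRingHom.toAlgebra
  have hint : Algebra.IsIntegral (MvPolynomial (Fin s) k) D := ⟨hgf.to_isIntegral⟩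
  have hfs : FaithfulSMul (MvPolynomial (Fin s) k) D :=
    (faithfulSMul_iff_algebraMap_injective _ _).2 hgi
  have hgm : ∀ x, algebraMap (MvPolynomial (Fin s) k) D x = g x := fun _ => rfl
  have hht : P.height ≤ 1 := Ideal.height_le_one_of_isPrincipal_of_mem_minimalPrimes _ P hP
  -- the prime below
  have hP0 : P ≠ ⊥ := by
    intro h
    rw [h] at hfP
    exact hf0 hfP
  have hp0 : P.comap (algebraMap (MvPolynomial (Fin s) k) D) ≠ ⊥ := by
    intro h
    exact hP0 (Ideal.eq_bot_of_comap_eq_bot h)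
  obtain ⟨x, hxP, hx0⟩ := Submodule.exists_mem_ne_zero_of_ne_bot hp0
  have hpp : (P.comap (algebraMap (MvPolynomial (Fin s) k) D)).IsPrime := Ideal.comap_isPrime _ _
  obtain ⟨π, hπP, hπ⟩ := hpp.exists_mem_prime_of_ne_bot hp0
  have hπp : (Ideal.span {π}).IsPrime := (Ideal.span_singleton_prime hπ.ne_zero).2 hπ
  have hle : Ideal.span {π} ≤ P.comap (algebraMap (MvPolynomial (Fin s) k) D) :=
    (Ideal.span_singleton_le_iff_mem _).2 hπP
  have heq : P.comap (algebraMap (MvPolynomial (Fin s) k) D) = Ideal.span {π} := by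
    by_contra hne
    have hlt : Ideal.span {π} < P.comap (algebraMap (MvPolynomial (Fin s) k) D) :=
      lt_of_le_of_ne hle (Ne.symm hne)
    have hlo : P.LiesOver (P.comap (algebraMap (MvPolynomial (Fin s) k) D)) := ⟨rfl⟩
    obtain ⟨Q, hQP, hQp, hQ⟩ := Ideal.exists_ideal_lt_liesOver_of_lt (p := Ideal.span {π})
      (q := P.comap (algebraMap (MvPolynomial (Fin s) k) D)) P hlt
    have hQ0 : Q ≠ ⊥ := by
      rintro rfl
      have h1 := hQ.over
      have h2 : π ∈ (⊥ : Ideal D).comap (algebraMap (MvPolynomial (Fin s) k) D) := by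
        have : (⊥ : Ideal D).under (MvPolynomial (Fin s) k) =
          (⊥ : Ideal D).comap (algebraMap (MvPolynomial (Fin s) k) D) := rfl
        rw [← this, ← h1]
        exact Ideal.mem_span_singleton_self π
      rw [Ideal.mem_comap, Ideal.mem_bot, hgm] at h2
      exact hπ.ne_zero (hgi (h2.trans (map_zero _).symm))
    have h1 : Q.height ≠ 0 := fun h => hQ0 (Ideal.height_eq_zero_iff_eq_bot.1 h)
    have h2 := Ideal.height_add_one_le_of_lt_of_isPrime hQP
    have h3 : (1 : ℕ∞) ≤ Q.height := Order.one_le_iff_ne_zero.2 h1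
    have h4 : (1 : ℕ∞) + 1 ≤ 1 := (add_le_add_left h3 1).trans (h2.trans hht)
    exact absurd h4 (by decide)
  -- the degrees of transcendence
  obtain ⟨j, hj⟩ := indep_mod hπ.ne_zero hπ.not_isUnit
  have hnt : Nontrivial (D ⧸ P) := Ideal.Quotient.nontrivial_iff.2 hPp.ne_top
  have h1 : AlgebraicIndependent k
      (fun i : {i : Fin s // i ≠ j} => Ideal.Quotient.mk P (g (X i.1))) := by
    rw [algebraicIndependent_iff]
    intro q hq
    apply hj
    have h2 : aeval (fun i : {i : Fin s // i ≠ j} => Ideal.Quotient.mk P (g (X i.1))) q =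
        Ideal.Quotient.mk P (g (rename Subtype.val q)) := by
      have h3 : aeval (fun i : {i : Fin s // i ≠ j} => Ideal.Quotient.mk P (g (X i.1))) =
          ((Ideal.Quotient.mkₐ k P).comp g).comp (rename Subtype.val) := by
        ext i
        simp
      rw [h3]
      rfl
    rw [h2, Ideal.Quotient.eq_zero_iff_mem] at hq
    rw [← Ideal.mem_span_singleton, ← heq, Ideal.mem_comap, hgm]
    exact hq
  have h2 : Algebra.trdeg k D ≤ s := by
    have h3 : Algebra.IsAlgebraic (Algebra.adjoin k (Set.range fun i => g (X i))) D := by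
      have h4 : Algebra.adjoin k (Set.range fun i => g (X i)) = g.range := by
        have h5 : (Set.range fun i => g (X i)) = g '' Set.range X := by
          rw [← Set.range_comp]; rfl
        rw [h5, ← AlgHom.map_adjoin, MvPolynomial.adjoin_range_X, Algebra.map_top]
      rw [h4]
      constructor
      intro x
      obtain ⟨q, hq, hq0⟩ := (Algebra.IsIntegral.isIntegral (R := MvPolynomial (Fin s) k) x)
      refine ⟨q.map g.rangeRestrict.toRingHom, ?_, ?_⟩
      · exact (hq.map _).ne_zero
      · rw [Polynomial.aeval_def, Polynomial.eval₂_map]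
        exact hq0
    have h4 := Algebra.IsAlgebraic.trdeg_le_cardinalMk k (Set.range fun i => g (X i)) (A := D)
    refine h4.trans ?_
    refine (Cardinal.mk_range_le).trans ?_
    simp
  have h3 := h1.cardinalMk_le_trdeg
  refine h2.trans ?_
  have h4 : (s : Cardinal) ≤ Cardinal.mk {i : Fin s // i ≠ j} + 1 := by
    rw [Cardinal.mk_fintype]
    have : s ≤ Fintype.card {i : Fin s // i ≠ j} + 1 := by
      rw [Fintype.card_subtype_compl]
      have := j.2
      simp
      omega
    exact_mod_cast this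
  exact h4.trans (by gcongr)

end Pool.Agent.SuCH
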