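import Pool.Agent.Lib.MP_305fdd_al.Su.CH.Num

/-!
# MP_305fdd_al, surface groups, block CM-HNN: characters with prescribed values at the edge elements
-/

set_option autoImplicit false
set_option linter.unusedSectionVars false

open scoped commutatorElement

namespace Pool.Agent.SuCH

open Matrix Pool.Agent.Lib.MP_305fdd_al Pool.Agent.MP_305fdd_al Pool.Agent.SurfCnt Pool.Agent.SuD
  Pool.Agent.FrAsm Pool.Agent.SuUN Pool.Agent.SuFI Pool.Agent.FrS

/-- homomorphisms to finite groups are finite in number -/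
theorem finite_hom' {A Q : Type} [Group A] [Group.FG A] [Group Q] [Finite Q] : Finite (A →* Q) := by
  obtain ⟨S, hS⟩ := (inferInstance : Group.FG A).out
  refine Finite.of_injective (fun f : A →* Q => fun s : S => f s.1) ?_
  intro f f' he
  refine MonoidHom.eq_of_eqOn_dense hS ?_
  intro s hs
  exact congrFun he ⟨s, hs⟩

/-- crossed homomorphisms for the trivial action -/
def crsOne' (L Q P : Type) [Group L] [Group Q] [AddCommGroup P] [DistribMulAction Q P] :
    Crs (1 : L →* Q) P ≃ (L →* Multiplicative P) where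
  toFun c := MonoidHom.mk' (fun x => Multiplicative.ofAdd (c.1 x)) (fun x y => by
    rw [c.2 x y, MonoidHom.one_apply, one_smul]
    rfl)
  invFun f := ⟨fun x => (f x).toAdd, fun x y => by
    change (f (x * y)).toAdd = (f x).toAdd + (1 : Q) • (f y).toAdd
    rw [map_mul, one_smul]
    rfl⟩
  left_inv _ := rfl
  right_inv _ := rfl

section num

variable {Γ Λ : Type} [Group Γ] [Group Λ] {π : Λ →* Γ} {N g : ℕ} {A : Subgroup Γ} {zm zp s : Γ}

theorem nontriv_char : ∃ c : (GaloisField 2 2)ˣ, c ≠ 1 := by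
  have hf : Finite (GaloisField 2 2) := by
    apply Nat.finite_of_card_ne_zero
    rw [GaloisField.card 2 2 (by norm_num)]
    norm_num
  have h1 : Nat.card (GaloisField 2 2)ˣ = 3 := by
    have := Fintype.ofFinite (GaloisField 2 2)
    rw [Nat.card_units, GaloisField.card 2 2 (by norm_num)]
    norm_num
  by_contra hcon
  push Not at hcon
  have h2 : Subsingleton (GaloisField 2 2)ˣ := ⟨fun a b => by rw [hcon a, hcon b]⟩
  have h3 : Nat.card (GaloisField 2 2)ˣ ≤ 1 := Finite.card_le_one_iff_subsingleton.2 h2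
  omega

/-- the homomorphisms to `ℤ/2` -/
theorem num_two (h : HG N A zm zp s) (hN : 2 ≤ N) (Φ : NatBij Λ (SurfG g)) (hg : 1 ≤ g)
    (hF : Fac π) (hA : Group.FG A) :
    (∀ f : A →* Multiplicative (ZMod 2), f ⟨zm, h.mm⟩ = f ⟨zp, h.mp⟩) ∧
    (∃ f : A →* Multiplicative (ZMod 2), f ⟨zm, h.mm⟩ ≠ 1) ∧
    Nat.card (A →* Multiplicative (ZMod 2)) = 2 ^ (2 * g - 1) := by
  classical
  let κ := GaloisField 2 2
  have hcard : Nat.card κ = 4 := by
    rw [GaloisField.card 2 2 (by norm_num)]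
    norm_num
  have hf : Finite κ := by
    apply Nat.finite_of_card_ne_zero
    rw [hcard]
    norm_num
  obtain ⟨c, hc⟩ := nontriv_char
  have hc1 : (c : κ) - 1 ≠ 0 := by
    intro h0
    apply hc
    apply Units.ext
    rw [Units.val_one]
    exact sub_eq_zero.1 h0
  have hfin : Finite (Crs (1 : A →* κˣ) κ) := by
    have : Finite (A →* Multiplicative κ) := finite_hom'
    exact Finite.of_equiv _ (crsOne' A κˣ κ).symm
  obtain ⟨h1, h2, h3⟩ := num (P := κ) h hN Φ hF hfin (emb_AF κ) c (by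
    have he : (fun p : κ => c • p - p) = fun p => ((c : κ) - 1) * p := by
      funext p
      rw [Units.smul_def, smul_eq_mul, sub_mul, one_mul]
    rw [he]
    exact mulLeft_bijective₀ _ hc1)
  have hrank : Module.finrank (ZMod 2) κ = 2 := by
    have h4 := Module.natCard_eq_pow_finrank (K := ZMod 2) (V := κ)
    rw [hcard, Nat.card_zmod] at h4
    have h5 : (2 : ℕ) ^ 2 = 2 ^ Module.finrank (ZMod 2) κ := by rw [← h4]; norm_num
    exact (Nat.pow_right_injective (le_refl 2) h5).symm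
  refine ⟨?_, ?_, ?_⟩
  · intro f
    let δ : Crs (1 : A →* κˣ) κ := ⟨fun x => algebraMap (ZMod 2) κ (f x).toAdd, fun x y => by
      change algebraMap (ZMod 2) κ (f (x * y)).toAdd = algebraMap (ZMod 2) κ (f x).toAdd +
        (1 : κˣ) • algebraMap (ZMod 2) κ (f y).toAdd
      rw [one_smul, map_mul, toAdd_mul, map_add]⟩
    have h4 := h1 δ
    have h5 : (f ⟨zm, h.mm⟩).toAdd = (f ⟨zp, h.mp⟩).toAdd := (algebraMap (ZMod 2) κ).injective h4
    exact Multiplicative.toAdd.injective h5
  · obtain ⟨δ, hδ⟩ := h2 1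
    obtain ⟨l, hl⟩ : ∃ l : κ →ₗ[ZMod 2] ZMod 2, l 1 ≠ 0 := by
      by_contra hcon
      push Not at hcon
      exact one_ne_zero ((Module.forall_dual_apply_eq_zero_iff (ZMod 2) (1 : κ)).1 hcon)
    refine ⟨MonoidHom.mk' (fun x => Multiplicative.ofAdd (l (δ.1 x))) (fun x y => by
      rw [δ.2 x y, MonoidHom.one_apply, one_smul, map_add]
      rfl), ?_⟩
    intro h0
    apply hl
    have h4 : l (δ.1 ⟨zm, h.mm⟩) = 0 := congrArg Multiplicative.toAdd h0
    rwa [hδ] at h4
  · have h4 : Nat.card (Crs (1 : A →* κˣ) κ) = Nat.card (A →* Multiplicative (ZMod 2)) ^ 2 := by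
      have e0 : κ ≃ₗ[ZMod 2] (Fin 2 → ZMod 2) := by
        refine LinearEquiv.ofFinrankEq _ _ ?_
        rw [hrank, Module.finrank_fin_fun]
      rw [Nat.card_congr (crsOne' A κˣ κ), sq, ← Nat.card_prod]
      refine Nat.card_congr (Equiv.ofBijective (fun f : A →* Multiplicative κ =>
        ((MonoidHom.mk' (fun x => Multiplicative.ofAdd (e0 (f x).toAdd 0)) (fun x y => by
            rw [map_mul, toAdd_mul, map_add]
            rfl),
          MonoidHom.mk' (fun x => Multiplicative.ofAdd (e0 (f x).toAdd 1)) (fun x y => by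
            rw [map_mul, toAdd_mul, map_add]
            rfl)) : (A →* Multiplicative (ZMod 2)) × (A →* Multiplicative (ZMod 2)))) ⟨?_, ?_⟩)
      · intro f f' he
        rw [Prod.mk.injEq] at he
        ext x
        apply Multiplicative.toAdd.injective
        apply e0.injective
        funext i
        fin_cases i
        · exact congrArg Multiplicative.toAdd (DFunLike.congr_fun he.1 x)
        · exact congrArg Multiplicative.toAdd (DFunLike.congr_fun he.2 x)
      · rintro ⟨a, b⟩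
        refine ⟨MonoidHom.mk' (fun x => Multiplicative.ofAdd
          (e0.symm ![(a x).toAdd, (b x).toAdd])) (fun x y => ?_), ?_⟩
        · have h5 : (![(a (x * y)).toAdd, (b (x * y)).toAdd] : Fin 2 → ZMod 2) =
              ![(a x).toAdd, (b x).toAdd] + ![(a y).toAdd, (b y).toAdd] := by
            funext i
            fin_cases i
            · exact congrArg Multiplicative.toAdd (a.map_mul x y)
            · exact congrArg Multiplicative.toAdd (b.map_mul x y)
          rw [h5, (e0.symm).map_add]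
          rfl
        · refine Prod.ext (MonoidHom.ext fun x => ?_) (MonoidHom.ext fun x => ?_)
          · apply Multiplicative.toAdd.injective
            change e0 (e0.symm ![(a x).toAdd, (b x).toAdd]) 0 = _
            rw [LinearEquiv.apply_symm_apply]
            rfl
          · apply Multiplicative.toAdd.injective
            change e0 (e0.symm ![(a x).toAdd, (b x).toAdd]) 1 = _
            rw [LinearEquiv.apply_symm_apply]
            rfl
    have h3' : 4 * Nat.card (A →* Multiplicative (ZMod 2)) ^ 2 = 4 ^ (2 * g) := by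
      rw [← h4, ← hcard]
      exact h3
    obtain ⟨n, hn⟩ : ∃ n, 2 * g = n + 1 := ⟨2 * g - 1, by omega⟩
    have h5 : 2 * g - 1 = n := by omega
    rw [h5]
    rw [hn, pow_succ, mul_comm] at h3'
    have h6 : Nat.card (A →* Multiplicative (ZMod 2)) ^ 2 = 4 ^ n :=
      Nat.eq_of_mul_eq_mul_right (by norm_num) h3'
    have h7 : (4 : ℕ) ^ n = (2 ^ n) ^ 2 := by
      rw [← pow_mul, mul_comm, pow_mul]
      norm_num
    rw [h7] at h6
    exact Nat.pow_left_injective two_ne_zero h6

/-- the homomorphisms to `ℤ/ℓ` -/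
theorem num_odd (h : HG N A zm zp s) (hN : 2 ≤ N) (Φ : NatBij Λ (SurfG g))
    (hF : Fac π) (hA : Group.FG A) (ℓ : ℕ) [hℓ : Fact ℓ.Prime] (hodd : Odd ℓ) :
    ∃ f : Γ →* Multiplicative (ZMod ℓ), f zm = Multiplicative.ofAdd 1 := by
  classical
  have : NeZero ℓ := ⟨hℓ.out.ne_zero⟩
  have hfin : Finite (Crs (1 : A →* ℤˣ) (ZMod ℓ)) := by
    have : Finite (Multiplicative (ZMod ℓ)) := inferInstanceAs (Finite (ZMod ℓ))
    have : Finite (A →* Multiplicative (ZMod ℓ)) := finite_hom'
    exact Finite.of_equiv _ (crsOne' A ℤˣ (ZMod ℓ)).symm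
  have h2 : (-2 : ZMod ℓ) ≠ 0 := by
    intro h0
    have h1 : ((2 : ℕ) : ZMod ℓ) = 0 := by
      push_cast
      exact neg_eq_zero.1 h0
    rw [ZMod.natCast_eq_zero_iff] at h1
    have h3 := (Nat.prime_dvd_prime_iff_eq hℓ.out Nat.prime_two).1 h1
    rw [h3] at hodd
    exact absurd hodd (by decide)
  obtain ⟨h1, h3, -⟩ := num (P := ZMod ℓ) h hN Φ hF hfin (emb_dih ℓ hodd) (-1) (by
    have he : (fun p : ZMod ℓ => (-1 : ℤˣ) • p - p) = fun p => (-2) * p := by
      funext p
      rw [Units.smul_def]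
      simp only [Units.val_neg, Units.val_one, neg_smul, one_smul]
      ring
    rw [he]
    exact mulLeft_bijective₀ _ h2)
  obtain ⟨δ, hδ⟩ := h3 1
  obtain ⟨κ, _, _, _, j, hj⟩ := emb_odd ℓ hodd
  obtain ⟨q, hq, -⟩ := h.extQ hN j hj (crsOne' A ℤˣ (ZMod ℓ) δ) 1 (by
    rw [one_mul, inv_one, mul_one]
    exact congrArg Multiplicative.ofAdd (h1 δ))
  refine ⟨q, ?_⟩
  rw [hq ⟨zm, h.mm⟩]
  exact congrArg Multiplicative.ofAdd hδ

/-- roots of homomorphisms to cyclic groups -/
theorem exists_root' (Φ : NatBij Λ (SurfG g)) {C : Type} [CommGroup C] [Finite C] (a b : ℕ)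
    (hab : ∀ x : C, x ^ a = 1 → ∃ y, y ^ b = x) (f : Λ →* C) (hf : ∀ x, f x ^ a = 1) :
    ∃ e : Λ →* C, ∀ x, e x ^ b = f x := by
  classical
  let F := Φ.toFun C f
  have hF : ∀ x, F x ^ a = 1 := by
    intro x
    have h1 := Φ.nat (powMonoidHom a : C →* C) f
    have h2 : (powMonoidHom a : C →* C).comp f = 1 := MonoidHom.ext hf
    rw [h2, Φ.one] at h1
    exact (DFunLike.congr_fun h1 x).symm
  choose r hr using hab
  let t : Fin g → C × C := fun i => (r _ (hF (PresentedGroup.of (i, false))),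
    r _ (hF (PresentedGroup.of (i, true))))
  have ht : (List.ofFn fun i => ⁅(t i).1, (t i).2⁆).prod = 1 := by
    have h1 : (fun i => ⁅(t i).1, (t i).2⁆) = fun _ : Fin g => (1 : C) := by
      funext i
      rw [commutatorElement_eq_one_iff_mul_comm, mul_comm]
    rw [h1, List.ofFn_const, List.prod_replicate, one_pow]
  let E := (homEquiv g C).symm ⟨t, ht⟩
  have hE : (powMonoidHom b : C →* C).comp E = F := by
    apply PresentedGroup.ext
    rintro ⟨i, c⟩
    change (E (PresentedGroup.of (i, c))) ^ b = F (PresentedGroup.of (i, c))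
    have h1 : E (PresentedGroup.of (i, c)) = _ := symm_of (g := g) C ⟨t, ht⟩ (i, c)
    rw [h1]
    cases c
    · exact hr _ (hF (PresentedGroup.of (i, false)))
    · exact hr _ (hF (PresentedGroup.of (i, true)))
  refine ⟨Φ.invFun C E, ?_⟩
  have h1 : (powMonoidHom b : C →* C).comp (Φ.invFun C E) = f := by
    apply Φ.injective C
    rw [Φ.nat, Φ.right_inv, hE]
  intro x
  exact DFunLike.congr_fun h1 x

/-- CHARACTERS with a prescribed value at `zm` -/
theorem exists_char (h : HG N A zm zp s) (hN : 2 ≤ N) (Φ : NatBij Λ (SurfG g)) (hF : Fac π)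
    (hA : Group.FG A) (κ : Type) [Field κ] [Finite κ] [Algebra (ZMod 2) κ] (u : κˣ) :
    ∃ χ : Γ →* κˣ, χ zm = u := by
  classical
  let ev : (Γ →* κˣ) →* κˣ :=
    { toFun := fun χ => χ zm
      map_one' := rfl
      map_mul' := fun _ _ => rfl }
  suffices hs : ev.range = ⊤ by
    have : u ∈ ev.range := by rw [hs]; trivial
    obtain ⟨χ, hχ⟩ := this
    exact ⟨χ, hχ⟩
  by_contra hne
  have hidx : ev.range.index ≠ 1 := fun h0 => hne (Subgroup.index_eq_one.1 h0)
  obtain ⟨ℓ, hℓ, hℓi⟩ := Nat.exists_prime_and_dvd hidx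
  have : Fact ℓ.Prime := ⟨hℓ⟩
  have hmul := ev.range.card_mul_index
  obtain ⟨i', hi'⟩ := hℓi
  have hm : Nat.card κˣ = ℓ * (Nat.card ev.range * i') := by
    rw [← hmul, hi']
    ring
  set m' := Nat.card ev.range * i' with hm'
  have hcard0 : 0 < Nat.card κˣ := Nat.card_pos
  have hm'0 : m' ≠ 0 := by
    intro h0
    rw [hm, h0, mul_zero] at hcard0
    exact lt_irrefl _ hcard0
  have hoddm : Odd (Nat.card κˣ) := by
    have := Fintype.ofFinite κ
    have hch : CharP κ 2 := charP_of_injective_algebraMap (algebraMap (ZMod 2) κ).injective 2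
    obtain ⟨n, -, hn⟩ := FiniteField.card κ 2
    rw [Nat.card_units, Nat.card_eq_fintype_card, hn]
    refine Nat.Even.sub_odd Nat.one_le_two_pow ?_ odd_one
    exact (Nat.even_pow.2 ⟨even_two, n.ne_zero⟩)
  have hodd : Odd ℓ := hoddm.of_dvd_nat ⟨m', hm⟩
  -- an element of order `ℓ`
  obtain ⟨y, hy⟩ := exists_prime_orderOf_dvd_card' (G := κˣ) ℓ ⟨m', hm⟩
  obtain ⟨ψ, hψ⟩ := num_odd h hN Φ hF hA ℓ hodd
  have : NeZero ℓ := ⟨hℓ.ne_zero⟩
  let f : Multiplicative (ZMod ℓ) →* κˣ :=
    { toFun := fun a => y ^ a.toAdd.val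
      map_one' := by
        change y ^ (0 : ZMod ℓ).val = 1
        rw [ZMod.val_zero, pow_zero]
      map_mul' := fun a b => by
        rw [← pow_add, toAdd_mul, ZMod.val_add]
        conv_rhs => rw [← pow_mod_orderOf, hy] }
  have hcyc : ∀ x : κˣ, x ^ ℓ = 1 → ∃ y, y ^ m' = x := by
    intro x hx
    obtain ⟨w, hw⟩ := IsCyclic.exists_generator (α := κˣ)
    obtain ⟨n, rfl⟩ := (Subgroup.mem_zpowers_iff.1 (hw x))
    have hwo : orderOf w = Nat.card κˣ := orderOf_eq_card_of_forall_mem_zpowers hw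
    have h1 : w ^ (n * ℓ) = 1 := by
      rw [_root_.zpow_mul, zpow_natCast]
      exact hx
    rw [← orderOf_dvd_iff_zpow_eq_one, hwo, hm, Nat.cast_mul, mul_comm n] at h1
    have h2 : (m' : ℤ) ∣ n :=
      Int.dvd_of_mul_dvd_mul_left (by exact_mod_cast hℓ.ne_zero) h1
    obtain ⟨k, rfl⟩ := h2
    refine ⟨w ^ k, ?_⟩
    rw [← zpow_natCast, ← _root_.zpow_mul, mul_comm]
  obtain ⟨e, he⟩ := exists_root' Φ ℓ m' hcyc ((f.comp ψ).comp π) (by
    intro x
    change (y ^ _) ^ ℓ = 1
    have hy1 : y ^ ℓ = 1 := by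
      have := pow_orderOf_eq_one y
      rwa [hy] at this
    rw [← pow_mul, mul_comm, pow_mul, hy1, one_pow])
  obtain ⟨χ, hχ⟩ := hF.hom (emb_units κ) e
  obtain ⟨z0, hz0⟩ := hF.surj zm
  have h1 : χ zm ^ m' = f (ψ zm) := by
    have h2 := he z0
    rw [← hχ] at h2
    change χ (π z0) ^ m' = f (ψ (π z0)) at h2
    rwa [hz0] at h2
  have h2 : χ zm ^ m' = 1 := by
    have h3 : χ zm ∈ ev.range := ⟨χ, rfl⟩
    have h4 : (⟨χ zm, h3⟩ : ev.range) ^ Nat.card ev.range = 1 := pow_card_eq_one'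
    have h5 : χ zm ^ Nat.card ev.range = 1 := congrArg Subtype.val h4
    rw [hm', pow_mul, h5, one_pow]
  rw [h2, hψ] at h1
  have h3 : f (Multiplicative.ofAdd 1) = y := by
    change y ^ (1 : ZMod ℓ).val = y
    have h4 : (1 : ZMod ℓ).val = 1 := ZMod.val_one'' (hℓ.one_lt.ne')
    rw [h4, pow_one]
  rw [h3] at h1
  rw [← h1, orderOf_one] at hy
  exact hℓ.one_lt.ne hy

end num

end Pool.Agent.SuCH
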