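import Pool.Agent.Lib.MP_305fdd_al.Su.CH.Mat
import Pool.Agent.Lib.MP_305fdd_al.Su.CH.Num2
import Pool.Agent.Lib.MP_305fdd_al.Su.CH.Kl

/-!
# MP_305fdd_al, surface groups, block CM-HNN: the generic representation and the component `D`
-/

set_option autoImplicit false
set_option linter.unusedSectionVars false

namespace Pool.Agent.SuCH

open Matrix Pool.Agent.FrN Pool.Agent.SuUN

/-- generic representations of degree `d`: every representation over a reduced ring is a
specialisation -/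
structure Pg (d : ℕ) {Γ F : Type} [Group Γ] [Field F] [Algebra (ZMod 2) F]
    (ρ : Γ →* SpecialLinearGroup (Fin 2) F) : Prop where
  tr : Algebra.trdeg (ZMod 2) (OO 2 ρ) = d
  sp : ∀ (R : Type) [CommRing R] [IsReduced R] [Algebra (ZMod 2) R]
    (r : Γ →* SpecialLinearGroup (Fin 2) R), ∃ φ : OO 2 ρ →ₐ[ZMod 2] R,
      ∀ x i j, φ ⟨(ρ x).1 i j, mem_OO ρ x i j⟩ = (r x).1 i j

/-- an element which is algebraic and vanishes somewhere vanishes -/
theorem eq_zero_of_alg {k B R : Type} [CommRing k] [IsDomain k] [CommRing B] [IsDomain B]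
    [Algebra k B] [CommRing R] (φ : B →+* R) (hφ : ∀ c : k, φ (algebraMap k B c) = 0 → c = 0)
    {x : B} (hx : IsAlgebraic k x) (h0 : φ x = 0) : x = 0 := by
  by_contra hne
  obtain ⟨r, hr, hd⟩ := hx.exists_nonzero_dvd (mem_nonZeroDivisors_of_ne_zero hne)
  obtain ⟨c, hc⟩ := hd
  apply hr
  apply hφ
  rw [hc, map_mul, h0, zero_mul]

section gen

variable {Γ F : Type} [Group Γ] [Field F] [Algebra (ZMod 2) F]
  {ρ : Γ →* SpecialLinearGroup (Fin 2) F} {A : Subgroup Γ} {zm zp s : Γ} {N d : ℕ}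

/-- the diagonal representation of a character -/
def dgr {κ : Type} [Field κ] (χ : Γ →* κˣ) : Γ →* SpecialLinearGroup (Fin 2) κ where
  toFun x := SuFI.dg1 (χ x)
  map_one' := by rw [map_one, SuFI.dg1_one]
  map_mul' x y := by rw [map_mul, SuFI.dg1_mul]

theorem tr_dgr {κ : Type} [Field κ] (χ : Γ →* κˣ) (x : Γ) :
    (dgr χ x).1.trace = (χ x : κ) + ((χ x)⁻¹ : κˣ) := by
  rw [Matrix.trace_fin_two]
  rfl

/-- the trace as an element of the ring of the entries -/
def trO (ρ : Γ →* SpecialLinearGroup (Fin 2) F) (x : Γ) : OO 2 ρ :=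
  ⟨(ρ x).1 0 0, mem_OO ρ x 0 0⟩ + ⟨(ρ x).1 1 1, mem_OO ρ x 1 1⟩

theorem trO_coe (x : Γ) : ((trO ρ x : OO 2 ρ) : F) = (ρ x).1.trace := by
  rw [Matrix.trace_fin_two]
  rfl

theorem map_trO {R : Type} [CommRing R] [Algebra (ZMod 2) R] {φ : OO 2 ρ →ₐ[ZMod 2] R}
    {r : Γ →* SpecialLinearGroup (Fin 2) R}
    (hφ : ∀ x i j, φ ⟨(ρ x).1 i j, mem_OO ρ x i j⟩ = (r x).1 i j) (x : Γ) :
    φ (trO ρ x) = (r x).1.trace := by
  rw [trO, map_add, hφ, hφ, Matrix.trace_fin_two]

theorem tr_one (R : Type) [CommRing R] [Algebra (ZMod 2) R] :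
    (1 : SpecialLinearGroup (Fin 2) R).1.trace = 0 := by
  have h1 : ((2 : ℕ) : ZMod 2) = 0 := ZMod.natCast_self 2
  have h2 := congrArg (algebraMap (ZMod 2) R) h1
  rw [map_natCast, map_zero] at h2
  rw [Matrix.trace_fin_two]
  change (1 : Matrix (Fin 2) (Fin 2) R) 0 0 + (1 : Matrix (Fin 2) (Fin 2) R) 1 1 = 0
  rw [Matrix.one_apply_eq, Matrix.one_apply_eq, ← h2]
  norm_num

/-- the trace of `zm` is transcendental -/
theorem transc (P : Pg d ρ) (z : Γ) (κ : Type) [Field κ] [Algebra (ZMod 2) κ] (χ : Γ →* κˣ)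
    (hχ : χ z ≠ 1) : Transcendental (ZMod 2) ((ρ z).1.trace) := by
  intro halg
  have h1 : IsAlgebraic (ZMod 2) (trO ρ z) := by
    rw [← trO_coe] at halg
    exact (isAlgebraic_algebraMap_iff (R := ZMod 2) (S := OO 2 ρ) (A := F)
      Subtype.val_injective).1 halg
  obtain ⟨φ, hφ⟩ := P.sp (ZMod 2) 1
  have h2 : trO ρ z = 0 := by
    refine eq_zero_of_alg (k := ZMod 2) (φ : OO 2 ρ →+* ZMod 2) (fun c hc => ?_) h1 ?_
    · have h3 : φ (algebraMap (ZMod 2) (OO 2 ρ) c) = 0 := hc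
      rw [AlgHom.commutes] at h3
      exact h3
    · change φ (trO ρ z) = 0
      rw [map_trO hφ, MonoidHom.one_apply, tr_one]
  obtain ⟨ψ, hψ⟩ := P.sp κ (dgr χ)
  have h3 := map_trO hψ z
  rw [h2, map_zero, tr_dgr] at h3
  apply hχ
  have h4 := two_zero κ
  have h5 : ((χ z : κˣ) : κ) * ((χ z)⁻¹ : κˣ) = 1 := Units.mul_inv _
  have h6 : ((χ z : κ) - 1) ^ 2 = 0 := by
    linear_combination (-(χ z : κ)) * h3 - h5 - (χ z : κ) * h4
  apply Units.ext
  rw [Units.val_one]
  exact sub_eq_zero.1 (pow_eq_zero_iff two_ne_zero |>.1 h6)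

/-- all entries of the representation -/
def entsR {L E : Type} [Group L] [Field E] (r : L →* SpecialLinearGroup (Fin 2) E) : Set E :=
  {x | ∃ g i j, x = (r g).1 i j}

theorem rk_entsR (r : Γ →* SpecialLinearGroup (Fin 2) F) :
    rk (ZMod 2) (entsR r) = Cardinal.toENat (Algebra.trdeg (ZMod 2) (OO 2 r)) := by
  rw [← rk_subalgebra, OO, rk_adjoin]
  rfl

/-- the entries of a representation of `Γ` lie in every field which contains those of `A` and of `s` -/
theorem in_of_gen (h : HG N A zm zp s) {E : Type} [Field E] [Algebra (ZMod 2) E]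
    {r : Γ →* SpecialLinearGroup (Fin 2) E} {L : Subfield E} (hA : ∀ a : A, In L (r a))
    (hs : In L (r s)) (x : Γ) : In L (r x) := by
  have hx : x ∈ A ⊔ Subgroup.zpowers s := by rw [h.gen]; trivial
  have h1 : A ⊔ Subgroup.zpowers s = Subgroup.closure ((A : Set Γ) ∪ {s}) := by
    rw [Subgroup.closure_union, Subgroup.closure_eq, Subgroup.zpowers_eq_closure]
  rw [h1] at hx
  induction hx using Subgroup.closure_induction with
  | mem x hx =>
    rcases hx with hx | hx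
    · exact hA ⟨x, hx⟩
    · rw [Set.mem_singleton_iff.1 hx]
      exact hs
  | one =>
    rw [map_one]
    exact In.one
  | mul x y _ _ hx hy =>
    rw [map_mul]
    exact hx.mul hy
  | inv x _ hx =>
    rw [map_inv]
    exact hx.inv

/-- the stable letter raises the rank by at most one -/
theorem rk_step (h : HG N A zm zp s) {E : Type} [Field E] [Algebra (ZMod 2) E]
    (r : Γ →* SpecialLinearGroup (Fin 2) E) (hz : r zm ≠ 1) :
    rk (ZMod 2) (entsR r) ≤ rk (ZMod 2) (entsR (r.comp A.subtype)) + 1 := by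
  have h2 := two_zero E
  have hrel : r s * r zm = r zp * r s := by
    rw [← map_mul, ← map_mul, ← h.rel]
    congr 1
    group
  have hz' : r zp ≠ 1 := by
    intro h0
    rw [h0, one_mul] at hrel
    exact hz (mul_left_cancel (hrel.trans (mul_one _).symm))
  have hrel' : (r s).1 * (r zm).1 = (r zp).1 * (r s).1 := congrArg Subtype.val hrel
  have htr : (r zm).1.trace = (r zp).1.trace := by
    have h3 : (r zp).1 = (r s).1 * (r zm).1 * ((r s)⁻¹).1 := by
      have h4 : r zp = r s * r zm * (r s)⁻¹ := by rw [hrel, mul_inv_cancel_right]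
      exact congrArg Subtype.val h4
    rw [h3, Matrix.trace_mul_comm, ← mul_assoc]
    have h5 : ((r s)⁻¹).1 * (r s).1 = 1 := congrArg Subtype.val (inv_mul_cancel (r s))
    rw [h5, one_mul]
  set S := entsR (r.comp A.subtype) with hS
  have hA : ∀ a : A, In (cl S) (r a) := fun a i j => subset_cl _ ⟨a, i, j, rfl⟩
  obtain ⟨P, hP0, hPL, hP⟩ := exists_cyc hz (hA ⟨zm, h.mm⟩)
  obtain ⟨P', hP0', hPL', hP'⟩ := exists_cyc hz' (hA ⟨zp, h.mp⟩)
  -- an intertwiner
  set T : Matrix (Fin 2) (Fin 2) E := P * P'.adjugate with hT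
  have hTd : T.det = P.det * P'.det := by
    rw [hT, Matrix.det_mul, Matrix.det_adjugate, Fintype.card_fin, pow_one]
  have hadj : ∀ (B : Matrix (Fin 2) (Fin 2) E), (∀ i j, B i j ∈ cl S) →
      ∀ i j, B.adjugate i j ∈ cl S := by
    intro B hB i j
    rw [Matrix.adjugate_fin_two]
    fin_cases i <;> fin_cases j
    · exact hB 1 1
    · exact neg_mem (hB 0 1)
    · exact neg_mem (hB 1 0)
    · exact hB 0 0
  have hTL : ∀ i j, T i j ∈ cl S := by
    intro i j
    rw [hT, Matrix.mul_apply, Fin.sum_univ_two]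
    exact add_mem (mul_mem (hPL i 0) (hadj P' hPL' 0 j)) (mul_mem (hPL i 1) (hadj P' hPL' 1 j))
  have hTM : T * (r zp).1 = (r zm).1 * T := by
    have h1 : P'.adjugate * (r zp).1 = !![0, 1; 1, (r zp).1.trace] * P'.adjugate := by
      have h2 : P'.adjugate * ((r zp).1 * P') * P'.adjugate =
          P'.adjugate * (P' * !![0, 1; 1, (r zp).1.trace]) * P'.adjugate := by rw [hP']
      have h3 : P' * P'.adjugate = P'.det • (1 : Matrix (Fin 2) (Fin 2) E) := Matrix.mul_adjugate P'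
      have h4 : P'.adjugate * P' = P'.det • (1 : Matrix (Fin 2) (Fin 2) E) := Matrix.adjugate_mul P'
      rw [← mul_assoc, mul_assoc _ P' P'.adjugate, h3, ← mul_assoc P'.adjugate P', h4] at h2
      simp only [Matrix.mul_smul, Matrix.smul_mul, mul_one, one_mul] at h2
      exact smul_right_injective _ hP0' h2
    rw [hT, mul_assoc, h1, ← htr, ← mul_assoc, ← hP, mul_assoc]
  have hcomm : (T * (r s).1) * (r zm).1 = (r zm).1 * (T * (r s).1) := by
    rw [mul_assoc, hrel', ← mul_assoc, hTM, mul_assoc]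
  obtain ⟨α, β, hαβ⟩ := Pool.Agent.FrX.comm_form (M := (r zm).1) (N := T * (r s).1) h2 (r zm).2
    (fun h0 => hz (Subtype.ext h0)) hcomm
  set S' := insert β S with hS'
  have hSS : (cl S : Set E) ⊆ cl S' := cl_le_of_subset fun x hx => subset_cl _ (Or.inr hx)
  have hβ : β ∈ cl S' := subset_cl _ (Or.inl rfl)
  have hM' : In (cl S') (r zm) := (hA ⟨zm, h.mm⟩).mono hSS
  have hα : α ∈ cl S' := by
    have hd1 : (T * (r s).1).det = T.det := by rw [Matrix.det_mul, (r s).2, mul_one]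
    have h4 := (r zm).2
    rw [Matrix.det_fin_two] at h4 hd1
    rw [hαβ 0 0, hαβ 0 1, hαβ 1 0, hαβ 1 1, Matrix.one_apply_eq, Matrix.one_apply_eq,
      Matrix.one_apply_ne (show (0 : Fin 2) ≠ 1 by decide),
      Matrix.one_apply_ne (show (1 : Fin 2) ≠ 0 by decide)] at hd1
    have hq : α ^ 2 + (β * ((r zm).1 0 0 + (r zm).1 1 1)) * α + (β ^ 2 - T.det) = 0 := by
      linear_combination hd1 - β ^ 2 * h4
    have hdT : T.det ∈ cl S' := by
      rw [Matrix.det_fin_two]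
      exact hSS (sub_mem (mul_mem (hTL 0 0) (hTL 1 1)) (mul_mem (hTL 0 1) (hTL 1 0)))
    exact Pool.Agent.FrX.alg_quad
      (show β * ((r zm).1 0 0 + (r zm).1 1 1) ∈ cl S' from
        mul_mem hβ (add_mem (hM' 0 0) (hM' 1 1)))
      (show β ^ 2 - T.det ∈ cl S' from sub_mem (pow_mem hβ 2) hdT) hq
  have hs : In (cl S') (r s) := by
    have hTd0 : T.det ≠ 0 := by rw [hTd]; exact mul_ne_zero hP0 hP0'
    have h5 : (r s).1 = (T.det)⁻¹ • (T.adjugate * (T * (r s).1)) := by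
      rw [← mul_assoc, Matrix.adjugate_mul, Matrix.smul_mul, one_mul, smul_smul,
        inv_mul_cancel₀ hTd0, one_smul]
    have h6 : ∀ i j, (T * (r s).1) i j ∈ cl S' := by
      intro i j
      rw [hαβ]
      refine add_mem (mul_mem hα ?_) (mul_mem hβ (hM' i j))
      exact (In.one (L := cl S')) i j
    have hdT : T.det ∈ cl S' := by
      rw [Matrix.det_fin_two]
      exact hSS (sub_mem (mul_mem (hTL 0 0) (hTL 1 1)) (mul_mem (hTL 0 1) (hTL 1 0)))
    intro i j
    rw [h5, Matrix.smul_apply, smul_eq_mul, Matrix.mul_apply, Fin.sum_univ_two]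
    refine mul_mem (inv_mem hdT) ?_
    exact add_mem (mul_mem (hSS (hadj T hTL i 0)) (h6 0 j))
      (mul_mem (hSS (hadj T hTL i 1)) (h6 1 j))
  have hall : entsR r ⊆ cl S' := by
    rintro x ⟨g, i, j, rfl⟩
    exact in_of_gen h (fun a => (hA a).mono hSS) hs g i j
  exact (rk_le_of_cl hall).trans (rk_insert_le _ _)

end gen

/-- the data of a component of the representations of `A` through the generic one where the traces of
`zm` and `zp` are different -/
structure Cpt (A : Type) [Group A] (D : Type) [CommRing D] [Algebra (ZMod 2) D]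
    (y : A →* SpecialLinearGroup (Fin 2) D) {F : Type} [CommRing F] [Algebra (ZMod 2) F]
    (φ : D →ₐ[ZMod 2] F) (ρ : A →* SpecialLinearGroup (Fin 2) F) : Prop where
  dom : IsDomain D
  ft : Algebra.FiniteType (ZMod 2) D
  gen : Algebra.adjoin (ZMod 2) {x | ∃ a i j, x = (y a).1 i j} = ⊤
  map : ∀ a i j, φ ((y a).1 i j) = (ρ a).1 i j

section cpt

variable {Γ F D : Type} [Group Γ] [Field F] [Algebra (ZMod 2) F] [CommRing D] [Algebra (ZMod 2) D]
  {ρ : Γ →* SpecialLinearGroup (Fin 2) F} {A : Subgroup Γ} {zm zp s : Γ} {N d₀ : ℕ}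
  {y : A →* SpecialLinearGroup (Fin 2) D} {φ : D →ₐ[ZMod 2] F}

theorem Cpt.trace (C : Cpt A D y φ (ρ.comp A.subtype)) (a : A) :
    φ ((y a).1.trace) = (ρ a).1.trace := by
  rw [Matrix.trace_fin_two, map_add, C.map, C.map, Matrix.trace_fin_two]
  rfl

theorem Cpt.range (C : Cpt A D y φ (ρ.comp A.subtype)) : φ.range = OO 2 (ρ.comp A.subtype) := by
  rw [← Algebra.map_top, ← C.gen, AlgHom.map_adjoin, OO]
  congr 1
  ext x
  constructor
  · rintro ⟨_, ⟨a, i, j, rfl⟩, rfl⟩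
    exact ⟨a, i, j, C.map a i j⟩
  · rintro ⟨a, i, j, rfl⟩
    exact ⟨_, ⟨a, i, j, rfl⟩, C.map a i j⟩

/-- representations of `Γ` over reduced rings are points of the component -/
theorem Cpt.sp (C : Cpt A D y φ (ρ.comp A.subtype)) (P : Pg d₀ ρ) (R : Type) [CommRing R]
    [IsReduced R] [Algebra (ZMod 2) R] (r : Γ →* SpecialLinearGroup (Fin 2) R) :
    ∃ ψ : D →ₐ[ZMod 2] R, ∀ a i j, ψ ((y a).1 i j) = (r a).1 i j := by
  obtain ⟨θ, hθ⟩ := P.sp R r
  have hle : ∀ x, φ x ∈ OO 2 ρ := by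
    intro x
    have h1 : φ x ∈ φ.range := ⟨x, rfl⟩
    rw [C.range] at h1
    have h2 : OO 2 (ρ.comp A.subtype) ≤ OO 2 ρ := by
      rw [OO, Algebra.adjoin_le_iff]
      rintro _ ⟨g, i, j, rfl⟩
      exact mem_OO ρ (g : Γ) i j
    exact h2 h1
  refine ⟨θ.comp (φ.codRestrict (OO 2 ρ) hle), fun a i j => ?_⟩
  rw [← hθ a i j, AlgHom.comp_apply]
  congr 1
  exact Subtype.ext (C.map a i j)

/-- the traces of `zm` and `zp` are algebraically independent -/
theorem Cpt.indep (C : Cpt A D y φ (ρ.comp A.subtype)) (h : HG N A zm zp s)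
    (hT : Transcendental (ZMod 2) ((ρ zm).1.trace))
    (hne : (y ⟨zm, h.mm⟩).1.trace ≠ (y ⟨zp, h.mp⟩).1.trace) :
    Transcendental (ZMod 2) ((y ⟨zm, h.mm⟩).1.trace) ∧
    Transcendental (Algebra.adjoin (ZMod 2) {(y ⟨zm, h.mm⟩).1.trace}) ((y ⟨zp, h.mp⟩).1.trace) := by
  have hdom := C.dom
  have htr : (ρ zm).1.trace = (ρ zp).1.trace := by
    have h3 : (ρ zp).1 = (ρ s).1 * (ρ zm).1 * ((ρ s)⁻¹).1 := by
      have h4 : ρ zp = ρ s * ρ zm * (ρ s)⁻¹ := (h.rel' ρ).symm
      exact congrArg Subtype.val h4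
    rw [h3, Matrix.trace_mul_comm, ← mul_assoc]
    have h5 : ((ρ s)⁻¹).1 * (ρ s).1 = 1 := congrArg Subtype.val (inv_mul_cancel (ρ s))
    rw [h5, one_mul]
  have hm : φ ((y ⟨zm, h.mm⟩).1.trace) = (ρ zm).1.trace := C.trace _
  have hp : φ ((y ⟨zp, h.mp⟩).1.trace) = (ρ zm).1.trace := by rw [C.trace, htr]
  refine ⟨?_, ?_⟩
  · intro halg
    apply hT
    rw [← hm]
    exact halg.algHom φ
  · intro halg
    apply hne
    rw [← sub_eq_zero, ← neg_eq_zero, neg_sub]
    refine eq_zero_of_alg (k := Algebra.adjoin (ZMod 2) {(y ⟨zm, h.mm⟩).1.trace})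
      (φ : D →+* F) (fun c hc => ?_) (x := (y ⟨zp, h.mp⟩).1.trace - (y ⟨zm, h.mm⟩).1.trace) ?_ ?_
    · obtain ⟨c, hc'⟩ := c
      have hc : φ c = 0 := hc
      apply Subtype.ext
      change c = 0
      rw [Algebra.adjoin_singleton_eq_range_aeval] at hc'
      obtain ⟨q, rfl⟩ := hc'
      have h1 : φ (Polynomial.aeval (y ⟨zm, h.mm⟩).1.trace q) =
          Polynomial.aeval ((ρ zm).1.trace) q := by
        rw [← hm, Polynomial.aeval_algHom_apply]
      change φ (Polynomial.aeval (y ⟨zm, h.mm⟩).1.trace q) = 0 at hc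
      rw [h1] at hc
      have h2 : q = 0 := by
        by_contra hq
        exact hT ⟨q, hq, hc⟩
      change Polynomial.aeval (y ⟨zm, h.mm⟩).1.trace q = 0
      rw [h2, map_zero]
    · refine halg.sub ?_
      exact isAlgebraic_algebraMap (A := D) (⟨_, Algebra.subset_adjoin rfl⟩ :
        Algebra.adjoin (ZMod 2) {(y ⟨zm, h.mm⟩).1.trace})
    · change φ (_ - _) = 0
      rw [map_sub, hm, hp, sub_self]

/-- the lower bound of the dimension of the component -/
theorem Cpt.le_trdeg (C : Cpt A D y φ (ρ.comp A.subtype)) (P : Pg d₀ ρ) (h : HG N A zm zp s)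
    (hz : ρ zm ≠ 1)
    (hne : (y ⟨zm, h.mm⟩).1.trace ≠ (y ⟨zp, h.mp⟩).1.trace) :
    (d₀ : Cardinal) ≤ Algebra.trdeg (ZMod 2) D := by
  have hdom := C.dom
  have hft := C.ft
  have htr : (ρ zm).1.trace = (ρ zp).1.trace := by
    have h3 : (ρ zp).1 = (ρ s).1 * (ρ zm).1 * ((ρ s)⁻¹).1 := by
      have h4 : ρ zp = ρ s * ρ zm * (ρ s)⁻¹ := (h.rel' ρ).symm
      exact congrArg Subtype.val h4
    rw [h3, Matrix.trace_mul_comm, ← mul_assoc]
    have h5 : ((ρ s)⁻¹).1 * (ρ s).1 = 1 := congrArg Subtype.val (inv_mul_cancel (ρ s))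
    rw [h5, one_mul]
  have hlt : Algebra.trdeg (ZMod 2) D < Cardinal.aleph0 := trdeg_lt_aleph0_of_finiteType
  obtain ⟨n, hn⟩ := Cardinal.lt_aleph0.1 hlt
  have hninj : ¬ Function.Injective φ := by
    intro hinj
    apply hne
    apply hinj
    rw [C.trace, C.trace]
    exact htr
  have h1 : ¬ (n : Cardinal) ≤ Algebra.trdeg (ZMod 2) φ.range := fun h2 =>
    hninj (inj_of_trdeg φ hn.le h2)
  rw [not_le] at h1
  obtain ⟨m, hm⟩ := Cardinal.lt_aleph0.1 (h1.trans (Cardinal.natCast_lt_aleph0))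
  rw [hm] at h1
  have h2 : m + 1 ≤ n := by exact_mod_cast h1
  have h3 := rk_step h ρ hz
  rw [rk_entsR, rk_entsR, P.tr, ← C.range, hm] at h3
  have h4 : (d₀ : ℕ∞) ≤ (m : ℕ∞) + 1 := by simpa using h3
  have h5 : d₀ ≤ m + 1 := by exact_mod_cast h4
  rw [hn]
  exact_mod_cast h5.trans h2

end cpt

end Pool.Agent.SuCH
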