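import Pool.Agent.Lib.MP_305fdd_al.Su.CH.W5

/-!
# MP_305fdd_al, surface groups, block CM-HNN: the universal property with homomorphisms

`HG N A zm zp s`: `Γ` is generated by `A` and `s`, `s zm s⁻¹ = zp`, and homomorphisms of `A` to linear
groups `Q` of degree `N` with `t f(zm) t⁻¹ = f(zp)` extend to `Γ`, `s ↦ t`.
-/

set_option autoImplicit false

namespace Pool.Agent.SuCH

open Matrix Pool.Agent.SuUN Pool.Agent.FrS

variable {Γ : Type} [Group Γ]

/-- the universal property of an HNN extension -/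
structure HG (N : ℕ) (A : Subgroup Γ) (zm zp s : Γ) : Prop where
  gen : A ⊔ Subgroup.zpowers s = ⊤
  mm : zm ∈ A
  mp : zp ∈ A
  rel : s * zm * s⁻¹ = zp
  ext : ∀ (Q : Type) [Group Q], Lin N Q → ∀ (f : A →* Q) (t : Q),
    t * f ⟨zm, mm⟩ * t⁻¹ = f ⟨zp, mp⟩ → ∃ q : Γ →* Q, (∀ x : A, q x = f x) ∧ q s = t

theorem HG.of {N : ℕ} {A : Subgroup Γ} {z s : Γ} (h : IsHnN N ⊤ A (Subgroup.zpowers z) s) :
    HG N A (s⁻¹ * z * s) z s where
  gen := h.sup.symm
  mm := h.le' z (Subgroup.mem_zpowers z)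
  mp := h.le (Subgroup.mem_zpowers z)
  rel := by group
  ext Q _ hQ f t ht := by
    classical
    have hz : z ∈ A := h.le (Subgroup.mem_zpowers z)
    have hz' : s⁻¹ * z * s ∈ A := h.le' z (Subgroup.mem_zpowers z)
    obtain ⟨q, hq, h1, h2⟩ := h.ext Q hQ (fun x => if hx : x ∈ A then f ⟨x, hx⟩ else 1) t (by
        intro x hx y hy
        beta_reduce
        rw [dif_pos hx, dif_pos hy, dif_pos (mul_mem hx hy), ← map_mul]
        rfl) (by
        rintro d ⟨k, rfl⟩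
        change (if hx : z ^ k ∈ A then f ⟨z ^ k, hx⟩ else 1) =
          t * (if hx : s⁻¹ * z ^ k * s ∈ A then f ⟨s⁻¹ * z ^ k * s, hx⟩ else 1) * t⁻¹
        have e1 : s⁻¹ * z ^ k * s = (s⁻¹ * z * s) ^ k := by
          have := conj_zpow (a := s⁻¹) (b := z) (i := k)
          rw [inv_inv] at this
          exact this.symm
        have hk : z ^ k ∈ A := zpow_mem hz k
        have hk' : s⁻¹ * z ^ k * s ∈ A := by rw [e1]; exact zpow_mem hz' k
        rw [dif_pos hk, dif_pos hk']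
        have e2 : (⟨z ^ k, hk⟩ : A) = ⟨z, hz⟩ ^ k := Subtype.ext rfl
        have e3 : (⟨s⁻¹ * z ^ k * s, hk'⟩ : A) = ⟨s⁻¹ * z * s, hz'⟩ ^ k := Subtype.ext e1
        rw [e2, e3, map_zpow, map_zpow, ← ht, conj_zpow])
    refine ⟨MonoidHom.mk' q (fun x y => hq x (Subgroup.mem_top x) y (Subgroup.mem_top y)), ?_, h2⟩
    intro x
    change q x = f x
    rw [h1 x x.2, dif_pos x.2]

variable {N : ℕ} {A : Subgroup Γ} {zm zp s : Γ}

theorem HG.symm (h : HG N A zm zp s) : HG N A zp zm s⁻¹ where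
  gen := by
    rw [Subgroup.zpowers_inv]
    exact h.gen
  mm := h.mp
  mp := h.mm
  rel := by
    rw [← h.rel]
    group
  ext Q _ hQ f t ht := by
    obtain ⟨q, h1, h2⟩ := h.ext Q hQ f t⁻¹ (by rw [← ht]; group)
    refine ⟨q, h1, ?_⟩
    rw [map_inv, h2, inv_inv]

theorem HG.hom_ext (h : HG N A zm zp s) {Q : Type} [Group Q] {q q' : Γ →* Q}
    (h1 : ∀ x : A, q x = q' x) (h2 : q s = q' s) : q = q' := by
  have h3 : A ⊔ Subgroup.zpowers s ≤ MonoidHom.eqLocus q q' := by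
    refine sup_le (fun x hx => h1 ⟨x, hx⟩) ?_
    rw [Subgroup.zpowers_le]
    exact h2
  rw [h.gen] at h3
  ext x
  exact h3 (Subgroup.mem_top x)

theorem HG.rel' (h : HG N A zm zp s) {Q : Type} [Group Q] (q : Γ →* Q) :
    q s * q zm * (q s)⁻¹ = q zp := by
  rw [← map_inv, ← map_mul, ← map_mul, h.rel]

/-- the universal property for representations -/
theorem HG.extSL (h : HG N A zm zp s) (hN : 2 ≤ N) {R : Type} [CommRing R]
    (f : A →* SpecialLinearGroup (Fin 2) R) (t : SpecialLinearGroup (Fin 2) R)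
    (ht : t * f ⟨zm, h.mm⟩ * t⁻¹ = f ⟨zp, h.mp⟩) :
    ∃ q : Γ →* SpecialLinearGroup (Fin 2) R, (∀ x : A, q x = f x) ∧ q s = t :=
  h.ext _ (lin_SL hN R) f t ht

/-- the universal property for subgroups of `SL(2, R)` -/
theorem HG.extQ (h : HG N A zm zp s) (hN : 2 ≤ N) {Q R : Type} [Group Q] [CommRing R]
    (ι : Q →* SpecialLinearGroup (Fin 2) R) (hι : Function.Injective ι) (f : A →* Q) (t : Q)
    (ht : t * f ⟨zm, h.mm⟩ * t⁻¹ = f ⟨zp, h.mp⟩) :
    ∃ q : Γ →* Q, (∀ x : A, q x = f x) ∧ q s = t :=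
  h.ext _ ((lin_SL hN R).of_inj ι hι) f t ht

/-- the universal property for wreath products: homomorphisms of the circle -/
theorem HG.extW {n : ℕ} [NeZero n] (h : HG N A zm zp s) (hN : n * 2 ≤ N) {Q R : Type} [Group Q]
    [CommRing R] [Nontrivial R] (ι : Q →* SpecialLinearGroup (Fin 2) R)
    (hι : Function.Injective ι) (f : ZMod n → A →* Q) (t : ZMod n → Q)
    (ht : ∀ i, t i * f (i + 1) ⟨zm, h.mm⟩ * (t i)⁻¹ = f i ⟨zp, h.mp⟩) :
    ∃ w : Γ →* W n Q, (∀ x : A, w x = ⟨fun i => f i x, 0⟩) ∧ w s = ⟨t, 1⟩ := by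
  refine h.ext (W n Q) ((W.lin ι hι).mono hN) (W.tup f) ⟨t, 1⟩ ?_
  refine W.ext (funext fun i => ?_) ?_
  · change t i * f (i + 1) _ * (t (i + (1 + 0) - 1))⁻¹ = f i _
    rw [add_zero, add_sub_cancel_right]
    exact ht i
  · change (1 : ZMod n) + 0 + -1 = 0
    ring

end Pool.Agent.SuCH
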