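import Pool.Agent.Lib.MP_305fdd_al.Su.CH.Hg
import Pool.Agent.Lib.MP_305fdd_al.Su.FI.Root

/-!
# MP_305fdd_al, surface groups, block CM-HNN: numerics of the edge elements

If `Γ` has the numbers of crossed homomorphisms of a surface group, then all homomorphisms of the vertex
group to `ℤ/2` and to `ℤ/ℓ` (`ℓ` odd) agree on `zm` and `zp`, and some of them do not vanish there.
-/

set_option autoImplicit false
set_option linter.unusedSectionVars false

namespace Pool.Agent.SuCH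

open Matrix Pool.Agent.Lib.MP_305fdd_al Pool.Agent.MP_305fdd_al Pool.Agent.SurfCnt Pool.Agent.SuD
  Pool.Agent.FrAsm Pool.Agent.SuUN Pool.Agent.SuFI Pool.Agent.FrS

section num

variable {Γ Λ : Type} [Group Γ] [Group Λ] {π : Λ →* Γ} {N g : ℕ} {A : Subgroup Γ} {zm zp s : Γ}
  {Q P : Type} [Group Q] [AddCommGroup P] [DistribMulAction Q P]

/-- homomorphisms `δ : A → P` with `c δ(zm) = δ(zp)` -/
def Ueq (h : HG N A zm zp s) (P : Type) [AddCommGroup P] [DistribMulAction Q P] (c : Q) :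
    AddSubgroup (Crs (1 : A →* Q) P) where
  carrier := {δ | c • δ.1 ⟨zm, h.mm⟩ = δ.1 ⟨zp, h.mp⟩}
  zero_mem' := smul_zero c
  add_mem' {a b} ha hb := by
    change c • (a.1 _ + b.1 _) = a.1 _ + b.1 _
    rw [smul_add]
    exact congrArg₂ _ ha hb
  neg_mem' {a} ha := by
    change c • (-(a.1 _)) = -(a.1 _)
    rw [smul_neg]
    exact congrArg _ ha

theorem mem_Ueq {h : HG N A zm zp s} {c : Q} {δ : Crs (1 : A →* Q) P} :
    δ ∈ Ueq h P c ↔ c • δ.1 ⟨zm, h.mm⟩ = δ.1 ⟨zp, h.mp⟩ := Iff.rfl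

/-- the number of crossed homomorphisms -/
theorem card_th (h : HG N A zm zp s) (hN : 2 ≤ N) (hE : Emb (AF Q P)) (c : Q) (θ : Γ →* Q)
    (hθ : ∀ x : A, θ x = 1) (hs : θ s = c) :
    Nat.card (Crs θ P) = Nat.card P * Nat.card (Ueq h P c) := by
  rw [← Nat.card_prod]
  have hzm : θ zm = 1 := hθ ⟨zm, h.mm⟩
  have hzp : θ zp = 1 := hθ ⟨zp, h.mp⟩
  have hsz : s * zm = zp * s := by rw [← h.rel]; group
  refine Nat.card_congr (Equiv.ofBijective (fun C : Crs θ P =>
    ((C.1 s, ⟨⟨fun a => C.1 a, fun x y => by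
      rw [MonoidHom.one_apply, one_smul]
      have h1 := C.2 x y
      rw [hθ x, one_smul] at h1
      exact h1⟩, by
      rw [mem_Ueq]
      change c • C.1 zm = C.1 zp
      have h1 := C.2 s zm
      have h2 := C.2 zp s
      rw [hsz, h2, hzp, one_smul, hs] at h1
      have h3 : C.1 s + C.1 zp = C.1 s + c • C.1 zm := by rw [← h1, add_comm]
      exact (add_left_cancel h3).symm⟩) : P × Ueq h P c)) ⟨?_, ?_⟩)
  · intro C C' he
    rw [Prod.mk.injEq] at he
    have h1 : Crs.hom C = Crs.hom C' := by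
      refine h.hom_ext (fun x => ?_) ?_
      · have h2 := congrArg (fun z : Ueq h P c => z.1.1 x) he.2
        exact AF.ext h2 rfl
      · exact AF.ext he.1 rfl
    apply Subtype.ext
    funext x
    exact congrArg AF.v (DFunLike.congr_fun h1 x)
  · rintro ⟨p, ⟨δ, hδ⟩⟩
    obtain ⟨κ, _, _, _, j, hj⟩ := hE
    let f : A →* AF Q P :=
      { toFun := fun a => ⟨δ.1 a, 1⟩
        map_one' := AF.ext (Crs.map_one δ.2) rfl
        map_mul' := fun x y => by
          have h1 := δ.2 x y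
          rw [MonoidHom.one_apply, one_smul] at h1
          refine AF.ext ?_ (by simp)
          rw [AF.mul_v, one_smul]
          exact h1 }
    obtain ⟨q, h1, h2⟩ := h.extQ hN j hj f (⟨p, c⟩ : AF Q P) (by
      rw [mul_inv_eq_iff_eq_mul]
      refine AF.ext ?_ ?_
      · change p + c • δ.1 ⟨zm, h.mm⟩ = δ.1 ⟨zp, h.mp⟩ + (1 : Q) • p
        rw [one_smul, add_comm]
        congr 1
      · change c * 1 = 1 * c
        rw [mul_one, one_mul])
    have h3 : (AF.pr Q P).comp q = θ := by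
      refine h.hom_ext (fun x => ?_) ?_
      · change (q x).q = θ x
        rw [h1, hθ]
        rfl
      · change (q s).q = θ s
        rw [h2, hs]
    refine ⟨(crsEquiv θ P).symm ⟨q, h3⟩, ?_⟩
    refine Prod.ext ?_ (Subtype.ext (Subtype.ext (funext fun a => ?_)))
    · change (q s).v = p
      rw [h2]
    · change (q a).v = δ.1 a
      rw [h1]
      rfl

/-- characters which are trivial on `A` -/
theorem exists_th (h : HG N A zm zp s) (hN : 2 ≤ N) (hE : Emb (AF Q P)) (c : Q) :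
    ∃ θ : Γ →* Q, (∀ x : A, θ x = 1) ∧ θ s = c := by
  obtain ⟨κ, _, _, _, j, hj⟩ := hE
  let i : Q →* AF Q P :=
    { toFun := fun x => ⟨0, x⟩
      map_one' := rfl
      map_mul' := fun x y => AF.ext (by simp) rfl }
  have hi : Function.Injective i := fun x y hxy => congrArg AF.q hxy
  obtain ⟨q, h1, h2⟩ := h.extQ hN (j.comp i) (hj.comp hi) (1 : A →* Q) c (by
    rw [MonoidHom.one_apply, MonoidHom.one_apply, mul_one, mul_inv_cancel])
  exact ⟨q, h1, h2⟩

variable [Finite Q] [Finite P]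

/-- THE NUMERICS -/
theorem num (h : HG N A zm zp s) (hN : 2 ≤ N) (Φ : NatBij Λ (SurfG g)) (hF : Fac π)
    (hA : Finite (Crs (1 : A →* Q) P)) (hE : Emb (AF Q P)) (c : Q)
    (hc : Function.Bijective (fun p : P => c • p - p)) :
    (∀ δ : Crs (1 : A →* Q) P, δ.1 ⟨zm, h.mm⟩ = δ.1 ⟨zp, h.mp⟩) ∧
    (∀ p : P, ∃ δ : Crs (1 : A →* Q) P, δ.1 ⟨zm, h.mm⟩ = p) ∧
    Nat.card P * Nat.card (Crs (1 : A →* Q) P) = Nat.card P ^ (2 * g) := by
  classical
  have hP0 : 0 < Nat.card P := Nat.card_pos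
  -- the trivial character
  have h1 : Nat.card P * Nat.card (Ueq h P (1 : Q)) = Nat.card P ^ (2 * g) := by
    rw [← card_th h hN hE 1 (1 : Γ →* Q) (fun _ => rfl) rfl, hF.card_Crs hE]
    have h2 := card_Crs Φ ((1 : Γ →* Q).comp π) P
    rw [IP_bot (by
      rintro _ ⟨x, rfl⟩
      rfl), AddSubgroup.card_bot, mul_one] at h2
    exact h2
  -- the character of `c`
  obtain ⟨θ, hθ, hθs⟩ := exists_th h hN hE c
  have h2 : Nat.card P * Nat.card (Ueq h P c) * Nat.card P = Nat.card P ^ (2 * g) := by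
    rw [← card_th h hN hE c θ hθ hθs, hF.card_Crs hE]
    have h3 := card_Crs Φ (θ.comp π) P
    have h4 : IP P (θ.comp π).range = ⊤ := by
      rw [eq_top_iff]
      intro p _
      obtain ⟨y, hy⟩ := hc.2 (-p)
      obtain ⟨x, hx⟩ := hF.surj s
      have h5 : c ∈ (θ.comp π).range := ⟨x, by rw [MonoidHom.comp_apply, hx, hθs]⟩
      have h6 := sub_mem_IP (P := P) h5 y
      have h7 : y - c • y = p := by
        have h8 : c • y - y = -p := hy
        rw [← neg_sub, h8, neg_neg]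
      rwa [h7] at h6
    rw [h4, AddSubgroup.card_top] at h3
    exact h3
  -- the intersection
  have h3 : Nat.card (Ueq h P (1 : Q)) = Nat.card P * Nat.card (Ueq h P c) := by
    have h4 : Nat.card P * Nat.card (Ueq h P (1 : Q)) =
        Nat.card P * (Nat.card P * Nat.card (Ueq h P c)) := by
      rw [h1, ← h2]
      ring
    exact Nat.eq_of_mul_eq_mul_left hP0 h4
  let ev : Ueq h P (1 : Q) →+ P :=
    { toFun := fun δ => δ.1.1 ⟨zm, h.mm⟩
      map_zero' := rfl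
      map_add' := fun _ _ => rfl }
  have h4 : Nat.card ev.ker * Nat.card ev.range = Nat.card (Ueq h P (1 : Q)) := card_hom_eq ev
  have hfin : Finite (Ueq h P c) := inferInstance
  let ι : ev.ker → Ueq h P c := fun δ => ⟨δ.1.1, by
    rw [mem_Ueq]
    have h5 : δ.1.1.1 ⟨zm, h.mm⟩ = 0 := δ.2
    have h6 : (1 : Q) • δ.1.1.1 ⟨zm, h.mm⟩ = δ.1.1.1 ⟨zp, h.mp⟩ := δ.1.2
    rw [one_smul] at h6
    rw [← h6, h5, smul_zero]⟩
  have hι : Function.Injective ι := by
    intro δ δ' he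
    have h5 : δ.1.1 = δ'.1.1 := congrArg (fun z : Ueq h P c => z.1) he
    exact Subtype.ext (Subtype.ext h5)
  have h5 : Nat.card ev.ker ≤ Nat.card (Ueq h P c) := Nat.card_le_card_of_injective ι hι
  have h6 : Nat.card ev.range ≤ Nat.card P :=
    Nat.card_le_card_of_injective Subtype.val Subtype.val_injective
  have hc0 : 0 < Nat.card (Ueq h P c) := Nat.card_pos
  have h7 : Nat.card ev.ker = Nat.card (Ueq h P c) := by
    refine le_antisymm h5 ?_
    have h8 : Nat.card P * Nat.card (Ueq h P c) ≤ Nat.card ev.ker * Nat.card P := by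
      rw [← h3, ← h4]
      exact Nat.mul_le_mul_left _ h6
    rw [mul_comm] at h8
    exact Nat.le_of_mul_le_mul_right h8 hP0
  have h8 : Nat.card ev.range = Nat.card P := by
    rw [h3, h7, mul_comm] at h4
    exact Nat.eq_of_mul_eq_mul_right hc0 h4
  have hsurj : Function.Surjective ev := by
    rw [← AddMonoidHom.range_eq_top]
    exact AddSubgroup.eq_top_of_card_eq _ h8
  have hιs : Function.Surjective ι :=
    ((Nat.bijective_iff_injective_and_card ι).2 ⟨hι, h7⟩).2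
  have hall : ∀ δ : Crs (1 : A →* Q) P, δ.1 ⟨zm, h.mm⟩ = δ.1 ⟨zp, h.mp⟩ := by
    intro δ
    obtain ⟨p, hp⟩ := hc.2 (c • δ.1 ⟨zm, h.mm⟩ - δ.1 ⟨zp, h.mp⟩)
    have hp : c • p - p = c • δ.1 ⟨zm, h.mm⟩ - δ.1 ⟨zp, h.mp⟩ := hp
    obtain ⟨⟨δ', hδ'⟩, h9⟩ := hsurj p
    have h9 : δ'.1 ⟨zm, h.mm⟩ = p := h9
    rw [mem_Ueq, one_smul] at hδ'
    have h10 : δ - δ' ∈ Ueq h P c := by
      rw [mem_Ueq]
      change c • (δ.1 ⟨zm, h.mm⟩ - δ'.1 ⟨zm, h.mm⟩) = δ.1 ⟨zp, h.mp⟩ - δ'.1 ⟨zp, h.mp⟩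
      rw [← hδ', h9, smul_sub]
      have h11 : c • δ.1 ⟨zm, h.mm⟩ = c • p - p + δ.1 ⟨zp, h.mp⟩ := by
        rw [hp, sub_add_cancel]
      rw [h11]
      abel
    obtain ⟨⟨⟨ε, hε⟩, hk⟩, h11⟩ := hιs ⟨δ - δ', h10⟩
    have h12 : ε = δ - δ' := congrArg Subtype.val h11
    rw [mem_Ueq, one_smul, h12] at hε
    have h13 : δ.1 ⟨zm, h.mm⟩ - δ'.1 ⟨zm, h.mm⟩ = δ.1 ⟨zp, h.mp⟩ - δ'.1 ⟨zp, h.mp⟩ := hε
    rw [hδ'] at h13
    exact sub_left_injective h13
  refine ⟨hall, ?_, ?_⟩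
  · intro p
    obtain ⟨δ, hδ⟩ := hsurj p
    exact ⟨δ.1, hδ⟩
  · have h9 : Ueq h P (1 : Q) = ⊤ := by
      rw [eq_top_iff]
      intro δ _
      rw [mem_Ueq, one_smul]
      exact hall δ
    rw [h9, AddSubgroup.card_top] at h1
    exact h1

end num

end Pool.Agent.SuCH
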