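import Pool.Agent.Lib.MP_305fdd_al.Su.CH.Gen

/-!
# MP_305fdd_al, surface groups, block CM-HNN: embeddings into a big field
-/

set_option autoImplicit false
set_option linter.unusedSectionVars false

namespace Pool.Agent.SuCH

open Matrix Pool.Agent.FrN Pool.Agent.SuUN

/-- a big field -/
theorem exists_big : ∃ (Ω : Type) (_ : Field Ω) (_ : Algebra (ZMod 2) Ω) (_ : IsAlgClosed Ω)
    (X : ℕ → Ω), AlgebraicIndependent (ZMod 2) X := by
  let K := FractionRing (MvPolynomial ℕ (ZMod 2))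
  refine ⟨AlgebraicClosure K, inferInstance, inferInstance, inferInstance,
    fun i => algebraMap K _ (algebraMap (MvPolynomial ℕ (ZMod 2)) K (MvPolynomial.X i)), ?_⟩
  have h1 : AlgebraicIndependent (ZMod 2) (MvPolynomial.X : ℕ → MvPolynomial ℕ (ZMod 2)) :=
    MvPolynomial.algebraicIndependent_X ℕ (ZMod 2)
  let f : MvPolynomial ℕ (ZMod 2) →ₐ[ZMod 2] AlgebraicClosure K :=
    ((IsScalarTower.toAlgHom (ZMod 2) K (AlgebraicClosure K)).comp
      (IsScalarTower.toAlgHom (ZMod 2) (MvPolynomial ℕ (ZMod 2)) K))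
  have hf : Function.Injective f :=
    (RingHom.injective (algebraMap K (AlgebraicClosure K))).comp
      (IsFractionRing.injective (MvPolynomial ℕ (ZMod 2)) K)
  exact h1.map' (f := f) hf

section emb

variable {Ω : Type} [Field Ω] [IsAlgClosed Ω] {X : ℕ → Ω}

/-- embeddings with many free variables in the image -/
theorem emb_free [Algebra (ZMod 2) Ω] (hX : AlgebraicIndependent (ZMod 2) X) (W : Type)
    [CommRing W] [IsDomain W] [Algebra (ZMod 2) W] {n : ℕ}
    (hn : Algebra.trdeg (ZMod 2) W = n) (k : ℕ) :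
    ∃ σ : W →ₐ[ZMod 2] Ω, Function.Injective σ ∧ ∀ j < n, X (k + j) ∈ Set.range σ := by
  obtain ⟨s, hs⟩ := exists_isTranscendenceBasis (ZMod 2) W
  have h1 : Cardinal.mk s = n := by rw [hs.cardinalMk_eq_trdeg, hn]
  obtain ⟨e⟩ : Nonempty (s ≃ Fin n) := by
    rw [← Cardinal.eq]
    simp [h1]
  have hv : AlgebraicIndependent (ZMod 2) (X ∘ fun j : s => k + (e j : ℕ)) :=
    hX.comp _ (fun a b hab => e.injective (Fin.ext (Nat.add_left_cancel hab)))
  obtain ⟨σ, hσ, h2, -⟩ := exists_emb hs hv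
  refine ⟨σ, hσ, fun j hj => ⟨(e.symm ⟨j, hj⟩).1, ?_⟩⟩
  rw [h2]
  change X (k + ((e (e.symm ⟨j, hj⟩) : Fin n) : ℕ)) = _
  rw [Equiv.apply_symm_apply]

/-- embeddings with a prescribed value at one transcendental element -/
theorem emb_at {κ : Type} [Field κ] [Algebra κ Ω] (hX : AlgebraicIndependent κ X) {W : Type}
    [CommRing W] [IsDomain W] [Algebra κ W] (hfin : Algebra.trdeg κ W < Cardinal.aleph0) {x : W}
    (hx : Transcendental κ x) : ∃ σ : W →ₐ[κ] Ω, Function.Injective σ ∧ σ x = X 0 := by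
  classical
  have h0 : AlgebraicIndepOn κ id ({x} : Set W) :=
    (algebraicIndependent_singleton_iff (⟨x, rfl⟩ : ({x} : Set W))).2 hx
  obtain ⟨s, hxs, hs⟩ := exists_isTranscendenceBasis_superset h0
  obtain ⟨n, hn⟩ := Cardinal.lt_aleph0.1 hfin
  have h1 : Cardinal.mk s = n := by rw [hs.cardinalMk_eq_trdeg, hn]
  obtain ⟨e⟩ : Nonempty (s ≃ Fin n) := by
    rw [← Cardinal.eq]
    simp [h1]
  have hinj : Function.Injective (fun j : s => if (j : W) = x then 0 else (e j : ℕ) + 1) := by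
    intro a b hab
    dsimp only at hab
    by_cases ha : (a : W) = x
    · by_cases hb : (b : W) = x
      · exact Subtype.ext (ha.trans hb.symm)
      · rw [if_pos ha, if_neg hb] at hab
        omega
    · by_cases hb : (b : W) = x
      · rw [if_neg ha, if_pos hb] at hab
        omega
      · rw [if_neg ha, if_neg hb] at hab
        exact e.injective (Fin.ext (by omega))
  obtain ⟨σ, hσ, h2, -⟩ := exists_emb hs (hX.comp _ hinj)
  refine ⟨σ, hσ, ?_⟩
  have h3 := h2 ⟨x, hxs rfl⟩
  change σ x = X (if x = x then 0 else _) at h3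
  rw [if_pos rfl] at h3
  exact h3

/-- embeddings with prescribed values at an algebraic and at a transcendental element -/
theorem emb_two [Algebra (ZMod 2) Ω] (hX : AlgebraicIndependent (ZMod 2) X) {W : Type}
    [CommRing W] [IsDomain W] [Algebra (ZMod 2) W] [hft : Algebra.FiniteType (ZMod 2) W] {x u : W}
    (hx : Transcendental (ZMod 2) x) {τ : Ω} (hτ : IsAlgebraic (ZMod 2) τ)
    (hu : Polynomial.aeval u (minpoly (ZMod 2) τ) = 0) :
    ∃ σ : W →ₐ[ZMod 2] Ω, Function.Injective σ ∧ σ x = X 0 ∧ σ u = τ := by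
  classical
  let p := minpoly (ZMod 2) τ
  have hp : Irreducible p := minpoly.irreducible hτ.isIntegral
  have : Fact (Irreducible p) := ⟨hp⟩
  let κ := AdjoinRoot p
  have h1 : p.eval₂ (algebraMap (ZMod 2) W) u = 0 := hu
  have h2 : p.eval₂ (algebraMap (ZMod 2) Ω) τ = 0 := minpoly.aeval (ZMod 2) τ
  let iW : κ →ₐ[ZMod 2] W := AdjoinRoot.liftAlgHom p (Algebra.ofId (ZMod 2) W) u h1
  let iΩ : κ →ₐ[ZMod 2] Ω := AdjoinRoot.liftAlgHom p (Algebra.ofId (ZMod 2) Ω) τ h2
  let _ : Algebra κ W := (iW : κ →+* W).toAlgebra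
  let _ : Algebra κ Ω := (iΩ : κ →+* Ω).toAlgebra
  have t1 : IsScalarTower (ZMod 2) κ W := IsScalarTower.of_algebraMap_eq fun c =>
    (iW.commutes c).symm
  have t2 : IsScalarTower (ZMod 2) κ Ω := IsScalarTower.of_algebraMap_eq fun c =>
    (iΩ.commutes c).symm
  have hfd : Module.Finite (ZMod 2) κ := (AdjoinRoot.powerBasis hp.ne_zero).finite
  have halg : Algebra.IsAlgebraic (ZMod 2) κ := Algebra.IsAlgebraic.of_finite _ _
  have hX' : AlgebraicIndependent κ X := hX.extendScalars κ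
  have hx' : Transcendental κ x := by
    intro h
    exact hx (h.restrictScalars (ZMod 2))
  have hft' : Algebra.FiniteType κ W := Algebra.FiniteType.of_restrictScalars_finiteType (ZMod 2) κ W
  obtain ⟨σ, hσ, h3⟩ := emb_at hX' (W := W) trdeg_lt_aleph0_of_finiteType hx'
  refine ⟨σ.restrictScalars (ZMod 2), hσ, h3, ?_⟩
  change σ u = τ
  have h4 : algebraMap κ W (AdjoinRoot.root p) = u := AdjoinRoot.lift_root h1
  have h5 : algebraMap κ Ω (AdjoinRoot.root p) = τ := AdjoinRoot.lift_root h2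
  rw [← h4, AlgHom.commutes, h5]

end emb

section spec

variable {Γ F : Type} [Group Γ] [Field F] [Algebra (ZMod 2) F]
  {ρ : Γ →* SpecialLinearGroup (Fin 2) F} {d : ℕ}

/-- representations with many parameters are generic: the traces stay transcendental -/
theorem transc_of_rk (P : Pg d ρ) {z : Γ} (hT : Transcendental (ZMod 2) ((ρ z).1.trace))
    {E : Type} [Field E] [Algebra (ZMod 2) E] (q : Γ →* SpecialLinearGroup (Fin 2) E)
    (hq : (d : ℕ∞) ≤ rk (ZMod 2) (entsR q)) : Transcendental (ZMod 2) ((q z).1.trace) := by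
  obtain ⟨φ, hφ⟩ := P.sp E q
  have hr : φ.range = OO 2 q := by
    apply le_antisymm
    · rintro _ ⟨⟨x, hx⟩, rfl⟩
      change φ ⟨x, hx⟩ ∈ OO 2 q
      have h1 : ∀ (y : F) (hy : y ∈ OO 2 ρ), φ ⟨y, hy⟩ ∈ OO 2 q := by
        intro y hy
        induction hy using Algebra.adjoin_induction with
        | mem y hy =>
          obtain ⟨g, i, j, rfl⟩ := hy
          have h2 := hφ g i j
          have h3 : φ ⟨(ρ g).1 i j, Algebra.subset_adjoin ⟨g, i, j, rfl⟩⟩ = (q g).1 i j := h2
          rw [h3]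
          exact mem_OO q g i j
        | algebraMap c =>
          have h2 := φ.commutes c
          have h3 : (algebraMap (ZMod 2) (OO 2 ρ) c) = ⟨algebraMap (ZMod 2) F c,
            Subalgebra.algebraMap_mem _ c⟩ := rfl
          rw [h3] at h2
          rw [h2]
          exact Subalgebra.algebraMap_mem _ c
        | add x y hx hy h1 h2 =>
          have h3 := map_add φ ⟨x, hx⟩ ⟨y, hy⟩
          have h4 := add_mem h1 h2
          rw [← h3] at h4
          exact h4
        | mul x y hx hy h1 h2 =>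
          have h3 := map_mul φ ⟨x, hx⟩ ⟨y, hy⟩
          have h4 := mul_mem h1 h2
          rw [← h3] at h4
          exact h4
      exact h1 x hx
    · rw [OO, Algebra.adjoin_le_iff]
      rintro _ ⟨g, i, j, rfl⟩
      exact ⟨_, hφ g i j⟩
  have h1 : (d : Cardinal) ≤ Algebra.trdeg (ZMod 2) φ.range := by
    rw [hr]
    rw [rk_entsR] at hq
    rcases le_or_gt (Cardinal.aleph0) (Algebra.trdeg (ZMod 2) (OO 2 q)) with h4 | h4
    · exact (Cardinal.natCast_lt_aleph0.le).trans h4
    · obtain ⟨m, hm⟩ := Cardinal.lt_aleph0.1 h4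
      rw [hm] at hq ⊢
      rw [Cardinal.toENat_nat] at hq
      exact_mod_cast hq
  have hinj := inj_of_trdeg φ P.tr.le h1
  intro halg
  apply hT
  rw [← map_trO hφ] at halg
  have h2 : IsAlgebraic (ZMod 2) (trO ρ z) := (isAlgebraic_algHom_iff φ hinj).1 halg
  rw [← trO_coe]
  exact h2.algHom (OO 2 ρ).val

end spec

end Pool.Agent.SuCH
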