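import Mathlib

/-!
# MP_305fdd_al, surface groups, block CM-HNN: the algebraic rank of sets in a field

`rk k S`: the maximal number of algebraically independent elements of `S`.
-/

set_option autoImplicit false

namespace Pool.Agent.SuCH

open AlgebraicIndependent

section rk

variable (k : Type) [Field k] {E : Type} [Field E] [Algebra k E]

/-- the algebraic rank of a set -/
noncomputable def rk (S : Set E) : ℕ∞ := (AlgebraicIndependent.matroid k E).eRk S

variable {k}

theorem rk_mono {S T : Set E} (h : S ⊆ T) : rk k S ≤ rk k T := Matroid.eRk_mono _ h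

theorem rk_le_of_alg {S T : Set E} (h : ∀ x ∈ T, IsAlgebraic (Algebra.adjoin k S) x) :
    rk k T ≤ rk k S := by
  rw [rk, rk, ← Matroid.eRk_closure_eq _ S]
  refine Matroid.eRk_mono _ ?_
  intro x hx
  rw [matroid_closure_eq]
  exact h x hx

theorem alg_of_mem {S : Set E} {x : E} (hx : x ∈ Algebra.adjoin k S) :
    IsAlgebraic (Algebra.adjoin k S) x :=
  isAlgebraic_algebraMap (A := E) (⟨x, hx⟩ : Algebra.adjoin k S)

theorem rk_adjoin (S : Set E) : rk k (Algebra.adjoin k S : Set E) = rk k S :=
  le_antisymm (rk_le_of_alg fun _ hx => alg_of_mem hx) (rk_mono Algebra.subset_adjoin)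

theorem rk_union_of_alg {S T : Set E} (h : ∀ x ∈ T, IsAlgebraic (Algebra.adjoin k S) x) :
    rk k (S ∪ T) = rk k S := by
  refine le_antisymm (rk_le_of_alg ?_) (rk_mono Set.subset_union_left)
  rintro x (hx | hx)
  · exact alg_of_mem (Algebra.subset_adjoin hx)
  · exact h x hx

theorem rk_insert_le (x : E) (S : Set E) : rk k (insert x S) ≤ rk k S + 1 :=
  Matroid.eRk_insert_le_add_one _ _ _

theorem rk_insert {x : E} {S : Set E} (h : Transcendental (Algebra.adjoin k S) x) :
    rk k (insert x S) = rk k S + 1 := by
  refine Matroid.eRk_insert_eq_add_one ?_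
  refine ⟨trivial, ?_⟩
  rw [matroid_closure_eq]
  exact h

theorem rk_union_le (S T : Set E) : rk k (S ∪ T) ≤ rk k S + rk k T :=
  Matroid.eRk_union_le_eRk_add_eRk _ _ _

/-- independent families -/
theorem card_le_rk {ι : Type} [Fintype ι] {x : ι → E} (hx : AlgebraicIndependent k x) {S : Set E}
    (hS : ∀ i, IsAlgebraic (Algebra.adjoin k S) (x i)) : (Fintype.card ι : ℕ∞) ≤ rk k S := by
  have h1 : rk k (Set.range x) ≤ rk k S := by
    refine rk_le_of_alg ?_
    rintro _ ⟨i, rfl⟩
    exact hS i
  have h2 : (AlgebraicIndependent.matroid k E).Indep (Set.range x) := by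
    rw [matroid_indep_iff]
    exact AlgebraicIndependent.coe_range hx
  have h3 : rk k (Set.range x) = (Set.range x).encard := h2.eRk_eq_encard
  rw [h3, ← Set.image_univ, hx.injective.encard_image, Set.encard_univ,
    ENat.card_eq_coe_fintype_card] at h1
  exact h1

/-- the rank of a subalgebra is its degree of transcendence -/
theorem rk_subalgebra (B : Subalgebra k E) :
    rk k (B : Set E) = Cardinal.toENat (Algebra.trdeg k B) := by
  obtain ⟨s, hs⟩ := exists_isTranscendenceBasis k B
  have h1 : AlgebraicIndependent k (fun x : s => ((x : B) : E)) :=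
    hs.1.map' (f := B.val) Subtype.val_injective
  have h2 : (AlgebraicIndependent.matroid k E).IsBasis (Subtype.val '' s) (B : Set E) := by
    rw [matroid_isBasis_iff]
    refine ⟨?_, ?_, ?_⟩
    · have h3 : Set.range (fun x : s => ((x : B) : E)) = Subtype.val '' s := by
        ext y
        constructor
        · rintro ⟨x, rfl⟩
          exact ⟨x.1, x.2, rfl⟩
        · rintro ⟨x, hx, rfl⟩
          exact ⟨⟨x, hx⟩, rfl⟩
      rw [← h3]
      exact AlgebraicIndependent.coe_range h1
    · rintro _ ⟨x, _, rfl⟩
      exact x.2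
    · intro a ha
      have h3 := hs.isAlgebraic.isAlgebraic (⟨a, ha⟩ : B)
      have h4 : (Algebra.adjoin k (Set.range (Subtype.val : s → B))).map B.val =
          Algebra.adjoin k (Subtype.val '' s) := by
        rw [AlgHom.map_adjoin, Subtype.range_coe]
        rfl
      rw [← h4]
      obtain ⟨q, hq, hq0⟩ := h3
      let f : Algebra.adjoin k (Set.range (Subtype.val : s → B)) →+*
          (Algebra.adjoin k (Set.range (Subtype.val : s → B))).map B.val :=
        { toFun := fun x => ⟨B.val x.1, ⟨x.1, x.2, rfl⟩⟩
          map_one' := rfl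
          map_mul' := fun _ _ => rfl
          map_zero' := rfl
          map_add' := fun _ _ => rfl }
      have hf : Function.Injective f := by
        intro x y hxy
        have := congrArg Subtype.val hxy
        exact Subtype.ext (Subtype.ext this)
      refine ⟨q.map f, ?_, ?_⟩
      · rwa [Ne, Polynomial.map_eq_zero_iff hf]
      · have h5 := congrArg B.val hq0
        rw [map_zero] at h5
        rw [← h5, Polynomial.aeval_def, Polynomial.eval₂_map, Polynomial.aeval_def]
        exact (Polynomial.hom_eval₂ q (algebraMap _ B) (B.val : B →+* E) ⟨a, ha⟩).symm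
  have h3 : rk k (B : Set E) = (Subtype.val '' s).encard := h2.eRk_eq_encard
  rw [h3, Subtype.val_injective.encard_image]
  have h4 := hs.cardinalMk_eq_trdeg
  rw [← h4]
  rfl

end rk

end Pool.Agent.SuCH
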