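import Pool.Agent.Lib.MP_305fdd_al.Su.CH.Wr

/-!
# MP_305fdd_al, closed surface groups, class membership, HNN extensions: the upper bound for circles

`GluH N A z s`: homomorphisms of `A` to linear groups of degree `N` extend over the stable letter `s`.
`ub`: for a circle `y_i : A → SL(2, κ)`, `y_i(z) = T_i y_{i+1}(s⁻¹ z s) T_i⁻¹`, the product of the numbers
of the crossed homomorphisms `y_i → sl_2` is at most `|κ| ^ (n (6 g - 3))`.
-/

set_option autoImplicit false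
set_option linter.unusedSectionVars false

namespace Pool.Agent.SuCH

open Matrix (SpecialLinearGroup)
open Pool.Agent.SuUN Pool.Agent.SuD Pool.Agent.SuCM Pool.Agent.FrS
open Pool.Agent.Lib.MP_305fdd_al Pool.Agent.MP_305fdd_al Pool.Agent.SurfCnt

/-- Homomorphisms of `A` to linear groups of degree `N` extend over the stable letter `s`. -/
structure GluH {Γ : Type} [Group Γ] (N : ℕ) (A : Subgroup Γ) (z s : Γ) : Prop where
  gen : A ⊔ Subgroup.zpowers s = ⊤
  mem : z ∈ A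
  mem' : s⁻¹ * z * s ∈ A
  ext : ∀ (Q : Type) [Group Q], Lin N Q → ∀ (f : A →* Q) (t : Q),
    f ⟨z, mem⟩ = t * f ⟨s⁻¹ * z * s, mem'⟩ * t⁻¹ → ∃ q : Γ →* Q, (∀ x : A, q x = f x) ∧ q s = t

theorem gluH_of_isHnN {Γ : Type} [Group Γ] {N : ℕ} {A : Subgroup Γ} {z s : Γ}
    (h : IsHnN N (⊤ : Subgroup Γ) A (Subgroup.zpowers z) s) : GluH N A z s where
  gen := h.sup.symm
  mem := h.le (Subgroup.mem_zpowers z)
  mem' := h.le' z (Subgroup.mem_zpowers z)
  ext Q _ hQ f t hf := by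
    classical
    have hz := h.le (Subgroup.mem_zpowers z)
    have hz' := h.le' z (Subgroup.mem_zpowers z)
    obtain ⟨q, hq, h1, h2⟩ := h.ext Q hQ (fun x => if hx : x ∈ A then f ⟨x, hx⟩ else 1) t (by
        intro x hx y hy
        simp only [dif_pos hx, dif_pos hy, dif_pos (A.mul_mem hx hy)]
        exact map_mul f ⟨x, hx⟩ ⟨y, hy⟩) (by
        intro d hd
        obtain ⟨n, rfl⟩ := Subgroup.mem_zpowers_iff.1 hd
        have e0 : s⁻¹ * z ^ n * s = (s⁻¹ * z * s) ^ n := by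
          have := (conj_zpow (i := n) (a := s⁻¹) (b := z)).symm
          rwa [inv_inv] at this
        have e3 : s⁻¹ * z ^ n * s ∈ A := by
          rw [e0]
          exact zpow_mem hz' n
        rw [dif_pos (h.le hd), dif_pos e3]
        have e1 : (⟨z ^ n, h.le hd⟩ : A) = ⟨z, hz⟩ ^ n := rfl
        have e2 : (⟨s⁻¹ * z ^ n * s, e3⟩ : A) = ⟨s⁻¹ * z * s, hz'⟩ ^ n := Subtype.ext e0
        rw [e1, e2, map_zpow, map_zpow, hf, conj_zpow])
    have hm : ∀ x y, q (x * y) = q x * q y := fun x y =>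
      hq x (Subgroup.mem_top x) y (Subgroup.mem_top y)
    refine ⟨MonoidHom.mk' q hm, fun x => ?_, h2⟩
    change q x = _
    rw [h1 x x.2, dif_pos x.2]

section glu

variable {Γ : Type} [Group Γ] {N : ℕ} {A : Subgroup Γ} {z s : Γ}

theorem GluH.mono {N' : ℕ} (hN : N' ≤ N) (h : GluH N A z s) : GluH N' A z s where
  gen := h.gen
  mem := h.mem
  mem' := h.mem'
  ext Q _ hQ f t hf := h.ext Q (hQ.mono hN) f t hf

theorem GluH.hom_ext (h : GluH N A z s) {Q : Type} [Group Q] {q q' : Γ →* Q}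
    (h1 : ∀ x : A, q x = q' x) (h2 : q s = q' s) : q = q' := by
  have h3 : A ⊔ Subgroup.zpowers s ≤ MonoidHom.eqLocus q q' :=
    sup_le (fun x hx => h1 ⟨x, hx⟩) (by
      rw [Subgroup.zpowers_le]
      exact h2)
  rw [h.gen] at h3
  ext x
  exact h3 (Subgroup.mem_top x)

variable {Q P : Type} [Group Q] [AddCommGroup P] [DistribMulAction Q P]

/-- the condition for a crossed homomorphism of `A` and a value at `s` -/
def psH (h : GluH N A z s) (θ : Γ →* Q) (P : Type) [AddCommGroup P] [DistribMulAction Q P] :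
    Crs (θ.comp A.subtype) P × P →+ P where
  toFun x := x.1.1 ⟨z, h.mem⟩ - θ s • x.1.1 ⟨s⁻¹ * z * s, h.mem'⟩ - (x.2 - θ z • x.2)
  map_zero' := by
    change (0 : P) - θ s • (0 : P) - (0 - θ z • (0 : P)) = 0
    simp
  map_add' x y := by
    change (x.1.1 _ + y.1.1 _) - θ s • (x.1.1 _ + y.1.1 _) - ((x.2 + y.2) - θ z • (x.2 + y.2)) = _
    simp only [smul_add]
    abel

theorem psH_apply (h : GluH N A z s) (θ : Γ →* Q) (x : Crs (θ.comp A.subtype) P × P) :
    psH h θ P x = x.1.1 ⟨z, h.mem⟩ - θ s • x.1.1 ⟨s⁻¹ * z * s, h.mem'⟩ - (x.2 - θ z • x.2) := rfl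

theorem crs_conj {θ : Γ →* Q} (C : Crs θ P) (a b : Γ) :
    C.1 (a * b * a⁻¹) = C.1 a + θ a • C.1 b - θ (a * b * a⁻¹) • C.1 a := by
  rw [Crs.map_mul C.2, Crs.map_mul C.2, Crs.map_inv C.2, smul_neg, ← mul_smul, ← map_inv θ,
    ← map_mul θ, ← sub_eq_add_neg]

/-- the crossed homomorphisms of an HNN extension -/
noncomputable def gluHC (h : GluH N A z s) (hP : Lin N (AF Q P)) (θ : Γ →* Q) :
    Crs θ P ≃ (psH h θ P).ker :=
  Equiv.ofBijective (fun C => ⟨(resC A.subtype θ P C, C.1 s), by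
    rw [AddMonoidHom.mem_ker, psH_apply]
    change C.1 z - θ s • C.1 (s⁻¹ * z * s) - (C.1 s - θ z • C.1 s) = 0
    have e : s * (s⁻¹ * z * s) * s⁻¹ = z := by group
    have h1 := crs_conj C s (s⁻¹ * z * s)
    rw [e] at h1
    rw [h1]
    abel⟩) (by
    constructor
    · intro C C' hC
      have h1 := congrArg (fun x => x.1.1) hC
      have h2 : C.1 s = C'.1 s := congrArg (fun x => x.1.2) hC
      have h3 : Crs.hom C = Crs.hom C' := by
        refine h.hom_ext (fun x => ?_) ?_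
        · exact AF.ext (congrFun (congrArg Subtype.val h1) x) rfl
        · exact AF.ext h2 rfl
      apply Subtype.ext
      funext x
      exact congrArg AF.v (DFunLike.congr_fun h3 x)
    · rintro ⟨⟨c, τ⟩, hc⟩
      rw [AddMonoidHom.mem_ker, psH_apply] at hc
      change c.1 ⟨z, h.mem⟩ - θ s • c.1 ⟨s⁻¹ * z * s, h.mem'⟩ - (τ - θ z • τ) = 0 at hc
      obtain ⟨q, h1, h2⟩ := h.ext (AF Q P) hP (Crs.hom c) ⟨τ, θ s⟩ (by
        have hz : θ z = θ s * θ (s⁻¹ * z * s) * (θ s)⁻¹ := by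
          rw [← map_mul, ← map_inv, ← map_mul]
          congr 1
          group
        apply AF.ext
        · change c.1 ⟨z, h.mem⟩ = (τ + θ s • c.1 ⟨s⁻¹ * z * s, h.mem'⟩) +
            (θ s * θ (s⁻¹ * z * s)) • (-((θ s)⁻¹ • τ))
          rw [smul_neg, ← mul_smul, ← hz]
          rw [sub_eq_zero] at hc
          rw [sub_eq_iff_eq_add] at hc
          rw [hc]
          abel
        · exact hz)
      have h3 : (AF.pr Q P).comp q = θ := by
        refine h.hom_ext (fun x => ?_) ?_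
        · rw [MonoidHom.comp_apply, h1]
          rfl
        · rw [MonoidHom.comp_apply, h2]
          rfl
      refine ⟨(crsEquiv θ P).symm ⟨q, h3⟩, ?_⟩
      apply Subtype.ext
      refine Prod.ext ?_ ?_
      · apply Subtype.ext
        funext x
        exact congrArg AF.v (h1 x)
      · exact congrArg AF.v h2)

/-- THE COUNT for an HNN extension -/
theorem GluH.card_mul (h : GluH N A z s) (hP : Lin N (AF Q P)) (θ : Γ →* Q)
    [Finite Q] [Finite P] [Group.FG A] :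
    Nat.card (Crs θ P) * Nat.card (psH h θ P).range =
      Nat.card (Crs (θ.comp A.subtype) P) * Nat.card P := by
  have h1 : Finite (Crs (θ.comp A.subtype) P) := crs_finite _
  rw [Nat.card_congr (gluHC h hP θ), card_hom_eq, Nat.card_prod]

/-- homomorphisms to an elementary abelian `2`-group separate no more than those to `Z/2` -/
theorem hom_eq_of_two {V : Type} [AddCommGroup V] (h2 : ∀ v : V, v + v = 0) {a b : A}
    (hab : ∀ φ : A →* Multiplicative (ZMod 2), φ a = φ b) (f : A → V)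
    (hf : ∀ x y, f (x * y) = f x + f y) : f a = f b := by
  let : Module (ZMod 2) V := AddCommGroup.zmodModule (n := 2) (fun v => by
    rw [two_nsmul]
    exact h2 v)
  by_contra hne
  have h0 : f a - f b ≠ 0 := sub_ne_zero.2 hne
  obtain ⟨l, hl⟩ := Module.Projective.exists_dual_ne_zero (ZMod 2) h0
  apply hl
  rw [map_sub, sub_eq_zero]
  exact hab (MonoidHom.mk' (fun x => Multiplicative.ofAdd (l (f x))) (fun x y => by
    rw [hf, map_add]
    rfl))

/-- the values of `psH` lie in `IP` -/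
theorem range_psH_le (h : GluH N A z s) (θ : Γ →* Q) (h2 : ∀ v : P, v + v = 0)
    (hab : ∀ φ : A →* Multiplicative (ZMod 2), φ ⟨z, h.mem⟩ = φ ⟨s⁻¹ * z * s, h.mem'⟩) :
    (psH h θ P).range ≤ IP P θ.range := by
  rintro _ ⟨⟨c, τ⟩, rfl⟩
  rw [psH_apply]
  change c.1 ⟨z, h.mem⟩ - θ s • c.1 ⟨s⁻¹ * z * s, h.mem'⟩ - (τ - θ z • τ) ∈ _
  have hi : ∀ (x : Γ) (p : P), p - θ x • p ∈ IP P θ.range := fun x p =>
    sub_mem_IP (MonoidHom.mem_range.2 ⟨x, rfl⟩) p
  have h3 : c.1 ⟨z, h.mem⟩ - c.1 ⟨s⁻¹ * z * s, h.mem'⟩ ∈ IP P θ.range := by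
    have h4 : (QuotientAddGroup.mk (c.1 ⟨z, h.mem⟩) : P ⧸ IP P θ.range) =
        QuotientAddGroup.mk (c.1 ⟨s⁻¹ * z * s, h.mem'⟩) := by
      refine hom_eq_of_two (A := A) (V := P ⧸ IP P θ.range) ?_ hab
        (fun x => QuotientAddGroup.mk (c.1 x)) ?_
      · intro v
        obtain ⟨p, rfl⟩ := QuotientAddGroup.mk_surjective v
        rw [← QuotientAddGroup.mk_add, h2]
        rfl
      · intro x y
        rw [← QuotientAddGroup.mk_add, Crs.map_mul c.2]
        rw [QuotientAddGroup.eq]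
        have h5 := hi x (c.1 y)
        have h6 : -(c.1 x + (θ.comp A.subtype) x • c.1 y) + (c.1 x + c.1 y) =
          c.1 y - θ x • c.1 y := by
          change -(c.1 x + θ x • c.1 y) + (c.1 x + c.1 y) = _
          abel
        rw [h6]
        exact h5
    rw [QuotientAddGroup.eq] at h4
    have h5 := neg_mem h4
    have h6 : -(-c.1 ⟨z, h.mem⟩ + c.1 ⟨s⁻¹ * z * s, h.mem'⟩) =
      c.1 ⟨z, h.mem⟩ - c.1 ⟨s⁻¹ * z * s, h.mem'⟩ := by abel
    rwa [h6] at h5
  have h7 := add_mem (add_mem h3 (hi s (c.1 ⟨s⁻¹ * z * s, h.mem'⟩))) (neg_mem (hi z τ))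
  have h8 : c.1 ⟨z, h.mem⟩ - c.1 ⟨s⁻¹ * z * s, h.mem'⟩ +
      (c.1 ⟨s⁻¹ * z * s, h.mem'⟩ - θ s • c.1 ⟨s⁻¹ * z * s, h.mem'⟩) + -(τ - θ z • τ) =
      c.1 ⟨z, h.mem⟩ - θ s • c.1 ⟨s⁻¹ * z * s, h.mem'⟩ - (τ - θ z • τ) := by abel
  rwa [h8] at h7

/-- THE UPPER BOUND for the crossed homomorphisms of the vertex group -/
theorem GluH.ub (h : GluH N A z s) (hP : Lin N (AF Q P)) (θ : Γ →* Q) [Finite Q] [Finite P]
    [Group.FG A] {Λ : Type} [Group Λ] {j : Λ →* Γ} (hj : Function.Surjective j) {g : ℕ}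
    (hg : 1 ≤ g) (Φ : NatBij Λ (SurfG g)) (h2 : ∀ v : P, v + v = 0)
    (hab : ∀ φ : A →* Multiplicative (ZMod 2), φ ⟨z, h.mem⟩ = φ ⟨s⁻¹ * z * s, h.mem'⟩) :
    Nat.card (Crs (θ.comp A.subtype) P) ≤ Nat.card P ^ (2 * g - 1) := by
  have h3 := h.card_mul hP θ
  have h4 := card_le_of_surj (P := P) hj Φ θ
  have h5 : Nat.card (psH h θ P).range ≤ Nat.card (IP P θ.range) :=
    Nat.card_le_card_of_injective _ (AddSubgroup.inclusion_injective (range_psH_le h θ h2 hab))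
  have h6 : Nat.card (Crs (θ.comp A.subtype) P) * Nat.card P ≤
      Nat.card P ^ (2 * g - 1) * Nat.card P := by
    rw [← h3, ← pow_succ, Nat.sub_add_cancel (by omega : 1 ≤ 2 * g)]
    exact (Nat.mul_le_mul_left _ h5).trans h4
  exact Nat.le_of_mul_le_mul_right h6 Nat.card_pos

end glu

/-! ## Circles -/

section circle

variable {Γ : Type} [Group Γ] {N : ℕ} {A : Subgroup Γ} {z s : Γ} {n : ℕ}

/-- the representation of the circle -/
theorem exists_circle {H : Type} [Group H] (h : GluH N A z s) (hH : Lin N (Wr n H))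
    (y : ZMod n → (A →* H)) (T : ZMod n → H)
    (hT : ∀ i, y i ⟨z, h.mem⟩ = T i * y (i + 1) ⟨s⁻¹ * z * s, h.mem'⟩ * (T i)⁻¹) :
    ∃ θ : Γ →* Wr n H, (∀ x : A, θ x = Wr.inB n H fun i => y i x) ∧ θ s = ⟨T, 1⟩ := by
  refine h.ext _ hH ((Wr.inB n H).comp (MonoidHom.pi y)) ⟨T, 1⟩ ?_
  change Wr.inB n H (fun i => y i ⟨z, h.mem⟩) =
    (⟨T, 1⟩ : Wr n H) * Wr.inB n H (fun i => y i ⟨s⁻¹ * z * s, h.mem'⟩) * (⟨T, 1⟩ : Wr n H)⁻¹
  rw [Wr.conj]
  congr 1
  funext i
  exact hT i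

variable {H P : Type} [Group H] [AddCommGroup P] [DistribMulAction H P]

/-- the crossed homomorphisms of a product -/
def crsPi {L : Type} [Group L] (y : ZMod n → (L →* H)) (θ : L →* Wr n H)
    (hθ : ∀ x : L, θ x = Wr.inB n H fun i => y i x) :
    Crs θ (FP n P) ≃ ((i : ZMod n) → Crs (y i) P) where
  toFun c i := ⟨fun x => c.1 x i, fun a b => by
    have h1 : c.1 (a * b) i = c.1 a i + (θ a).f i • c.1 b (i + (θ a).k) :=
      congrFun (Crs.map_mul c.2 a b) i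
    rw [hθ, Wr.inB_k, add_zero, Wr.inB_f] at h1
    exact h1⟩
  invFun d := ⟨fun x => (fun i => (d i).1 x : FP n P), fun a b => by
    funext i
    have h1 : (d i).1 (a * b) = (d i).1 a + y i a • (d i).1 b := Crs.map_mul (d i).2 a b
    change (d i).1 (a * b) = (d i).1 a + (θ a).f i • (d (i + (θ a).k)).1 b
    rw [hθ, Wr.inB_k, add_zero, Wr.inB_f]
    exact h1⟩
  left_inv c := rfl
  right_inv d := rfl

/-- THE UPPER BOUND FOR CIRCLES -/
theorem ub [NeZero n] (h : GluH N A z s) (hN : 2 * n ≤ N) [Group.FG A]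
    {Λ : Type} [Group Λ] {j : Λ →* Γ} (hj : Function.Surjective j) {g : ℕ}
    (hg : 1 ≤ g) (Φ : NatBij Λ (SurfG g))
    (hab : ∀ φ : A →* Multiplicative (ZMod 2), φ ⟨z, h.mem⟩ = φ ⟨s⁻¹ * z * s, h.mem'⟩)
    (κ : Type) [Field κ] [Finite κ] [Algebra (ZMod 2) κ]
    (y : ZMod n → (A →* SpecialLinearGroup (Fin 2) κ)) (T : ZMod n → SpecialLinearGroup (Fin 2) κ)
    (hT : ∀ i, y i ⟨z, h.mem⟩ = T i * y (i + 1) ⟨s⁻¹ * z * s, h.mem'⟩ * (T i)⁻¹) :
    ∏ i, Nat.card (Crs (y i) (TK κ)) ≤ Nat.card κ ^ (n * (6 * g - 3)) := by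
  obtain ⟨θ, hθ1, hθ2⟩ := exists_circle h (lin_wr hN κ) y T hT
  have h1 := h.ub (P := FP n (TK κ)) (lin_afW hN κ) θ hj hg Φ (by
    intro v
    funext i
    change v i + v i = 0
    have h2 : (2 : κ) = 0 := two_z κ
    rw [← two_smul κ, h2, zero_smul]) hab
  rw [Nat.card_congr (crsPi (P := TK κ) y (θ.comp A.subtype) hθ1), Nat.card_pi, card_FP,
    card_TK, ← pow_mul, ← pow_mul] at h1
  refine h1.trans (le_of_eq ?_)
  congr 1
  obtain ⟨k, rfl⟩ : ∃ k, g = k + 1 := ⟨g - 1, by omega⟩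
  have e1 : 2 * (k + 1) - 1 = 2 * k + 1 := by omega
  have e2 : 6 * (k + 1) - 3 = 6 * k + 3 := by omega
  rw [e1, e2]
  ring

end circle

end Pool.Agent.SuCH
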