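import Pool.Agent.Lib.MP_305fdd_al.Su.UN.Defs

/-!
# MP_305fdd_al, surface groups, block CM-HNN: the wreath product with a cyclic group

`W n G = G ^ (ℤ/n) ⋊ ℤ/n`.  If `G` embeds into `SL(2, R)`, then `W n G` is linear of degree `2 n`.
-/

set_option autoImplicit false

namespace Pool.Agent.SuCH

open Matrix Pool.Agent.SuUN

/-- the wreath product of `G` with the cyclic group of order `n` -/
@[ext] structure W (n : ℕ) (G : Type) where
  /-- the coordinates -/
  v : ZMod n → G
  /-- the shift -/
  k : ZMod n

namespace W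

variable {n : ℕ} {G : Type} [Group G]

instance : Mul (W n G) := ⟨fun x y => ⟨fun i => x.v i * y.v (i + x.k), x.k + y.k⟩⟩
instance : One (W n G) := ⟨⟨fun _ => 1, 0⟩⟩
instance : Inv (W n G) := ⟨fun x => ⟨fun i => (x.v (i - x.k))⁻¹, -x.k⟩⟩

@[simp] theorem mul_v (x y : W n G) (i : ZMod n) : (x * y).v i = x.v i * y.v (i + x.k) := rfl
@[simp] theorem mul_k (x y : W n G) : (x * y).k = x.k + y.k := rfl
@[simp] theorem one_v (i : ZMod n) : (1 : W n G).v i = 1 := rfl
@[simp] theorem one_k : (1 : W n G).k = 0 := rfl
@[simp] theorem inv_v (x : W n G) (i : ZMod n) : (x⁻¹).v i = (x.v (i - x.k))⁻¹ := rfl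
@[simp] theorem inv_k (x : W n G) : (x⁻¹).k = -x.k := rfl

instance : Group (W n G) where
  mul_assoc x y z := by
    refine W.ext (funext fun i => ?_) ?_
    · simp only [mul_v, mul_k, mul_assoc, add_assoc]
    · simp only [mul_k, add_assoc]
  one_mul x := by
    refine W.ext (funext fun i => ?_) ?_
    · simp
    · simp
  mul_one x := by
    refine W.ext (funext fun i => ?_) ?_
    · simp
    · simp
  inv_mul_cancel x := by
    refine W.ext (funext fun i => ?_) ?_
    · simp [sub_eq_add_neg]
    · simp

/-- the shift -/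
def pr (n : ℕ) (G : Type) [Group G] : W n G →* Multiplicative (ZMod n) where
  toFun x := Multiplicative.ofAdd x.k
  map_one' := rfl
  map_mul' _ _ := rfl

@[simp] theorem pr_apply (x : W n G) : pr n G x = Multiplicative.ofAdd x.k := rfl

/-- the map induced by a homomorphism -/
def map (n : ℕ) {G G' : Type} [Group G] [Group G'] (f : G →* G') : W n G →* W n G' where
  toFun x := ⟨fun i => f (x.v i), x.k⟩
  map_one' := by
    refine W.ext (funext fun i => ?_) rfl
    exact map_one f
  map_mul' x y := by
    refine W.ext (funext fun i => ?_) rfl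
    exact map_mul f _ _

@[simp] theorem map_v {G' : Type} [Group G'] (f : G →* G') (x : W n G) (i : ZMod n) :
    (map n f x).v i = f (x.v i) := rfl
@[simp] theorem map_k {G' : Type} [Group G'] (f : G →* G') (x : W n G) :
    (map n f x).k = x.k := rfl

theorem map_inj {G' : Type} [Group G'] {f : G →* G'} (hf : Function.Injective f) :
    Function.Injective (map n f) := by
  intro x y h
  refine W.ext (funext fun i => ?_) ?_
  · exact hf (congrFun (congrArg W.v h) i)
  · exact congrArg (fun z : W n G' => z.k) h

/-- tuples -/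
def tup {A : Type} [Group A] (f : ZMod n → A →* G) : A →* W n G where
  toFun a := ⟨fun i => f i a, 0⟩
  map_one' := by
    refine W.ext (funext fun i => ?_) rfl
    exact map_one (f i)
  map_mul' x y := by
    refine W.ext (funext fun i => ?_) ?_
    · change f i (x * y) = f i x * f (i + 0) y
      rw [map_mul, add_zero]
    · change (0 : ZMod n) = 0 + 0
      rw [add_zero]

@[simp] theorem tup_v {A : Type} [Group A] (f : ZMod n → A →* G) (a : A) (i : ZMod n) :
    (tup f a).v i = f i a := rfl
@[simp] theorem tup_k {A : Type} [Group A] (f : ZMod n → A →* G) (a : A) : (tup f a).k = 0 := rfl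

/-- the coordinate `i` of the elements without shift -/
def ev {Γ : Type} [Group Γ] (w : Γ →* W n G) (H : Subgroup Γ) (hH : ∀ x ∈ H, (w x).k = 0)
    (i : ZMod n) : H →* G where
  toFun x := (w x).v i
  map_one' := by
    rw [OneMemClass.coe_one, map_one]
    rfl
  map_mul' x y := by
    rw [Subgroup.coe_mul, map_mul, mul_v, hH x x.2, add_zero]

@[simp] theorem ev_apply {Γ : Type} [Group Γ] (w : Γ →* W n G) (H : Subgroup Γ)
    (hH : ∀ x ∈ H, (w x).k = 0) (i : ZMod n) (x : H) : ev w H hH i x = (w x).v i := rfl

/-- the matrix -/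
def mat [NeZero n] {R : Type} [CommRing R] (x : W n (SpecialLinearGroup (Fin 2) R)) :
    Matrix (ZMod n × Fin 2) (ZMod n × Fin 2) R :=
  Matrix.of fun a b => if b.1 = a.1 + x.k then (x.v a.1).1 a.2 b.2 else 0

/-- the matrices as a homomorphism -/
def matHom [NeZero n] (R : Type) [CommRing R] : W n (SpecialLinearGroup (Fin 2) R) →*
    Matrix (ZMod n × Fin 2) (ZMod n × Fin 2) R where
  toFun := mat
  map_one' := by
    ext ⟨i, a⟩ ⟨j, b⟩
    change (if j = i + 0 then (1 : Matrix (Fin 2) (Fin 2) R) a b else 0) = _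
    rw [add_zero, Matrix.one_apply, Matrix.one_apply]
    by_cases h1 : i = j
    · subst h1
      simp
    · rw [if_neg (fun h => h1 h.symm), if_neg (fun h => h1 (Prod.ext_iff.1 h).1)]
  map_mul' x y := by
    ext ⟨i, a⟩ ⟨j, b⟩
    rw [Matrix.mul_apply]
    change (if j = i + (x.k + y.k) then ((x.v i).1 * (y.v (i + x.k)).1) a b else 0) =
      ∑ c : ZMod n × Fin 2, (if c.1 = i + x.k then (x.v i).1 a c.2 else 0) *
        (if j = c.1 + y.k then (y.v c.1).1 c.2 b else 0)
    rw [Fintype.sum_prod_type, Finset.sum_eq_single (i + x.k)]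
    · by_cases h : j = i + x.k + y.k
      · rw [if_pos (by rw [h, add_assoc]), Matrix.mul_apply]
        refine Finset.sum_congr rfl fun c _ => ?_
        rw [if_pos rfl, if_pos h]
      · rw [if_neg (by rw [← add_assoc]; exact h)]
        symm
        refine Finset.sum_eq_zero fun c _ => ?_
        rw [if_neg h, mul_zero]
    · intro c _ hc
      refine Finset.sum_eq_zero fun d _ => ?_
      rw [if_neg hc, zero_mul]
    · intro h
      exact absurd (Finset.mem_univ _) h

theorem mat_inj [NeZero n] (R : Type) [CommRing R] [Nontrivial R] :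
    Function.Injective (matHom (n := n) R) := by
  intro x y h
  have h0 : ∀ a b : ZMod n × Fin 2, (if b.1 = a.1 + x.k then (x.v a.1).1 a.2 b.2 else 0) =
      (if b.1 = a.1 + y.k then (y.v a.1).1 a.2 b.2 else 0) := fun a b => congrFun (congrFun h a) b
  have hk : x.k = y.k := by
    by_contra hne
    have h1 : ∀ a b, (x.v 0).1 a b = 0 := by
      intro a b
      have h2 := h0 (0, a) (0 + x.k, b)
      rw [if_pos rfl, if_neg (fun h3 => hne (add_left_cancel h3))] at h2
      exact h2
    have h2 := (x.v 0).2
    rw [Matrix.det_fin_two, h1 0 0, h1 0 1] at h2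
    simp at h2
  refine W.ext (funext fun i => ?_) hk
  apply Subtype.ext
  ext a b
  have h2 := h0 (i, a) (i + x.k, b)
  rw [if_pos rfl, if_pos (by rw [hk])] at h2
  exact h2

/-- wreath products are linear -/
theorem lin [NeZero n] {R : Type} [CommRing R] [Nontrivial R]
    (f : G →* SpecialLinearGroup (Fin 2) R) (hf : Function.Injective f) : Lin (n * 2) (W n G) := by
  refine lin_of (m := ZMod n × Fin 2) ?_ ((matHom R).comp (map n f)) ?_
  · rw [Fintype.card_prod, ZMod.card, Fintype.card_fin]
  · exact (mat_inj R).comp (map_inj hf)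

end W

end Pool.Agent.SuCH
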