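import Pool.Agent.Lib.MP_305fdd_al.Su.UN.Defs
import Pool.Agent.Lib.MP_305fdd_al.Su.CM.Emb

/-!
# MP_305fdd_al, closed surface groups, class membership, HNN extensions: wreath products

`Wr n H`: pairs `(f, k)`, `f : ZMod n → H`, `k : ZMod n`; `(f, k) (f', k') = (i ↦ f i * f' (i + k), k + k')`.
It acts on the functions `ZMod n → P` if `H` acts on `P`.  For `H = SL(2, R)` it is a linear group of
degree `2 n`, and so is the affine group of the functions with values in the matrices of trace zero.
-/

set_option autoImplicit false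
set_option linter.unusedSectionVars false

namespace Pool.Agent.SuCH

open Matrix (SpecialLinearGroup)
open Pool.Agent.SuUN Pool.Agent.SuD Pool.Agent.SuCM

/-- the wreath product of `H` with the cyclic group `ZMod n` -/
@[ext] structure Wr (n : ℕ) (H : Type) where
  /-- the part in the base -/
  f : ZMod n → H
  /-- the shift -/
  k : ZMod n

section wr

variable {n : ℕ} {H : Type} [Group H]

instance : Mul (Wr n H) := ⟨fun x y => ⟨fun i => x.f i * y.f (i + x.k), x.k + y.k⟩⟩
instance : One (Wr n H) := ⟨⟨fun _ => 1, 0⟩⟩
instance : Inv (Wr n H) := ⟨fun x => ⟨fun i => (x.f (i - x.k))⁻¹, -x.k⟩⟩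

@[simp] theorem Wr.mul_f (x y : Wr n H) (i : ZMod n) : (x * y).f i = x.f i * y.f (i + x.k) := rfl
@[simp] theorem Wr.mul_k (x y : Wr n H) : (x * y).k = x.k + y.k := rfl
@[simp] theorem Wr.one_f (i : ZMod n) : (1 : Wr n H).f i = 1 := rfl
@[simp] theorem Wr.one_k : (1 : Wr n H).k = 0 := rfl
@[simp] theorem Wr.inv_f (x : Wr n H) (i : ZMod n) : (x⁻¹).f i = (x.f (i - x.k))⁻¹ := rfl
@[simp] theorem Wr.inv_k (x : Wr n H) : (x⁻¹).k = -x.k := rfl

instance : Group (Wr n H) where
  mul_assoc x y z := by
    apply Wr.ext
    · funext i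
      simp only [Wr.mul_f, Wr.mul_k, mul_assoc, add_assoc]
    · exact add_assoc _ _ _
  one_mul x := by
    apply Wr.ext
    · funext i
      simp
    · simp
  mul_one x := by
    apply Wr.ext
    · funext i
      simp
    · simp
  inv_mul_cancel x := by
    apply Wr.ext
    · funext i
      simp [sub_eq_add_neg]
    · simp

instance [NeZero n] [Finite H] : Finite (Wr n H) :=
  Finite.of_injective (fun x : Wr n H => (x.f, x.k)) fun x y h => by
    rw [Prod.mk.injEq] at h
    exact Wr.ext h.1 h.2

/-- the shift, as a homomorphism -/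
def Wr.pr (n : ℕ) (H : Type) [Group H] : Wr n H →* Multiplicative (ZMod n) where
  toFun x := Multiplicative.ofAdd x.k
  map_one' := rfl
  map_mul' _ _ := rfl

/-- the base -/
def Wr.inB (n : ℕ) (H : Type) [Group H] : (ZMod n → H) →* Wr n H where
  toFun f := ⟨f, 0⟩
  map_one' := rfl
  map_mul' f f' := by
    apply Wr.ext
    · funext i
      simp
    · simp

@[simp] theorem Wr.inB_f (f : ZMod n → H) : (Wr.inB n H f).f = f := rfl
@[simp] theorem Wr.inB_k (f : ZMod n → H) : (Wr.inB n H f).k = 0 := rfl

/-- functoriality -/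
def Wr.map {H' : Type} [Group H'] (φ : H →* H') : Wr n H →* Wr n H' where
  toFun x := ⟨fun i => φ (x.f i), x.k⟩
  map_one' := by
    apply Wr.ext
    · funext i
      simp
    · simp
  map_mul' x y := by
    apply Wr.ext
    · funext i
      simp
    · simp

@[simp] theorem Wr.map_f {H' : Type} [Group H'] (φ : H →* H') (x : Wr n H) (i : ZMod n) :
    (Wr.map φ x).f i = φ (x.f i) := rfl
@[simp] theorem Wr.map_k {H' : Type} [Group H'] (φ : H →* H') (x : Wr n H) :
    (Wr.map φ x).k = x.k := rfl

theorem Wr.map_inj {H' : Type} [Group H'] (φ : H →* H') (hφ : Function.Injective φ) :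
    Function.Injective (Wr.map (n := n) φ) := by
  intro x y h
  apply Wr.ext
  · funext i
    apply hφ
    rw [← Wr.map_f, ← Wr.map_f, h]
  · rw [← Wr.map_k φ x, h, Wr.map_k]

/-- the conjugate of an element of the base by `(T, 1)` -/
theorem Wr.conj (T y : ZMod n → H) : (⟨T, 1⟩ : Wr n H) * Wr.inB n H y * (⟨T, 1⟩ : Wr n H)⁻¹ =
    Wr.inB n H fun i => T i * y (i + 1) * (T i)⁻¹ := by
  apply Wr.ext
  · funext i
    simp
  · simp

/-- the wreath products of `SL(2, R)` are linear of degree `2 n` -/
theorem lin_wr [NeZero n] {N : ℕ} (hN : 2 * n ≤ N) (R : Type) [CommRing R] [Nontrivial R] :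
    Lin N (Wr n (SpecialLinearGroup (Fin 2) R)) := by
  classical
  let i : Wr n (SpecialLinearGroup (Fin 2) R) →* Matrix (ZMod n × Fin 2) (ZMod n × Fin 2) R :=
    { toFun := fun x => Matrix.of fun p q => if q.1 = p.1 + x.k then (x.f p.1).1 p.2 q.2 else 0
      map_one' := by
        ext ⟨p, a⟩ ⟨q, b⟩
        rw [Matrix.of_apply]
        simp only [Wr.one_k, add_zero, Wr.one_f]
        by_cases h : q = p
        · subst h
          rw [if_pos rfl]
          by_cases h2 : a = b
          · subst h2
            rw [Matrix.one_apply_eq]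
            exact Matrix.one_apply_eq a
          · rw [Matrix.one_apply_ne (fun h3 => h2 (congrArg Prod.snd h3))]
            exact Matrix.one_apply_ne h2
        · rw [if_neg h, Matrix.one_apply_ne (fun h3 => h (congrArg Prod.fst h3).symm)]
      map_mul' := by
        intro x y
        ext ⟨p, a⟩ ⟨q, b⟩
        rw [Matrix.of_apply, Matrix.mul_apply, Fintype.sum_prod_type,
          Finset.sum_eq_single (p + x.k)]
        · simp only [Matrix.of_apply, if_true, Wr.mul_k, Wr.mul_f]
          by_cases h : q = p + (x.k + y.k)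
          · have h' : q = p + x.k + y.k := by rw [h, add_assoc]
            rw [if_pos h]
            simp only [if_pos h']
            rfl
          · have h' : ¬ q = p + x.k + y.k := by rwa [add_assoc]
            rw [if_neg h]
            simp only [if_neg h', mul_zero, Finset.sum_const_zero]
        · intro c _ hc
          refine Finset.sum_eq_zero fun d _ => ?_
          simp only [Matrix.of_apply, if_neg hc, zero_mul]
        · intro h
          exact absurd (Finset.mem_univ _) h }
  refine Lin.mono hN (lin_of (m := ZMod n × Fin 2) ?_ i ?_)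
  · rw [Fintype.card_prod, ZMod.card, Fintype.card_fin, mul_comm]
  · intro x y h
    have h0 : ∀ (p q : ZMod n) (a b : Fin 2), (if q = p + x.k then (x.f p).1 a b else 0) =
        if q = p + y.k then (y.f p).1 a b else 0 :=
      fun p q a b => congrFun (congrFun h (p, a)) (q, b)
    have hk : x.k = y.k := by
      by_contra hne
      have h1 : ∀ a b, (x.f 0).1 a b = 0 := by
        intro a b
        have h2 := h0 0 (0 + x.k) a b
        rw [if_pos rfl, if_neg (fun h3 => hne (by simpa using h3))] at h2
        exact h2
      have h3 := (x.f 0).2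
      rw [Matrix.det_fin_two, h1, h1, h1] at h3
      simp at h3
    apply Wr.ext _ hk
    funext p
    apply Subtype.ext
    ext a b
    have h1 := h0 p (p + x.k) a b
    rw [if_pos rfl, if_pos (by rw [hk])] at h1
    exact h1

end wr

section act

variable {n : ℕ} {H P : Type} [Group H] [AddCommGroup P] [DistribMulAction H P]

/-- the functions `ZMod n → P` as a module over the wreath product -/
def FP (n : ℕ) (P : Type) : Type := ZMod n → P

instance : AddCommGroup (FP n P) := inferInstanceAs (AddCommGroup (ZMod n → P))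
instance [NeZero n] [Finite P] : Finite (FP n P) := inferInstanceAs (Finite (ZMod n → P))

theorem card_FP [NeZero n] [Finite P] : Nat.card (FP n P) = Nat.card P ^ n := by
  have h : Nat.card (FP n P) = Nat.card (ZMod n → P) := rfl
  rw [h, Nat.card_fun, Nat.card_zmod]

theorem FP.add_apply (p q : FP n P) (i : ZMod n) : (p + q) i = p i + q i := rfl

instance : DistribMulAction (Wr n H) (FP n P) where
  smul x p := fun i => x.f i • p (i + x.k)
  one_smul p := by
    funext i
    change (1 : H) • p (i + 0) = p i
    rw [one_smul, add_zero]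
  mul_smul x y p := by
    funext i
    change (x.f i * y.f (i + x.k)) • p (i + (x.k + y.k)) = x.f i • y.f (i + x.k) • p (i + x.k + y.k)
    rw [mul_smul, add_assoc]
  smul_zero x := by
    funext i
    change x.f i • (0 : P) = 0
    rw [smul_zero]
  smul_add x p q := by
    funext i
    change x.f i • (p (i + x.k) + q (i + x.k)) = x.f i • p (i + x.k) + x.f i • q (i + x.k)
    rw [smul_add]

theorem FP.act (x : Wr n H) (p : FP n P) (i : ZMod n) : (x • p) i = x.f i • p (i + x.k) := rfl

/-- the affine group of the functions inside the wreath product of the affine group -/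
def afW (n : ℕ) (H P : Type) [Group H] [AddCommGroup P] [DistribMulAction H P] :
    AF (Wr n H) (FP n P) →* Wr n (AF H P) where
  toFun x := ⟨fun i => ⟨x.v i, x.q.f i⟩, x.q.k⟩
  map_one' := rfl
  map_mul' _ _ := rfl

theorem afW_inj : Function.Injective (afW n H P) := by
  intro x y h
  have h1 : ∀ i, (⟨x.v i, x.q.f i⟩ : AF H P) = ⟨y.v i, y.q.f i⟩ := fun i =>
    congrFun (congrArg Wr.f h) i
  refine AF.ext ?_ (Wr.ext ?_ ?_)
  · funext i
    exact congrArg AF.v (h1 i)
  · funext i
    exact congrArg AF.q (h1 i)
  · have h2 : (afW n H P x).k = (afW n H P y).k := congrArg Wr.k h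
    exact h2

end act

/-- the affine groups of the functions with values in the matrices of trace zero are linear of degree
`2 n` -/
theorem lin_afW {n : ℕ} [NeZero n] {N : ℕ} (hN : 2 * n ≤ N) (κ : Type) [CommRing κ]
    [Nontrivial κ] : Lin N (AF (Wr n (SpecialLinearGroup (Fin 2) κ)) (FP n (TK κ))) := by
  have : Nontrivial (DualNumber κ) := inferInstanceAs (Nontrivial (κ × κ))
  exact (lin_wr hN (DualNumber κ)).of_inj ((Wr.map eD).comp (afW n _ _))
    ((Wr.map_inj eD eD_inj).comp afW_inj)

end Pool.Agent.SuCH
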